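import Pool.Agent.TH143.GE.Ell

/-!
The two forms of the condition on curves of genus one.
-/

set_option autoImplicit false

namespace Pool.Agent.TH143.GE

open MvPolynomial Filter Pool.Agent.TH143.DE Pool.Agent.TH143.HE Pool.Agent.TH143.TW FF
open Module Pool.Agent.W603.LV IntermediateField

variable {N : ℕ} {R : Type} [CommRing R]

section

variable {F : Type} [Field F] [Algebra ℂ F] {X Y : F} {a b : ℂ}

/-- a polynomial which vanishes at the points of the curve vanishes in the function field -/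
theorem zero_of_points (hXY : Y ^ 2 = X ^ 3 + algebraMap ℂ F a * X + algebraMap ℂ F b)
    (hind : ∀ A B : Polynomial ℂ, Polynomial.aeval X A + Polynomial.aeval X B * Y = 0 →
      A = 0 ∧ B = 0) {P : MvPolynomial (Fin 2) ℂ}
    (hP : ∀ u v : ℂ, v ^ 2 = u ^ 3 + a * u + b → eval ![u, v] P = 0) : aeval ![X, Y] P = 0 := by
  by_contra h0
  obtain ⟨n, hn, h⟩ := nonvan hXY hind h0
  apply hn
  apply Polynomial.funext
  intro u
  obtain ⟨v, hv⟩ := IsAlgClosed.exists_pow_nat_eq (u ^ 3 + a * u + b) (n := 2) (by norm_num)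
  rw [h u v hv (hP u v hv), Polynomial.eval_zero]

theorem points_of_zero (hXY : Y ^ 2 = X ^ 3 + algebraMap ℂ F a * X + algebraMap ℂ F b)
    (hind : ∀ A B : Polynomial ℂ, Polynomial.aeval X A + Polynomial.aeval X B * Y = 0 →
      A = 0 ∧ B = 0) {P : MvPolynomial (Fin 2) ℂ} (hP : aeval ![X, Y] P = 0) {u v : ℂ}
    (huv : v ^ 2 = u ^ 3 + a * u + b) : eval ![u, v] P = 0 :=
  van hXY hind hP huv

theorem form_field (φ : R →+* ℂ) (p : Fin (N + 1) → MvPolynomial (Fin 2) ℂ)
    (G : MvPolynomial (Fin (N + 1)) R) :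
    aeval ![X, Y] (eval₂ (MvPolynomial.C.comp φ) p G) =
      eval₂ ((algebraMap ℂ F).comp φ) (fun i => aeval ![X, Y] (p i)) G := by
  have h1 := hom_eval₂ G (MvPolynomial.C.comp φ)
    ((aeval ![X, Y] : MvPolynomial (Fin 2) ℂ →ₐ[ℂ] F) : MvPolynomial (Fin 2) ℂ →+* F) p
  have h2 : ((aeval ![X, Y] : MvPolynomial (Fin 2) ℂ →ₐ[ℂ] F) : MvPolynomial (Fin 2) ℂ →+* F).comp
      (MvPolynomial.C.comp φ) = (algebraMap ℂ F).comp φ := by
    ext r
    simp
  rw [h2] at h1
  exact h1

theorem form_point (φ : R →+* ℂ) (p : Fin (N + 1) → MvPolynomial (Fin 2) ℂ)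
    (G : MvPolynomial (Fin (N + 1)) R) (u v : ℂ) :
    eval ![u, v] (eval₂ (MvPolynomial.C.comp φ) p G) =
      eval₂ φ (fun i => eval ![u, v] (p i)) G := by
  have h1 := hom_eval₂ G (MvPolynomial.C.comp φ) (eval ![u, v]) p
  have h2 : (eval ![u, v]).comp (MvPolynomial.C.comp φ) = φ := by
    ext r
    simp
  rw [h2] at h1
  exact h1

/-- common denominators -/
theorem exists_den2
    (hgen : ∀ f : F, ∃ r s : MvPolynomial (Fin 2) ℂ, f = aeval ![X, Y] r / aeval ![X, Y] s)
    (w : Fin (N + 1) → F) : ∃ (p : Fin (N + 1) → MvPolynomial (Fin 2) ℂ) (D : F), D ≠ 0 ∧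
      ∀ i, aeval ![X, Y] (p i) = D * w i := by
  classical
  have h1 : ∀ i, ∃ r s : MvPolynomial (Fin 2) ℂ, aeval ![X, Y] s ≠ 0 ∧
      w i = aeval ![X, Y] r / aeval ![X, Y] s := by
    intro i
    obtain ⟨r, s, hrs⟩ := hgen (w i)
    by_cases h0 : aeval ![X, Y] s = 0
    · refine ⟨0, 1, ?_, ?_⟩
      · rw [map_one]
        exact one_ne_zero
      · rw [hrs, h0, div_zero, map_zero, zero_div]
    · exact ⟨r, s, h0, hrs⟩
  choose r s hs hw using h1
  refine ⟨fun i => r i * ∏ k ∈ Finset.univ.erase i, s k, ∏ k, aeval ![X, Y] (s k),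
    Finset.prod_ne_zero_iff.2 fun k _ => hs k, fun i => ?_⟩
  rw [map_mul, map_prod, ← Finset.mul_prod_erase Finset.univ _ (Finset.mem_univ i), hw i]
  have := hs i
  field_simp

end

/-- from the equations of Weierstrass to function fields of canonical degree zero -/
theorem genusOne_of_ell {φ : R →+* ℂ} {I I' : Ideal (MvPolynomial (Fin (N + 1)) R)}
    (h : EllCurvesIn φ I I') : GenusOneIn φ I I' := by
  intro F _ _ _ h0 w hw0 hX
  obtain ⟨X, Y, a, b, -, hXY, hind, hgen, hns⟩ := weier (k := ℂ) (F := F) h0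
  obtain ⟨p, D, hD, hp⟩ := exists_den2 (X := X) (Y := Y) hgen w
  have hform : ∀ G : MvPolynomial (Fin (N + 1)) R, ∀ d, G.IsHomogeneous d →
      aeval ![X, Y] (eval₂ (MvPolynomial.C.comp φ) p G) =
        D ^ d * eval₂ ((algebraMap ℂ F).comp φ) w G := by
    intro G d hd
    rw [form_field]
    have h1 : (fun i => aeval ![X, Y] (p i)) = fun i => D * w i := funext hp
    rw [h1, eval₂_smul_homog _ D w hd]
  obtain ⟨i0, hi0⟩ : ∃ i0, w i0 ≠ 0 := by
    by_contra hcon
    push Not at hcon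
    exact hw0 (funext hcon)
  have hpX : ∀ u v : ℂ, v ^ 2 = u ^ 3 + a * u + b → IsPtP φ I fun j => eval ![u, v] (p j) := by
    intro u v huv G hG ⟨d, hd⟩
    rw [← form_point]
    apply points_of_zero hXY hind _ huv
    rw [hform G d hd, hX G hG ⟨d, hd⟩, mul_zero]
  by_cases hnc : ∃ (i j : Fin (N + 1)) (u v u' v' : ℂ), v ^ 2 = u ^ 3 + a * u + b ∧
      v' ^ 2 = u' ^ 3 + a * u' + b ∧
      eval ![u, v] (p i) * eval ![u', v'] (p j) ≠ eval ![u, v] (p j) * eval ![u', v'] (p i)
  · left
    have h1 := h a b (disc_of_ns hns) p hpX hnc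
    intro G hG ⟨d, hd⟩
    have h2 : aeval ![X, Y] (eval₂ (MvPolynomial.C.comp φ) p G) = 0 := by
      apply zero_of_points hXY hind
      intro u v huv
      rw [form_point]
      exact h1 u v huv G hG ⟨d, hd⟩
    rw [hform G d hd] at h2
    exact (mul_eq_zero.1 h2).resolve_left (pow_ne_zero _ hD)
  · right
    push Not at hnc
    obtain ⟨u', v', huv', hne⟩ : ∃ u' v' : ℂ, v' ^ 2 = u' ^ 3 + a * u' + b ∧
        eval ![u', v'] (p i0) ≠ 0 := by
      by_contra hcon
      push Not at hcon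
      have h1 := zero_of_points hXY hind hcon
      rw [hp] at h1
      exact mul_ne_zero hD hi0 h1
    refine ⟨w i0, fun i => eval ![u', v'] (p i) / eval ![u', v'] (p i0), fun i => ?_⟩
    have h1 : aeval ![X, Y] (p i * MvPolynomial.C (eval ![u', v'] (p i0)) -
        p i0 * MvPolynomial.C (eval ![u', v'] (p i))) = 0 := by
      apply zero_of_points hXY hind
      intro u v huv
      rw [map_sub, map_mul, map_mul, eval_C, eval_C, sub_eq_zero]
      exact hnc i i0 u v u' v' huv huv'
    rw [map_sub, map_mul, map_mul, hp, hp, ← algebraMap_eq, AlgHom.commutes, AlgHom.commutes] at h1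
    have h4 : algebraMap ℂ F (eval ![u', v'] (p i0)) ≠ 0 := by
      rwa [Ne, map_eq_zero]
    have h5 : w i * algebraMap ℂ F (eval ![u', v'] (p i0)) -
        w i0 * algebraMap ℂ F (eval ![u', v'] (p i)) = 0 := by
      apply mul_left_cancel₀ hD
      linear_combination h1
    rw [map_div₀]
    field_simp
    linear_combination h5

/-- the sequences on an elliptic curve in the variety of `I` -/
theorem ell_bad {φ : R →+* ℂ} {I I' : Ideal (MvPolynomial (Fin (N + 1)) R)}
    (h : ¬ EllCurvesIn φ I I') : ∃ B : Subalgebra ℂ (ℕ → ℂ), CoefField B ∧ FinGen B ∧ TrLe B 1 ∧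
      SeqBad φ I I' B := by
  unfold EllCurvesIn at h
  push Not at h
  obtain ⟨a, b, hdisc, p, hpX, ⟨i, j, u, v, u', v', huv, huv', hnc⟩, u1, v1, huv1, hpZ⟩ := h
  obtain ⟨F, _, _, X, Y, hff, hXY, hind, hgen⟩ := exists_field a b
  refine bad_core (F := F) (exists_model' hXY hind hgen (ns_of_disc hdisc))
    (w := fun i => aeval ![X, Y] (p i)) ?_ ?_ ?_ ?_
  · intro h0
    apply hnc
    have h1 : ∀ i, eval ![u, v] (p i) = 0 := fun i =>
      points_of_zero hXY hind (congrFun h0 i) huv
    rw [h1 i, h1 j, zero_mul, zero_mul]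
  · intro G hG hGh
    rw [← form_field]
    apply zero_of_points hXY hind
    intro u v huv
    rw [form_point]
    exact hpX u v huv G hG hGh
  · intro hcon
    apply hpZ
    intro G hG hGh
    rw [← form_point]
    apply points_of_zero hXY hind _ huv1
    rw [form_field]
    exact hcon G hG hGh
  · intro f c
    by_contra hcon
    push Not at hcon
    have hpr : ∀ k l : Fin (N + 1), ∀ u v : ℂ, v ^ 2 = u ^ 3 + a * u + b →
        eval ![u, v] (p k) * c l = eval ![u, v] (p l) * c k := by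
      intro k l u v huv
      have h1 : aeval ![X, Y] (p k * MvPolynomial.C (c l) - p l * MvPolynomial.C (c k)) = 0 := by
        rw [map_sub, map_mul, map_mul, ← algebraMap_eq, AlgHom.commutes, AlgHom.commutes,
          hcon k, hcon l]
        ring
      have h2 := points_of_zero hXY hind h1 huv
      rw [map_sub, map_mul, map_mul, eval_C, eval_C, sub_eq_zero] at h2
      exact h2
    obtain ⟨l, hl⟩ : ∃ l, c l ≠ 0 := by
      by_contra hc0
      push Not at hc0
      apply hnc
      have h1 : ∀ i, eval ![u, v] (p i) = 0 := fun i => by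
        apply points_of_zero hXY hind _ huv
        rw [hcon i, hc0 i, map_zero, zero_mul]
      rw [h1 i, h1 j, zero_mul, zero_mul]
    apply hnc
    apply mul_left_cancel₀ (mul_ne_zero hl hl)
    linear_combination (eval ![u', v'] (p j) * c l) * hpr i l u v huv +
      (eval ![u, v] (p l) * c i) * hpr j l u' v' huv' -
      (eval ![u', v'] (p i) * c l) * hpr j l u v huv -
      (eval ![u, v] (p l) * c j) * hpr i l u' v' huv'

/-- The nonperiodic sequences on the curves of genus at most one. -/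
theorem exists_bad' {φ : R →+* ℂ} {I I' : Ideal (MvPolynomial (Fin (N + 1)) R)}
    (h : ¬ (RatCurvesIn φ I I' ∧ EllCurvesIn φ I I')) :
    ∃ B : Subalgebra ℂ (ℕ → ℂ), CoefField B ∧ FinGen B ∧ TrLe B 1 ∧ SeqBad φ I I' B := by
  rw [not_and_or] at h
  rcases h with h | h
  · exact ⟨RB, RB_field, ratB_fg _, ratB_tr _, bad_rat h⟩
  · exact ell_bad h

end Pool.Agent.TH143.GE
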