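import Pool.Agent.TH143.GE.Model

/-!
Sequences on curves of genus at most one.
-/

set_option autoImplicit false

namespace Pool.Agent.TH143.GE

open MvPolynomial Filter Pool.Agent.TH143.DE Pool.Agent.TH143.HE Pool.Agent.TH143.TW FF
open Module Pool.Agent.W603.LV IntermediateField

variable {N : ℕ} {R : Type} [CommRing R]

/-- A sequence of points of the variety of `I`, outside of the variety of `I'`, with homogeneous
coordinates in `B`, which is not eventually periodic. -/
def SeqBad (φ : R →+* ℂ) (I I' : Ideal (MvPolynomial (Fin (N + 1)) R))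
    (B : Subalgebra ℂ (ℕ → ℂ)) : Prop :=
  ∃ z : ℕ → Fin (N + 1) → ℂ, (∀ j, (fun m => z m j) ∈ B) ∧ (∀ᶠ m in atTop, z m ≠ 0) ∧
    (∀ᶠ m in atTop, IsPtP φ I (z m)) ∧ (∀ᶠ m in atTop, ¬ IsPtP φ I' (z m)) ∧ ¬ Per z

/-! ### rational curves -/

theorem ratB_fg {t : ℕ → ℂ} (ht : Function.Injective t) : FinGen (ratB t ht) := by
  have hmem : ∀ p : Polynomial ℂ, (Polynomial.aeval t p : ℕ → ℂ) ∈
      Algebra.adjoin ℂ ({t} : Set (ℕ → ℂ)) := fun p => Polynomial.aeval_mem_adjoin_singleton _ _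
  refine ⟨{t}, Set.finite_singleton t, ?_, ?_⟩
  · rw [Set.singleton_subset_iff]
    exact ⟨Polynomial.X, 1, one_ne_zero, Eventually.of_forall fun m => by
      rw [Polynomial.eval_X, Polynomial.eval_one, div_one]⟩
  · rintro b ⟨P, Q, hQ, hb⟩
    refine ⟨_, hmem P, _, hmem Q, ?_, ?_⟩
    · filter_upwards [ev_ne ht hQ] with m hm
      rw [aeval_seq]
      exact hm
    · filter_upwards [hb, ev_ne ht hQ] with m h1 h2
      rw [aeval_seq, aeval_seq, h1, div_mul_cancel₀ _ h2]

theorem poly_mem_RB (p : Polynomial ℂ) : (fun m : ℕ => p.eval (m : ℂ)) ∈ RB :=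
  ⟨p, 1, one_ne_zero, Eventually.of_forall fun m => by rw [Polynomial.eval_one, div_one]⟩

theorem bad_rat {φ : R →+* ℂ} {I I' : Ideal (MvPolynomial (Fin (N + 1)) R)}
    (h : ¬ RatCurvesIn φ I I') : SeqBad φ I I' RB := by
  rw [ratCurvesIn_iff] at h
  push Not at h
  obtain ⟨p, h1, ⟨G', hG', hGh, hne⟩, hnc⟩ := h
  obtain ⟨j0, k0, u0, v0, huv⟩ := (nc_iff p).1 hnc
  obtain ⟨k1, hk1⟩ : ∃ k, p k ≠ 0 := by
    by_contra hcon
    push Not at hcon
    apply huv
    rw [hcon j0, hcon k0]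
  have hz0 : ∀ᶠ m : ℕ in atTop, (fun j => (p j).eval (m : ℂ)) ≠ 0 := by
    filter_upwards [ev_ne Nat.cast_injective hk1] with m hm h0
    exact hm (congrFun h0 k1)
  refine ⟨fun m j => (p j).eval (m : ℂ), fun j => poly_mem_RB (p j), hz0, ?_, ?_, ?_⟩
  · refine Eventually.of_forall fun m G hG hGf => ?_
    rw [← eval₂_eval, h1 G hG hGf, Polynomial.eval_zero]
  · filter_upwards [ev_ne Nat.cast_injective hne] with m hm h0
    apply hm
    rw [eval₂_eval]
    exact h0 G' hG' hGh
  · rintro ⟨k, m0, hk, hper⟩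
    obtain ⟨m1, hm1⟩ := eventually_atTop.1 hz0
    set M := max m0 m1 with hM
    have hmul := per_mul (x := fun m j => (p j).eval (m : ℂ)) (k := k) (m0 := M)
      (fun m hm => hm1 m (le_trans (le_max_right _ _) hm))
      (fun m hm => hper m (le_trans (le_max_left _ _) hm))
    set v : Fin (N + 1) → ℂ := fun j => (p j).eval (M : ℂ) with hv
    have hv0 : v ≠ 0 := hm1 M (le_max_right _ _)
    have hprop : ∀ i j, p i * Polynomial.C (v j) = p j * Polynomial.C (v i) := by
      intro i j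
      rw [← sub_eq_zero]
      apply Polynomial.eq_zero_of_infinite_isRoot
      refine Set.Infinite.mono (s := Set.range fun r : ℕ => ((M + k * r : ℕ) : ℂ)) ?_ ?_
      · rintro _ ⟨r, rfl⟩
        have h2 := hmul r M le_rfl i j
        change Polynomial.eval _ _ = 0
        rw [Polynomial.eval_sub, Polynomial.eval_mul, Polynomial.eval_mul, Polynomial.eval_C,
          Polynomial.eval_C, sub_eq_zero]
        exact h2
      · apply Set.infinite_range_of_injective
        intro r r' hrr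
        have h2 := Nat.cast_injective hrr
        exact Nat.eq_of_mul_eq_mul_left hk (by omega)
    apply huv
    obtain ⟨l, hl⟩ := Function.ne_iff.1 hv0
    have hl' : v l ≠ 0 := hl
    have h2 : ∀ i u, (p i).eval u * v l = (p l).eval u * v i := by
      intro i u
      have h3 := congrArg (Polynomial.eval u) (hprop i l)
      simpa only [Polynomial.eval_mul, Polynomial.eval_C] using h3
    apply mul_left_cancel₀ (mul_ne_zero hl' hl')
    linear_combination ((p k0).eval v0 * v l) * h2 j0 u0 + ((p l).eval u0 * v j0) * h2 k0 v0 -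
      ((p j0).eval v0 * v l) * h2 k0 u0 - ((p l).eval u0 * v k0) * h2 j0 v0

/-! ### curves of genus one -/

theorem sh_pow {F : Type} [Field F] [Algebra ℂ F] {j : F →ₐ[ℂ] GG} {s : F →ₐ[ℂ] F}
    (hs : ∀ z, j (s z) = shG (j z)) (n : ℕ) (z : F) : j ((s ^ n) z) = (shG ^ n) (j z) := by
  induction n generalizing z with
  | zero => rfl
  | succ n ih =>
    rw [pow_succ, pow_succ, AlgHom.mul_apply, ih, hs, RingHom.mul_def, RingHom.comp_apply]

theorem bad_core {φ : R →+* ℂ} {I I' : Ideal (MvPolynomial (Fin (N + 1)) R)}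
    {F : Type} [Field F] [Algebra ℂ F] [IsFF ℂ F]
    (hmod : ∃ (j : F →ₐ[ℂ] GG) (s : F →ₐ[ℂ] F) (X : F) (x : ℕ → ℂ),
      (∀ z, j (s z) = shG (j z)) ∧ Function.Injective x ∧ j X = gg x ∧ FinGen (BS j.range))
    {w : Fin (N + 1) → F} (hw0 : w ≠ 0) (hX : IsPtP ((algebraMap ℂ F).comp φ) I w)
    (hZ : ¬ IsPtP ((algebraMap ℂ F).comp φ) I' w)
    (hc : ∀ (v : F) (c : Fin (N + 1) → ℂ), ∃ i, w i ≠ algebraMap ℂ F (c i) * v) :
    ∃ B : Subalgebra ℂ (ℕ → ℂ), CoefField B ∧ FinGen B ∧ TrLe B 1 ∧ SeqBad φ I I' B := by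
  obtain ⟨j, s, X, x, hs, hinj, hjX, hfg⟩ := hmod
  have hjinj : Function.Injective j := j.toRingHom.injective
  have hfld : IsFld j.range := by
    constructor
    · rintro _ ⟨z, rfl⟩
      exact ⟨s z, hs z⟩
    · rintro _ ⟨z, rfl⟩ hz
      have hz0 : z ≠ 0 := by
        rintro rfl
        exact hz (map_zero _)
      refine ⟨j z⁻¹, ⟨z⁻¹, rfl⟩, ?_⟩
      change j z * j z⁻¹ = 1
      rw [← map_mul, mul_inv_cancel₀ hz0, map_one]
  refine ⟨BS j.range, hfld.field, hfg, trLe_range j, ?_⟩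
  choose z hz using fun i => gg_surj (j (w i))
  have hY : ∀ i, j (w i) = gg fun m => (fun m i => z i m : ℕ → Fin (N + 1) → ℂ) m i := fun i =>
    (hz i).symm
  obtain ⟨i0, hi0⟩ : ∃ i0, w i0 ≠ 0 := by
    by_contra hcon
    push Not at hcon
    exact hw0 (funext hcon)
  refine ⟨fun m i => z i m, fun i => ⟨w i, hY i⟩, ?_, isPtP_ev hY hX, ?_, ?_⟩
  · have h1 : IsUnit (gg (z i0)) := by
      rw [hz]
      exact (isUnit_iff_ne_zero.2 hi0).map j
    filter_upwards [unit_ne h1] with m hm h2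
    exact hm (congrFun h2 i0)
  · unfold IsPtP at hZ
    push Not at hZ
    obtain ⟨G, hG, hGh, hG0⟩ := hZ
    have h1 : IsUnit (gg fun m => eval₂ φ (fun i => z i m) G) := by
      have h2 := j_eval₂ (φ := φ) hY G
      rw [← h2]
      exact (isUnit_iff_ne_zero.2 hG0).map j
    filter_upwards [unit_ne h1] with m hm h2
    exact hm (h2 G hG hGh)
  · rintro ⟨k, m0, hk, hper⟩
    have hrel : ∀ i l, (s ^ k) (w i) * w l = (s ^ k) (w l) * w i := by
      intro i l
      apply hjinj
      rw [map_mul, map_mul, sh_pow hs, sh_pow hs, ← hz i, ← hz l, shG_pow, shG_pow, ← map_mul,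
        ← map_mul, gg_eq]
      exact eventually_atTop.2 ⟨m0, fun m hm => hper m hm i l⟩
    obtain ⟨i, hi⟩ : ∃ i, ∀ c : ℂ, w i / w i0 ≠ algebraMap ℂ F c := by
      by_contra hcon
      push Not at hcon
      choose c hcc using hcon
      obtain ⟨i, hi⟩ := hc (w i0) c
      apply hi
      rw [← hcc i, div_mul_cancel₀ _ hi0]
    set g := w i / w i0 with hg
    have hgt : Transcendental ℂ g := by
      intro halg
      obtain ⟨c, hcc⟩ := minpoly.mem_range_of_degree_eq_one ℂ g
        (IsAlgClosed.degree_eq_one_of_irreducible ℂ (minpoly.irreducible halg.isIntegral))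
      exact hi c hcc.symm
    have hsg : (s ^ k) g = g := by
      have h1 : (s ^ k) (w i0) ≠ 0 := by
        rwa [Ne, map_eq_zero]
      rw [hg, map_div₀, div_eq_div_iff h1 hi0]
      exact (hrel i i0).trans (mul_comm _ _)
    have hfix : ∀ c ∈ ℂ⟮g⟯, (s ^ k) c = c := by
      intro c hc
      induction hc using IntermediateField.adjoin_induction with
      | mem y hy =>
        rw [Set.mem_singleton_iff.1 hy]
        exact hsg
      | algebraMap y => exact AlgHom.commutes _ y
      | add y y' _ _ h1 h2 => rw [map_add, h1, h2]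
      | inv y _ h1 => rw [map_inv₀, h1]
      | mul y y' _ _ h1 h2 => rw [map_mul, h1, h2]
    have hfin : FiniteDimensional ℂ⟮g⟯ F := IsFF.finite hgt
    let S : F →ₐ[ℂ⟮g⟯] F :=
      { ((s ^ k : F →ₐ[ℂ] F) : F →+* F) with commutes' := fun c => hfix c c.2 }
    have hS : ∀ n y, (S ^ n) y = ((s ^ k) ^ n) y := by
      intro n
      induction n with
      | zero => exact fun y => rfl
      | succ n ih =>
        intro y
        rw [pow_succ, pow_succ, AlgHom.mul_apply, AlgHom.mul_apply, ih]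
        rfl
    have hfinS : Finite (F →ₐ[ℂ⟮g⟯] F) := inferInstance
    obtain ⟨n, n', hnn, heq⟩ := Finite.exists_ne_map_eq_of_infinite fun n : ℕ => S ^ n
    have h1 : (S ^ n) X = (S ^ n') X := by rw [heq]
    rw [hS, hS, ← pow_mul, ← pow_mul] at h1
    have h2 := congrArg j h1
    rw [sh_pow hs, sh_pow hs, hjX, shG_pow, shG_pow, gg_eq] at h2
    obtain ⟨m, hm⟩ := h2.exists
    have h3 := hinj hm
    apply hnn
    exact Nat.eq_of_mul_eq_mul_left hk (by omega)

theorem bad_one {φ : R →+* ℂ} {I I' : Ideal (MvPolynomial (Fin (N + 1)) R)}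
    (h : ¬ GenusOneIn φ I I') : ∃ B : Subalgebra ℂ (ℕ → ℂ), CoefField B ∧ FinGen B ∧ TrLe B 1 ∧
      SeqBad φ I I' B := by
  unfold GenusOneIn at h
  push Not at h
  obtain ⟨F, _, _, _, h0, w, hw0, hX, hZ, hc⟩ := h
  exact bad_core (exists_model h0) hw0 hX hZ hc

/-- The nonperiodic sequences on the curves of genus at most one. -/
theorem exists_bad {φ : R →+* ℂ} {I I' : Ideal (MvPolynomial (Fin (N + 1)) R)}
    (h : ¬ (RatCurvesIn φ I I' ∧ GenusOneIn φ I I')) :
    ∃ B : Subalgebra ℂ (ℕ → ℂ), CoefField B ∧ FinGen B ∧ TrLe B 1 ∧ SeqBad φ I I' B := by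
  rw [not_and_or] at h
  rcases h with h | h
  · exact ⟨RB, RB_field, ratB_fg _, ratB_tr _, bad_rat h⟩
  · exact bad_one h

end Pool.Agent.TH143.GE
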