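import Pool.Agent.TH143.GE.Base

/-!
Towers of fields of coefficients over a field of transcendence degree one.
-/

set_option autoImplicit false

namespace Pool.Agent.TH143.GE

open MvPolynomial Filter Pool.Agent.TH143.DE Pool.Agent.TH143.HE Pool.Agent.TH143.TW FF
open Module

/-- The field `B` of coefficients is generated by finitely many sequences: each element of `B` is
(from some index on) a quotient of two polynomial expressions in finitely many elements of `B`. -/
def FinGen (B : Subalgebra ℂ (ℕ → ℂ)) : Prop :=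
  ∃ U : Set (ℕ → ℂ), U.Finite ∧ U ⊆ B ∧ ∀ b ∈ B, ∃ p ∈ Algebra.adjoin ℂ U,
    ∃ q ∈ Algebra.adjoin ℂ U, (∀ᶠ m in atTop, q m ≠ 0) ∧ ∀ᶠ m in atTop, b m * q m = p m

variable {B B' : Subalgebra ℂ (ℕ → ℂ)}

theorem cK_alg (hB : CoefField B) (c : ℂ) :
    (cK hB) (algebraMap ℂ B c) = algebraMap ℂ (KB B hB) c := rfl

/-- the class map, as a homomorphism of algebras -/
noncomputable def cA (hB : CoefField B) : B →ₐ[ℂ] KB B hB :=
  { cK hB with commutes' := fun c => rfl }

theorem cA_apply (hB : CoefField B) (b : B) : cA hB b = cK hB b := rfl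

theorem ess_of_finGen (hB : CoefField B) (h : FinGen B) :
    Algebra.EssFiniteType ℂ (KB B hB) := by
  classical
  obtain ⟨U, hU, hUB, hgen⟩ := h
  rw [Algebra.essFiniteType_iff]
  -- the classes of the generators
  have hUf : (((fun b : B => cK hB b)) '' {b : B | (b : ℕ → ℂ) ∈ U}).Finite := by
    refine Set.Finite.image _ ?_
    exact hU.preimage Subtype.val_injective.injOn
  have hlift : ∀ p ∈ Algebra.adjoin ℂ U, ∃ hp : p ∈ B,
      cK hB ⟨p, hp⟩ ∈ Algebra.adjoin ℂ (((fun b : B => cK hB b)) '' {b : B | (b : ℕ → ℂ) ∈ U}) := by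
    intro p hp
    induction hp using Algebra.adjoin_induction with
    | mem x hx => exact ⟨hUB hx, Algebra.subset_adjoin ⟨⟨x, hUB hx⟩, hx, rfl⟩⟩
    | algebraMap c => exact ⟨B.algebraMap_mem c, Subalgebra.algebraMap_mem _ c⟩
    | add x y _ _ hx hy =>
      obtain ⟨hx1, hx2⟩ := hx
      obtain ⟨hy1, hy2⟩ := hy
      refine ⟨B.add_mem hx1 hy1, ?_⟩
      have h1 : cK hB ⟨x + y, B.add_mem hx1 hy1⟩ = cK hB ⟨x, hx1⟩ + cK hB ⟨y, hy1⟩ := by
        rw [← map_add]
        rfl
      rw [h1]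
      exact Subalgebra.add_mem _ hx2 hy2
    | mul x y _ _ hx hy =>
      obtain ⟨hx1, hx2⟩ := hx
      obtain ⟨hy1, hy2⟩ := hy
      refine ⟨B.mul_mem hx1 hy1, ?_⟩
      have h1 : cK hB ⟨x * y, B.mul_mem hx1 hy1⟩ = cK hB ⟨x, hx1⟩ * cK hB ⟨y, hy1⟩ := by
        rw [← map_mul]
        rfl
      rw [h1]
      exact Subalgebra.mul_mem _ hx2 hy2
  refine ⟨hUf.toFinset, fun y => ?_⟩
  rw [Set.Finite.coe_toFinset]
  obtain ⟨b, rfl⟩ := cK_surj hB y
  obtain ⟨p, hp, q, hq, hq0, hpq⟩ := hgen b b.2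
  obtain ⟨hp1, hp2⟩ := hlift p hp
  obtain ⟨hq1, hq2⟩ := hlift q hq
  refine ⟨_, hq2, isUnit_iff_ne_zero.2 ?_, ?_⟩
  · intro h0
    obtain ⟨m, h1, h2⟩ := (hq0.and ((cK_zero hB).1 h0)).exists
    exact h1 h2
  · have h1 : cK hB b * cK hB ⟨q, hq1⟩ = cK hB ⟨p, hp1⟩ := by
      apply jK_inj hB
      rw [map_mul, jK_cK, jK_cK, jK_cK, ← map_mul, gg_eq]
      exact hpq
    rw [h1]
    exact hp2

theorem trdeg_of_trLe (hB : CoefField B) (h : TrLe B 1) : Algebra.trdeg ℂ (KB B hB) ≤ 1 := by
  classical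
  obtain ⟨s, hs⟩ := exists_isTranscendenceBasis ℂ (KB B hB)
  rw [← hs.cardinalMk_eq_trdeg, Cardinal.mk_le_one_iff_set_subsingleton]
  intro a ha a' ha'
  by_contra hne
  obtain ⟨b, hb⟩ := cK_surj hB a
  obtain ⟨b', hb'⟩ := cK_surj hB a'
  let f : Fin (1 + 1) → s := ![⟨a, ha⟩, ⟨a', ha'⟩]
  have hf : Function.Injective f := by
    intro i j hij
    fin_cases i <;> fin_cases j
    · rfl
    · exact absurd (congrArg Subtype.val hij) hne
    · exact absurd (congrArg Subtype.val hij).symm hne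
    · rfl
  have hai := hs.1.comp f hf
  let β : Fin (1 + 1) → B := ![b, b']
  obtain ⟨P, hP, hP0⟩ := h (fun i => (β i : ℕ → ℂ)) (fun i => (β i).2)
  apply hP
  rw [algebraicIndependent_iff] at hai
  apply hai
  have h1 : ((Subtype.val : s → KB B hB) ∘ f) = fun i => cA hB (β i) := by
    funext i
    fin_cases i
    · exact hb.symm
    · exact hb'.symm
  have h2 : (fun i => (Subtype.val (f i) : KB B hB)) = fun i => cA hB (β i) := h1
  rw [show (aeval ((Subtype.val : s → KB B hB) ∘ f) : MvPolynomial (Fin (1 + 1)) ℂ →ₐ[ℂ] KB B hB) P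
    = aeval (fun i => cA hB (β i)) P from by rw [h1]]
  have h3 : aeval (fun i => cA hB (β i)) P = cA hB (aeval β P) := by
    rw [← comp_aeval]
    rfl
  rw [h3]
  refine (cK_zero hB).2 ?_
  filter_upwards [hP0] with m hm
  have h4 : ((aeval β P : B) : ℕ → ℂ) m = eval (fun i => (β i : ℕ → ℂ) m) P := by
    have h5 : (evm B m) (aeval β P) = aeval (fun i => evm B m (β i)) P := by
      rw [← comp_aeval]
      rfl
    rw [evm_apply] at h5
    rw [h5]
    simp only [evm_apply]
    rfl
  rw [h4]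
  exact hm

variable {N : ℕ} {R : Type} [CommRing R]

/-- The towers of fields of coefficients: one starts with a finitely generated field of
transcendence degree at most one; in each step one goes to a field of coefficients which is
generated by finitely many sequences satisfying linear recurrences over the previous field. -/
inductive Tow1 : Subalgebra ℂ (ℕ → ℂ) → Prop
  | base {B : Subalgebra ℂ (ℕ → ℂ)} : CoefField B → FinGen B → TrLe B 1 → Tow1 B
  | step {B B' : Subalgebra ℂ (ℕ → ℂ)} : Tow1 B → CoefField B' → Step B B' → Tow1 B'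

theorem Tow1.field (h : Tow1 B) : CoefField B := by
  cases h with
  | base h1 _ _ => exact h1
  | step _ h2 _ => exact h2

/-- **The theorem for towers.** -/
theorem tow1_good {φ : R →+* ℂ} {I I' : Ideal (MvPolynomial (Fin (N + 1)) R)}
    (h : RatCurvesIn φ I I') (hE : GenusOneIn φ I I') (hB : Tow1 B) : Good φ I I' B := by
  induction hB with
  | base h1 h2 h3 => exact good_one h hE h1 (ess_of_finGen h1 h2) (trdeg_of_trLe h1 h3)
  | step h1 h2 h3 ih => exact good_step h h1.field h2 h3 ih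

end Pool.Agent.TH143.GE
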