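import Pool.Agent.TH143.GE.Form
import Pool.Agent.W619.PQ.Curve

/-!
Function fields of canonical degree zero: functions with one pole.
-/

set_option autoImplicit false
set_option linter.overlappingInstances false
set_option linter.unusedSectionVars false

namespace Pool.Agent.TH143.GE

open FF Pool.Agent.W603.LV Module Pool.Agent.W619.PQ IntermediateField

section

variable {k F : Type} [Field k] [Field F] [Algebra k F] [CharZero k] [IsFF k F] [IsAlgClosed k]

theorem const_of_ord {f : F} (h : ∀ P : Place k F, 0 ≤ P.ord f) :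
    ∃ c : k, f = algebraMap k F c := by
  by_cases hf : IsAlgebraic k f
  · obtain ⟨c, hc⟩ := minpoly.mem_range_of_degree_eq_one k f
      (IsAlgClosed.degree_eq_one_of_irreducible k (minpoly.irreducible hf.isIntegral))
    exact ⟨c, hc.symm⟩
  · exfalso
    obtain ⟨S, hS, hS2⟩ := poles (k := k) (K := F) hf
    have hfin := IsFF.finite (k := k) (K := F) hf
    have hpos : 0 < Module.finrank k⟮f⟯ F := Module.finrank_pos
    have hS0 : S = ∅ := by
      rw [Finset.eq_empty_iff_forall_notMem]
      intro w hw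
      have h1 := (hS w).1 hw
      have h2 := h w
      omega
    rw [hS0, Finset.sum_empty] at hS2
    omega

/-- in canonical degree zero a regular differential has no zeros -/
theorem ord_eq_vo (h0 : canDeg k F = 0) {D : Derivation k F F} (hD : D ≠ 0) {f : F}
    (hf : ∀ P : Place k F, vo P D ≤ P.ord f) (P : Place k F) : P.ord f = vo P D := by
  classical
  set T : Finset (Place k F) := insert P ((finite_support (k := k) f).toFinset ∪
    (vo_finite hD).toFinset)
  have hs1 : ∑ q ∈ T, q.ord f = 0 := sum_ord_finset f T fun q hq =>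
    Finset.mem_insert_of_mem (Finset.mem_union_left _
      ((finite_support (k := k) f).mem_toFinset.2 hq))
  have hs2 : ∑ q ∈ T, vo q D = - canDeg k F := canDeg_finset hD T fun q hq =>
    Finset.mem_insert_of_mem (Finset.mem_union_right _ ((vo_finite hD).mem_toFinset.2 hq))
  rw [h0, neg_zero] at hs2
  have h1 := (Finset.sum_eq_sum_iff_of_le (s := T) (f := fun q => vo q D)
    (g := fun q => q.ord f) fun q _ => hf q).1 (hs2.trans hs1.symm) P (Finset.mem_insert_self _ _)
  exact h1.symm

theorem reg_unique (h0 : canDeg k F = 0) {D : Derivation k F F} (hD : D ≠ 0) {f g : F}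
    (hf0 : f ≠ 0) (hg0 : g ≠ 0)
    (hf : ∀ P : Place k F, vo P D ≤ P.ord f) (hg : ∀ P : Place k F, vo P D ≤ P.ord g) :
    ∃ c : k, f = algebraMap k F c * g := by
  obtain ⟨c, hc⟩ := const_of_ord (k := k) (F := F) (f := f * g⁻¹) fun P => by
    rw [P.ord_mul hf0 (inv_ne_zero hg0), P.ord_inv, ord_eq_vo h0 hD hf, ord_eq_vo h0 hD hg]
    omega
  refine ⟨c, ?_⟩
  rw [← hc, inv_mul_cancel_right₀ hg0]

theorem iota_const {x : F} (hx : Transcendental k x) (c : k) :
    iota hx (algebraMap k k⟮x⟯ c) = HahnSeries.C c := by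
  have h1 : algebraMap k k⟮x⟯ c = px x (Polynomial.C c) := by
    rw [← Polynomial.algebraMap_eq, AlgHom.commutes]
  rw [h1, iota_px, eU_C]

/-- the functionals which vanish on the sum of the two rings are proportional -/
theorem lam_prop (h0 : canDeg k F = 0) {x : F} (hx : Transcendental k x) {lam mu : F →ₗ[k] k}
    (hlB : ∀ y ∈ BB (k := k) x, lam y = 0) (hlI : ∀ y ∈ BI (k := k) x, lam y = 0)
    (hmB : ∀ y ∈ BB (k := k) x, mu y = 0) (hmI : ∀ y ∈ BI (k := k) x, mu y = 0)
    (hmu : mu ≠ 0) : ∃ c : k, ∀ y, lam y = c * mu y := by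
  by_cases hlam : lam = 0
  · exact ⟨0, fun y => by rw [hlam, zero_mul]; rfl⟩
  have hD : der k F ≠ 0 := der_ne
  have hDx := der_ne_zero hD hx
  set D := ((der k F) x)⁻¹ • der k F with hDdef
  have hDx1 : D x = 1 := by simp [hDdef, hDx]
  have hD0 : D ≠ 0 := by
    intro h
    rw [h] at hDx1
    exact zero_ne_one hDx1
  obtain ⟨f, hf0, hf⟩ := exists_mult lam hlI hx hlB hlam
  obtain ⟨g, hg0, hg⟩ := exists_mult mu hmI hx hmB hmu
  have hfr := mult_regular hx D hDx1 lam hlI hlB hf0 hf
  have hgr := mult_regular hx D hDx1 mu hmI hmB hg0 hg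
  obtain ⟨c, hc⟩ := reg_unique h0 hD0 hf0 hg0 hfr hgr
  refine ⟨c, fun y => ?_⟩
  have h1 := hf y
  have h2 := hg y
  have h3 : Algebra.trace k⟮x⟯ F (f * y) =
      algebraMap k k⟮x⟯ c * Algebra.trace k⟮x⟯ F (g * y) := by
    have h4 : f * y = ((algebraMap k k⟮x⟯ c : k⟮x⟯) : F) * (g * y) := by
      rw [hc]
      change algebraMap k F c * g * y = algebraMap k F c * (g * y)
      ring
    rw [h4, trace_mul_left]
  rw [h3, map_mul, iota_const, h2] at h1
  have h5 := congrArg (fun z => HahnSeries.coeff z 1) h1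
  simp only [HahnSeries.C_mul_eq_smul, HahnSeries.coeff_smul, SS_coeff] at h5
  rw [sub_self, zpow_zero, one_mul, smul_eq_mul] at h5
  exact h5.symm

/-- the principal parts -/
theorem lift_part {x : F} {S : Finset (Place k F)}
    (hS : ∀ w, w ∈ S ↔ w.ord x < 0) {P : Place k F} (hP : P ∈ S) {v : F}
    (hv : v ∈ BB (k := k) x ⊔ BI (k := k) x) (hvS : ∀ Q ∈ S, Q ≠ P → Ge Q 0 v) :
    ∃ b : F, Ge P 0 (b - v) ∧ ∀ Q : Place k F, Q ≠ P → Ge Q 0 b := by
  classical
  obtain ⟨b, hb, c, hc, hbc⟩ := Submodule.mem_sup.1 hv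
  refine ⟨b, ?_, fun Q hQ => ?_⟩
  · have e : b - v = -c := by rw [← hbc]; ring
    rw [e]
    exact (hc P ((hS P).1 hP)).neg
  · rcases lt_or_ge (Q.ord x) 0 with hQx | hQx
    · have e : b = v - c := by rw [← hbc]; ring
      rw [e]
      exact (hvS Q ((hS Q).2 hQx) hQ).sub (hc Q hQx)
    · exact hb Q hQx

/-- a function with one simple pole -/
theorem rational_of_simple {P : Place k F} {b : F} (h1 : P.ord b = -1)
    (h2 : ∀ Q : Place k F, Q ≠ P → 0 ≤ Q.ord b) : ∃ t : F, k⟮t⟯ = ⊤ := by
  classical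
  have hbt : Transcendental k b := P.transcendental_of_ord_ne (by omega)
  obtain ⟨T, hT, hT2⟩ := poles (k := k) (K := F) hbt
  have hTP : T = {P} := by
    ext Q
    rw [hT, Finset.mem_singleton]
    constructor
    · intro h
      by_contra hne
      have := h2 Q hne
      omega
    · rintro rfl
      omega
  rw [hTP, Finset.sum_singleton, h1, deg_one] at hT2
  refine ⟨b, ?_⟩
  rw [← IntermediateField.finrank_eq_one_iff_eq_top, ← hT2]
  rfl

theorem not_rational (h0 : canDeg k F = 0) : ¬ ∃ t : F, k⟮t⟯ = ⊤ := by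
  rintro ⟨t, ht⟩
  have h1 := canDeg_rational ht
  omega

theorem ord_of_sub {P : Place k F} {b v : F} {n : ℤ} (hv : v ≠ 0) (hvn : P.ord v = -n)
    (h : Ge P (1 - n) (b - v)) : b ≠ 0 ∧ P.ord b = -n := by
  by_cases h3 : b - v = 0
  · rw [sub_eq_zero.1 h3]
    exact ⟨hv, hvn⟩
  · have h4 := h.resolve_left h3
    have h5 := P.ord_add_eq (f := v) (g := b - v) hv h3 (by omega)
    rw [add_sub_cancel, hvn] at h5
    exact h5

/-- **One pole.** In canonical degree zero there are functions with a pole of any given order at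
least two at a given place, and no other poles. -/
theorem exists_one_pole (h0 : canDeg k F = 0) (P : Place k F) {n : ℕ} (hn : 2 ≤ n) :
    ∃ b : F, b ≠ 0 ∧ P.ord b = -n ∧ ∀ Q : Place k F, Q ≠ P → 0 ≤ Q.ord b := by
  classical
  obtain ⟨π, hπ0, hπ⟩ := P.surj
  set x := π⁻¹ with hx
  have hx0 : x ≠ 0 := inv_ne_zero hπ0
  have hxP : P.ord x = -1 := by rw [hx, P.ord_inv, hπ]
  have hxt : Transcendental k x := P.transcendental_of_ord_ne (by omega)
  obtain ⟨S, hS, -⟩ := poles (k := k) (K := F) hxt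
  have hP : P ∈ S := (hS P).2 (by omega)
  obtain ⟨u, hu1, hu2⟩ := approx_one (S.erase P) P (by simp) x 0
  obtain ⟨w, hw1, hw2⟩ := approx_one (S.erase P) P (by simp) (x ^ n) 0
  have hunot : u ∉ BB (k := k) x ⊔ BI (k := k) x := by
    intro hu
    obtain ⟨b, hb1, hb2⟩ := lift_part hS hP hu fun Q hQ hne => hu2 Q (Finset.mem_erase.2 ⟨hne, hQ⟩)
    have h1 := ord_of_sub (P := P) (b := b) (v := x) (n := 1) hx0 hxP (by
      have h2 := hb1.add hu1
      have h3 : b - u + (u - x) = b - x := by ring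
      rw [h3] at h2
      exact h2.mono (by omega))
    exact not_rational h0 (rational_of_simple h1.2 fun Q hQ => (hb2 Q hQ).resolve_left h1.1)
  obtain ⟨mu, hmu1, hmu2⟩ := Submodule.exists_le_ker_of_notMem hunot
  have hmB : ∀ y ∈ BB (k := k) x, mu y = 0 := fun y hy => hmu2 (Submodule.mem_sup_left hy)
  have hmI : ∀ y ∈ BI (k := k) x, mu y = 0 := fun y hy => hmu2 (Submodule.mem_sup_right hy)
  have hmne : mu ≠ 0 := by
    rintro rfl
    exact hmu1 rfl
  set α : k := mu w / mu u with hα
  set v : F := w - algebraMap k F α * u with hv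
  have hmv : mu v = 0 := by
    rw [hv, map_sub, ← Algebra.smul_def, map_smul, smul_eq_mul, hα, div_mul_cancel₀ _ hmu1,
      sub_self]
  have hvmem : v ∈ BB (k := k) x ⊔ BI (k := k) x := by
    by_contra hcon
    obtain ⟨lam, hl1, hl2⟩ := Submodule.exists_le_ker_of_notMem hcon
    obtain ⟨c, hc⟩ := lam_prop h0 hxt (lam := lam) (mu := mu)
      (fun y hy => hl2 (Submodule.mem_sup_left hy)) (fun y hy => hl2 (Submodule.mem_sup_right hy))
      hmB hmI hmne
    apply hl1
    rw [hc, hmv, mul_zero]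
  have hvS : ∀ Q ∈ S.erase P, Ge Q 0 v := by
    intro Q hQ
    have h1 := (Ge.const (P := Q) α).mul (hu2 Q hQ)
    rw [zero_add] at h1
    exact (hw2 Q hQ).sub h1
  obtain ⟨b, hb1, hb2⟩ := lift_part hS hP hvmem fun Q hQ hne =>
    hvS Q (Finset.mem_erase.2 ⟨hne, hQ⟩)
  have h1 := ord_of_sub (P := P) (b := b) (v := x ^ n) (n := n) (pow_ne_zero _ hx0)
    (by rw [P.ord_pow, hxP]; ring) (by
      have h2 : Ge P (-1) (b - v) := hb1.mono (by omega)
      have h3 : Ge P (-1) (w - x ^ n) := hw1.mono (by omega)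
      have h4 : Ge P (-1) (algebraMap k F α * u) := by
        have h5 : Ge P (-1) u := by
          have h6 : Ge P (-1) (u - x) := hu1.mono (by omega)
          have h7 : Ge P (-1) x := Or.inr (by omega)
          have h8 := h6.add h7
          rwa [sub_add_cancel] at h8
        have h9 := (Ge.const (P := P) α).mul h5
        rwa [zero_add] at h9
      have h5 : b - x ^ n = (b - v) + (w - x ^ n) - algebraMap k F α * u := by
        rw [hv]
        ring
      rw [h5]
      exact ((h2.add h3).sub h4).mono (by omega))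
  exact ⟨b, h1.1, h1.2, fun Q hQ => (hb2 Q hQ).resolve_left h1.1⟩

end

end Pool.Agent.TH143.GE
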