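import Pool.Agent.TH143.GE.Split

/-!
Sequences satisfying linear recurrences over fields of transcendence degree one.
-/

set_option autoImplicit false

namespace Pool.Agent.TH143.GE

open MvPolynomial Filter Pool.Agent.TH143.DE Pool.Agent.TH143.HE Pool.Agent.TH143.TW FF
open Module

variable {N : ℕ}

theorem prop_trans {u v w : Fin (N + 1) → ℂ} (hv : v ≠ 0) (h1 : ∀ i j, u i * v j = u j * v i)
    (h2 : ∀ i j, v i * w j = v j * w i) : ∀ i j, u i * w j = u j * w i := by
  intro i j
  obtain ⟨l, hl⟩ : ∃ l, v l ≠ 0 := by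
    by_contra hcon
    push Not at hcon
    exact hv (funext hcon)
  apply mul_left_cancel₀ (mul_ne_zero hl hl)
  linear_combination (v l * w j) * h1 i l + (u l * v i) * h2 l j - (v l * w i) * h1 j l -
    (u l * v j) * h2 l i

theorem per_mul {x : ℕ → Fin (N + 1) → ℂ} {k m0 : ℕ} (hne : ∀ m, m0 ≤ m → x m ≠ 0)
    (h : ∀ m, m0 ≤ m → ∀ i j, x (m + k) i * x m j = x (m + k) j * x m i) (r : ℕ) :
    ∀ m, m0 ≤ m → ∀ i j, x (m + k * r) i * x m j = x (m + k * r) j * x m i := by
  induction r with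
  | zero =>
    intro m _ i j
    rw [Nat.mul_zero, Nat.add_zero]
    ring
  | succ r ih =>
    intro m hm
    have h1 := h (m + k * r) (by omega)
    have h2 : m + k * (r + 1) = m + k * r + k := by ring
    rw [h2]
    exact prop_trans (hne (m + k * r) (by omega)) h1 (ih m hm)

/-- periodicity on arithmetic progressions -/
theorem per_of_classes {x : ℕ → Fin (N + 1) → ℂ} (hne : ∀ᶠ m in atTop, x m ≠ 0) {M : ℕ}
    (hM : 0 < M) (h : ∀ a, Per fun m => x (a + M * m)) : Per x := by
  classical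
  choose k m1 hk hp using h
  obtain ⟨m2, hm2⟩ := eventually_atTop.1 hne
  set K := ∏ a ∈ Finset.range M, k a with hK
  have hKpos : 0 < K := Finset.prod_pos fun a _ => hk a
  set L := m2 + ∑ a ∈ Finset.range M, m1 a with hL
  refine ⟨M * K, M * (L + 1), Nat.mul_pos hM hKpos, fun n hn i j => ?_⟩
  set a := n % M with ha
  have haM : a < M := Nat.mod_lt _ hM
  set m := n / M with hm
  have hnm : a + M * m = n := Nat.mod_add_div n M
  have hmL : L ≤ m := by
    have h1 : L + 1 ≤ n / M := (Nat.le_div_iff_mul_le hM).2 (by rw [Nat.mul_comm]; exact hn)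
    omega
  have hm1 : m1 a ≤ m := by
    have h1 : m1 a ≤ ∑ a ∈ Finset.range M, m1 a :=
      Finset.single_le_sum (f := m1) (fun _ _ => Nat.zero_le _) (Finset.mem_range.2 haM)
    omega
  obtain ⟨r, hr⟩ : k a ∣ K := Finset.dvd_prod_of_mem k (Finset.mem_range.2 haM)
  have h1 := per_mul (x := fun m => x (a + M * m)) (k := k a) (m0 := max (m1 a) m2)
    (fun m hm => hm2 _ (by
      have h1 : 1 * m ≤ M * m := Nat.mul_le_mul_right m hM
      have h2 := le_max_right (m1 a) m2
      omega))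
    (fun m hm => hp a m (le_trans (le_max_left _ _) hm)) r m (max_le hm1 (by omega)) i j
  have h2 : a + M * (m + k a * r) = n + M * K := by
    rw [← hnm, hr]
    ring
  simp only [h2, hnm] at h1
  exact h1

section

variable {k : Type} [Field k] [Algebra ℂ k] [Algebra k GG] [IsScalarTower ℂ k GG]
  {S : Subalgebra k GG} {R : Type} [CommRing R]

/-- sequences over a finite difference algebra -/
theorem per_split {φ : R →+* ℂ} {I I' : Ideal (MvPolynomial (Fin (N + 1)) R)}
    (h : RatCurvesIn φ I I') (hE : GenusOneIn φ I I') (hess : Algebra.EssFiniteType ℂ k)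
    (htd : Algebra.trdeg ℂ k ≤ 1) (hst : ∀ x ∈ S, shG x ∈ S) (hfin : Module.Finite k S)
    {x : ℕ → Fin (N + 1) → ℂ} (hY : ∀ i, (gg fun m => x m i) ∈ S)
    (hne : ∀ᶠ m in atTop, x m ≠ 0)
    (hX : ∀ᶠ m in atTop, IsPtP φ I (x m))
    (hZ : ∀ᶠ m in atTop, ¬ IsPtP φ I' (x m)) : Per x := by
  obtain ⟨M, hM, hp⟩ := exists_period hst hfin
  refine per_of_classes hne hM fun a => ?_
  have hfld := Sa_fld hst hfin hM hp a
  obtain ⟨h1, h2⟩ := Sa_fg hfin hM a hfld hess htd
  exact per_sub h hE hfld h1 h2 (x := fun m => x (a + M * m))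
    (fun i => ⟨_, hY i, rfl⟩) (ev_res hne hM) (ev_res hX hM) (ev_res hZ hM)

end

/-- a common finite difference algebra -/
theorem exists_common {B : Subalgebra ℂ (ℕ → ℂ)} (hB : CoefField B) {n : ℕ} {f r : Fin n → GG}
    {g : GG} (hf : ∀ j, LF (KB B hB) (f j)) (hg : LF (KB B hB) g)
    (hgu : IsUnit g) (hr : ∀ j, g * r j = f j) (hint : ∀ j, IsIntegral (KB B hB) (r j)) :
    ∃ S : Subalgebra (KB B hB) GG, (∀ j, r j ∈ S) ∧ (∀ x ∈ S, shG x ∈ S) ∧
      Module.Finite (KB B hB) S := by
  classical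
  choose S hrS hst hfin using fun j =>
    exists_S' (shK hB) (shG_alg hB) (hf j) hg hgu (hr j) (hint j)
  have key : ∀ s : Finset (Fin n), ∃ T : Subalgebra (KB B hB) GG, (∀ j ∈ s, S j ≤ T) ∧
      (∀ x ∈ T, shG x ∈ T) ∧ Module.Finite (KB B hB) T := by
    intro s
    induction s using Finset.induction_on with
    | empty =>
      refine ⟨⊥, fun j hj => absurd hj (Finset.notMem_empty j), ?_, inferInstance⟩
      intro x hx
      obtain ⟨c, rfl⟩ := Algebra.mem_bot.1 hx
      rw [shG_alg]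
      exact Subalgebra.algebraMap_mem _ _
    | insert a s ha ih =>
      obtain ⟨T, hT1, hT2, hT3⟩ := ih
      have hfa := hfin a
      refine ⟨S a ⊔ T, ?_, ?_, Subalgebra.finite_sup _ _⟩
      · intro j hj
        rcases Finset.mem_insert.1 hj with rfl | hj
        · exact le_sup_left
        · exact (hT1 j hj).trans le_sup_right
      · have h1 : S a ⊔ T = Algebra.adjoin (KB B hB) ((S a : Set GG) ∪ (T : Set GG)) := by
          rw [Algebra.adjoin_union, Algebra.adjoin_eq, Algebra.adjoin_eq]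
        rw [h1]
        refine adjoin_stable' (shK hB) (shG_alg hB) ?_
        rintro y (hy | hy)
        · exact Algebra.subset_adjoin (Or.inl (hst a y hy))
        · exact Algebra.subset_adjoin (Or.inr (hT2 y hy))
  obtain ⟨T, h1, h2, h3⟩ := key Finset.univ
  exact ⟨T, fun j => h1 j (Finset.mem_univ j) (hrS j), h2, h3⟩

variable {R : Type} [CommRing R] {B : Subalgebra ℂ (ℕ → ℂ)}

/-- **The theorem over a field of transcendence degree one.** -/
theorem good_one {φ : R →+* ℂ} {I I' : Ideal (MvPolynomial (Fin (N + 1)) R)}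
    (h : RatCurvesIn φ I I') (hE : GenusOneIn φ I I') (hB : CoefField B)
    (hess : Algebra.EssFiniteType ℂ (KB B hB)) (htd : Algebra.trdeg ℂ (KB B hB) ≤ 1) :
    Good φ I I' B := by
  classical
  intro x hne hx hX hZ
  -- a linear form
  obtain ⟨c, hc⟩ := exists_linear (fun m => if x m = 0 then fun _ => 1 else x m) (by
    intro m
    by_cases h0 : x m = 0
    · simp only [if_pos h0]
      intro h1
      exact one_ne_zero (congrFun h1 0)
    · simp only [if_neg h0]
      exact h0)
  let ℓ : MvPolynomial (Fin (N + 1)) ℂ := ∑ j : Fin (N + 1), C (c ^ (j : ℕ)) * X j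
  have hℓ : ℓ.IsHomogeneous 1 := by
    refine IsHomogeneous.sum _ _ _ fun j _ => ?_
    have h2 := (isHomogeneous_C (Fin (N + 1)) (c ^ (j : ℕ))).mul (isHomogeneous_X ℂ j)
    rwa [zero_add] at h2
  have hℓe : ∀ v : Fin (N + 1) → ℂ, eval v ℓ = ∑ j : Fin (N + 1), c ^ (j : ℕ) * v j := by
    intro v
    simp only [ℓ, map_sum, map_mul, eval_C, eval_X]
  have hℓx : ∀ᶠ m in atTop, eval (x m) ℓ ≠ 0 := by
    filter_upwards [hne] with m hm
    have h1 := hc m
    simp only [if_neg hm] at h1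
    rw [hℓe]
    exact h1
  let s : Set (MvPolynomial (Fin (N + 1)) ℂ) :=
    {G | ∃ G0 ∈ I, (∃ d, G0.IsHomogeneous d) ∧ G = MvPolynomial.map φ G0}
  obtain ⟨t, ht⟩ := exists_rc hB hx hℓ hℓx (s := s)
    (by
      rintro _ ⟨G0, _, ⟨d, hd⟩, rfl⟩
      exact ⟨d, hd.map φ⟩)
    (by
      rintro _ ⟨G0, hG0, hd, rfl⟩
      filter_upwards [hX] with m hm
      rw [eval_map]
      exact hm G0 hG0 hd)
  let y : Fin (N + 1) → ℕ → ℂ := fun j m => x (m + t) j / eval (x (m + t)) ℓ
  have hℓt := eventually_shift hℓx t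
  have hint : ∀ j, IsIntegral (KB B hB) (gg (y j)) := by
    intro j
    refine int_of_cf hB fun J hJ hJp => ?_
    have hdom : IsDomain ((ℕ → ℂ) ⧸ J) := Ideal.Quotient.isDomain J
    apply rel_of_cf hB hJ hJp (FractionRing ((ℕ → ℂ) ⧸ J))
    by_contra hcon
    obtain ⟨m, ⟨p, h1, h2, h3⟩, h6⟩ :=
      ((ht J hJ hJp (FractionRing ((ℕ → ℂ) ⧸ J)) j hcon).and_eventually
        (eventually_shift hZ t)).exists
    apply h6
    rw [← h2]
    refine h p (fun u G hG hGf => ?_) h3 1
    have h4 := h1 _ ⟨G, hG, hGf, rfl⟩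
    have h5 := congrArg (Polynomial.eval u) h4
    rw [Polynomial.eval_zero, eval_aeval, eval_map] at h5
    exact h5
  have hf : ∀ j, LF (KB B hB) (gg fun m => x (m + t) j) := fun j =>
    LF_of_linRec hB (LinRec.shift hB (hx j) t)
  have hg : LF (KB B hB) (gg fun m => eval (x (m + t)) ℓ) := by
    have h1 : gg (fun m => eval (x (m + t)) ℓ) = ∑ j : Fin (N + 1),
        algebraMap (KB B hB) GG (cK hB ⟨_, B.algebraMap_mem (c ^ (j : ℕ))⟩) *
          gg fun m => x (m + t) j := by
      simp only [alg_cK, ← map_mul]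
      rw [← map_sum]
      congr 1
      funext m
      rw [hℓe, Finset.sum_apply]
      rfl
    rw [h1]
    exact LF.sum (shK hB) (shG_alg hB) _ fun j _ =>
      (LF.alg (shK hB) (shG_alg hB) _).mul (hf j)
  obtain ⟨S, hyS, hst, hfin⟩ := exists_common hB (f := fun j => gg fun m => x (m + t) j)
    (r := fun j => gg (y j)) (g := gg fun m => eval (x (m + t)) ℓ) hf hg (ne_unit hℓt)
    (fun j => by
      rw [← map_mul, gg_eq]
      filter_upwards [hℓt] with m hm
      rw [Pi.mul_apply]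
      exact mul_div_cancel₀ _ hm) hint
  have hb : ∀ᶠ m in atTop, (eval (x (m + t)) ℓ)⁻¹ ≠ 0 := by
    filter_upwards [hℓt] with m h2
    exact inv_ne_zero h2
  refine Per.shift (t := t) (Per.scale (b := fun m => (eval (x (m + t)) ℓ)⁻¹) hb
    (per_split h hE hess htd hst hfin (fun i => ?_) ?_ ?_ ?_))
  · have h1 : (fun m => (eval (x (m + t)) ℓ)⁻¹ * x (m + t) i) = y i := by
      funext m
      change _ = x (m + t) i / eval (x (m + t)) ℓ
      rw [div_eq_mul_inv, mul_comm]
    rw [h1]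
    exact hyS i
  · filter_upwards [hb, eventually_shift hne t] with m h1 h2 h3
    apply h2
    funext j
    have h4 := congrFun h3 j
    exact (mul_eq_zero.1 h4).resolve_left h1
  · filter_upwards [eventually_shift hX t] with m h1
    rintro G hG ⟨d, hd⟩
    rw [eval₂_smul_homog φ _ (x (m + t)) hd, h1 G hG ⟨d, hd⟩, mul_zero]
  · filter_upwards [hb, eventually_shift hZ t] with m h1 h2 h3
    apply h2
    rintro G hG ⟨d, hd⟩
    have h4 := h3 G hG ⟨d, hd⟩
    rw [eval₂_smul_homog φ _ (x (m + t)) hd] at h4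
    exact (mul_eq_zero.1 h4).resolve_left (pow_ne_zero _ h1)

end Pool.Agent.TH143.GE
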