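import Pool.Agent.TH143.GE.Iff

/-!
Curves of genus one in terms of equations of Weierstrass.
-/

set_option autoImplicit false

namespace Pool.Agent.TH143.GE

open MvPolynomial Filter Pool.Agent.TH143.DE Pool.Agent.TH143.HE Pool.Agent.TH143.TW FF
open Module Pool.Agent.W603.LV IntermediateField

variable {N : ℕ} {R : Type} [CommRing R]

/-- All nonconstant maps from elliptic curves to the variety of `I` have their image in the variety
of `I'`: the maps are given by polynomials in the coordinates `u`, `v` of the elliptic curve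
`v ^ 2 = u ^ 3 + a * u + b`. -/
def EllCurvesIn (φ : R →+* ℂ) (I I' : Ideal (MvPolynomial (Fin (N + 1)) R)) : Prop :=
  ∀ a b : ℂ, 4 * a ^ 3 + 27 * b ^ 2 ≠ 0 → ∀ p : Fin (N + 1) → MvPolynomial (Fin 2) ℂ,
    (∀ u v : ℂ, v ^ 2 = u ^ 3 + a * u + b → IsPtP φ I fun j => eval ![u, v] (p j)) →
    (∃ (i j : Fin (N + 1)) (u v u' v' : ℂ), v ^ 2 = u ^ 3 + a * u + b ∧
      v' ^ 2 = u' ^ 3 + a * u' + b ∧
      eval ![u, v] (p i) * eval ![u', v'] (p j) ≠ eval ![u, v] (p j) * eval ![u', v'] (p i)) →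
    ∀ u v : ℂ, v ^ 2 = u ^ 3 + a * u + b → IsPtP φ I' fun j => eval ![u, v] (p j)

theorem disc_of_ns {a b : ℂ} (h : ∀ e : ℂ, e ^ 3 + a * e + b = 0 → 3 * e ^ 2 + a ≠ 0) :
    4 * a ^ 3 + 27 * b ^ 2 ≠ 0 := by
  intro h0
  by_cases ha : a = 0
  · subst ha
    have hb : b = 0 := by
      have h1 : b ^ 2 = 0 := by linear_combination h0 / 27
      exact pow_eq_zero_iff (two_ne_zero) |>.1 h1
    subst hb
    exact h 0 (by norm_num) (by norm_num)
  · refine h (-3 * b / (2 * a)) ?_ ?_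
    · field_simp
      linear_combination (-b) * h0
    · field_simp
      linear_combination h0

theorem ns_of_disc {a b : ℂ} (h : 4 * a ^ 3 + 27 * b ^ 2 ≠ 0) :
    ∀ e : ℂ, e ^ 3 + a * e + b = 0 → 3 * e ^ 2 + a ≠ 0 := by
  intro e he h3
  apply h
  have h4 : a = -3 * e ^ 2 := by linear_combination h3
  have h5 : b = 2 * e ^ 3 := by
    rw [h4] at he
    linear_combination he
  rw [h4, h5]
  ring

theorem parity {a b : ℂ} {A B : Polynomial ℂ}
    (h : A ^ 2 - B ^ 2 * (Polynomial.X ^ 3 + Polynomial.C a * Polynomial.X + Polynomial.C b) = 0) :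
    A = 0 ∧ B = 0 := by
  set c : Polynomial ℂ := Polynomial.X ^ 3 + Polynomial.C a * Polynomial.X + Polynomial.C b with hc
  have hdeg : c.natDegree = 3 := by
    rw [hc]
    compute_degree!
  have hc0 : c ≠ 0 := by
    intro h0
    rw [h0, Polynomial.natDegree_zero] at hdeg
    omega
  by_cases hB : B = 0
  · rw [hB] at h
    refine ⟨?_, hB⟩
    have h1 : A ^ 2 = 0 := by linear_combination h
    exact pow_eq_zero_iff (two_ne_zero) |>.1 h1
  · exfalso
    have h1 : A ^ 2 = B ^ 2 * c := sub_eq_zero.1 h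
    have h2 := congrArg Polynomial.natDegree h1
    rw [Polynomial.natDegree_pow, Polynomial.natDegree_mul (pow_ne_zero _ hB) hc0,
      Polynomial.natDegree_pow, hdeg] at h2
    omega

/-- the values of a polynomial on the curve -/
theorem Gv_dich {a b : ℂ} {x y : ℕ → ℂ} (hinj : Function.Injective x)
    (hxy : ∀ m, y m ^ 2 = x m ^ 3 + a * x m + b) (P : MvPolynomial (Fin 2) ℂ) :
    Gv x y P = 0 ∨ IsUnit (Gv x y P) := by
  obtain ⟨A, B, h⟩ := normal a b P
  by_cases h0 : A ^ 2 - B ^ 2 *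
      (Polynomial.X ^ 3 + Polynomial.C a * Polynomial.X + Polynomial.C b) = 0
  · left
    obtain ⟨rfl, rfl⟩ := parity h0
    unfold Gv
    rw [h GG _ _ (curve_gg hxy), map_zero, zero_mul, add_zero]
  · right
    rw [Gv_eq]
    apply ne_unit
    filter_upwards [ev_ne hinj h0] with m hm h1
    apply hm
    have h2 := h ℂ (x m) (y m) (hxy m)
    rw [h1, Polynomial.coe_aeval_eq_eval] at h2
    simp only [Polynomial.eval_sub, Polynomial.eval_pow, Polynomial.eval_mul, Polynomial.eval_add,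
      Polynomial.eval_X, Polynomial.eval_C]
    rw [← hxy]
    linear_combination (y m * B.eval (x m) - A.eval (x m)) * h2

theorem indep_gg {a b : ℂ} {x y : ℕ → ℂ} (hinj : Function.Injective x)
    (hxy : ∀ m, y m ^ 2 = x m ^ 3 + a * x m + b) {A B : Polynomial ℂ}
    (h : Polynomial.aeval (gg x) A + Polynomial.aeval (gg x) B * gg y = 0) : A = 0 ∧ B = 0 := by
  apply parity (a := a) (b := b)
  by_contra h0
  have hev : ∀ p : Polynomial ℂ, Polynomial.aeval (gg x) p = gg fun m => p.eval (x m) := by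
    intro p
    have h1 : Polynomial.aeval (gg x) p = gg (Polynomial.aeval x p) :=
      Polynomial.aeval_algHom_apply gg x p
    rw [h1]
    congr 1
    funext m
    exact aeval_seq x p m
  have h1 : gg (fun m => A.eval (x m) + B.eval (x m) * y m) = 0 := by
    rw [← h, hev, hev, ← map_mul, ← map_add]
    rfl
  obtain ⟨m, h2, h3⟩ := ((gg_zero.1 h1).and (ev_ne hinj h0)).exists
  apply h3
  simp only [Polynomial.eval_sub, Polynomial.eval_pow, Polynomial.eval_mul, Polynomial.eval_add,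
    Polynomial.eval_X, Polynomial.eval_C]
  rw [← hxy]
  linear_combination (A.eval (x m) - B.eval (x m) * y m) * h2

/-- the germs of the rational functions on the curve -/
noncomputable def SE (x y : ℕ → ℂ) : Subalgebra ℂ GG where
  carrier := {g | ∃ r s : MvPolynomial (Fin 2) ℂ, IsUnit (Gv x y s) ∧ g * Gv x y s = Gv x y r}
  mul_mem' := by
    rintro g g' ⟨r, s, hs, hg⟩ ⟨r', s', hs', hg'⟩
    refine ⟨r * r', s * s', ?_, ?_⟩
    · rw [map_mul]
      exact hs.mul hs'
    · rw [map_mul, map_mul, ← hg, ← hg']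
      ring
  add_mem' := by
    rintro g g' ⟨r, s, hs, hg⟩ ⟨r', s', hs', hg'⟩
    refine ⟨r * s' + r' * s, s * s', ?_, ?_⟩
    · rw [map_mul]
      exact hs.mul hs'
    · rw [map_add, map_mul, map_mul, map_mul, ← hg, ← hg']
      ring
  algebraMap_mem' := fun c => ⟨algebraMap ℂ _ c, 1, by rw [map_one]; exact isUnit_one, by
    rw [map_one, mul_one, AlgHom.commutes]⟩

theorem Gv_mem (x y : ℕ → ℂ) (P : MvPolynomial (Fin 2) ℂ) : Gv x y P ∈ SE x y :=
  ⟨P, 1, by rw [map_one]; exact isUnit_one, by rw [map_one, mul_one]⟩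

theorem SE_field {a b : ℂ} {x y : ℕ → ℂ} (hinj : Function.Injective x)
    (hxy : ∀ m, y m ^ 2 = x m ^ 3 + a * x m + b) : IsField (SE x y) where
  exists_pair_ne := ⟨0, 1, fun h0 => zero_ne_one (congrArg Subtype.val h0)⟩
  mul_comm := mul_comm
  mul_inv_cancel := by
    rintro ⟨g, r, s, hs, hg⟩ hne
    have hr : IsUnit (Gv x y r) := by
      rcases Gv_dich hinj hxy r with h1 | h1
      · exfalso
        apply hne
        apply Subtype.ext
        change g = 0
        rw [h1] at hg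
        exact (hs.mul_left_eq_zero).1 hg
      · exact h1
    obtain ⟨c, hc⟩ := hr.exists_right_inv
    refine ⟨⟨Gv x y s * c, s, r, hr, ?_⟩, Subtype.ext ?_⟩
    · rw [mul_assoc, mul_comm c, hc, mul_one]
    · change g * (Gv x y s * c) = 1
      rw [← mul_assoc, hg, hc]

/-- **The function field** of the curve. -/
theorem exists_field (a b : ℂ) : ∃ (F : Type) (_ : Field F) (_ : Algebra ℂ F) (X Y : F),
    IsFF ℂ F ∧ Y ^ 2 = X ^ 3 + algebraMap ℂ F a * X + algebraMap ℂ F b ∧
    (∀ A B : Polynomial ℂ, Polynomial.aeval X A + Polynomial.aeval X B * Y = 0 → A = 0 ∧ B = 0) ∧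
    (∀ f : F, ∃ r s : MvPolynomial (Fin 2) ℂ, f = aeval ![X, Y] r / aeval ![X, Y] s) := by
  have hsq : ∀ m : ℕ, ∃ v : ℂ, v ^ 2 = (m : ℂ) ^ 3 + a * m + b := fun m =>
    IsAlgClosed.exists_pow_nat_eq _ (by norm_num)
  choose y hxy using hsq
  set x : ℕ → ℂ := fun m => (m : ℂ) with hx
  have hinj : Function.Injective x := Nat.cast_injective
  let _ : Field (SE x y) := (SE_field (a := a) (b := b) hinj hxy).toField
  let X : SE x y := ⟨gg x, by
    have h1 := Gv_mem x y (MvPolynomial.X 0)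
    rw [Gv, aeval_X] at h1
    exact h1⟩
  let Y : SE x y := ⟨gg y, by
    have h1 := Gv_mem x y (MvPolynomial.X 1)
    rw [Gv, aeval_X] at h1
    exact h1⟩
  have hval : ∀ P : MvPolynomial (Fin 2) ℂ, ((aeval ![X, Y] P : SE x y) : GG) = Gv x y P := by
    intro P
    change (SE x y).val (aeval ![X, Y] P) = _
    rw [← AlgHom.comp_apply, comp_aeval]
    have h1 : (fun i => (SE x y).val (![X, Y] i)) = ![gg x, gg y] := by
      funext i
      fin_cases i <;> rfl
    rw [h1]
    rfl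
  have hXY : Y ^ 2 = X ^ 3 + algebraMap ℂ (SE x y) a * X + algebraMap ℂ (SE x y) b :=
    Subtype.ext (curve_gg hxy)
  have hpol : ∀ p : Polynomial ℂ, ((Polynomial.aeval X p : SE x y) : GG) =
      Polynomial.aeval (gg x) p := fun p =>
    (Polynomial.aeval_algHom_apply (SE x y).val X p).symm
  have hind : ∀ A B : Polynomial ℂ, Polynomial.aeval X A + Polynomial.aeval X B * Y = 0 →
      A = 0 ∧ B = 0 := by
    intro A B h
    apply indep_gg (a := a) (b := b) hinj hxy
    have h1 := congrArg Subtype.val h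
    rw [← hpol, ← hpol]
    exact h1
  have hgen : ∀ f : SE x y, ∃ r s : MvPolynomial (Fin 2) ℂ,
      f = aeval ![X, Y] r / aeval ![X, Y] s := by
    rintro ⟨g, r, s, hs, hg⟩
    refine ⟨r, s, ?_⟩
    have hs0 : (aeval ![X, Y] s : SE x y) ≠ 0 := by
      intro h0
      rw [← hval, h0] at hs
      exact not_isUnit_zero hs
    rw [eq_div_iff hs0]
    apply Subtype.ext
    change g * ((aeval ![X, Y] s : SE x y) : GG) = _
    rw [hval, hval]
    exact hg
  have hXt : Transcendental ℂ X := by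
    rintro ⟨p, hp, hp0⟩
    apply hp
    exact (hind p 0 (by rw [hp0, map_zero, zero_mul, add_zero])).1
  refine ⟨SE x y, inferInstance, inferInstance, X, Y, ?_, hXY, hind, hgen⟩
  refine IsFF.of_finite hXt ?_
  have hYint : IsIntegral ℂ⟮X⟯ Y := by
    refine ⟨Polynomial.X ^ 2 - Polynomial.C (⟨X, IntermediateField.mem_adjoin_simple_self ℂ X⟩ ^ 3 +
      algebraMap ℂ ℂ⟮X⟯ a * ⟨X, IntermediateField.mem_adjoin_simple_self ℂ X⟩ +
      algebraMap ℂ ℂ⟮X⟯ b), Polynomial.monic_X_pow_sub_C _ two_ne_zero, ?_⟩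
    rw [Polynomial.eval₂_sub, Polynomial.eval₂_pow, Polynomial.eval₂_X, Polynomial.eval₂_C, hXY]
    change X ^ 3 + algebraMap ℂ (SE x y) a * X + algebraMap ℂ (SE x y) b -
      (X ^ 3 + algebraMap ℂ (SE x y) a * X + algebraMap ℂ (SE x y) b) = 0
    ring
  have h1 : FiniteDimensional ℂ⟮X⟯ ℂ⟮X⟯⟮Y⟯ := IntermediateField.adjoin.finiteDimensional hYint
  have h2 : ℂ⟮X⟯⟮Y⟯ = ⊤ := by
    rw [eq_top_iff]
    intro f _
    obtain ⟨r, s, rfl⟩ := hgen f
    have hX1 : X ∈ ℂ⟮X⟯⟮Y⟯ := by
      have := IntermediateField.algebraMap_mem ℂ⟮X⟯⟮Y⟯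
        (⟨X, IntermediateField.mem_adjoin_simple_self ℂ X⟩ : ℂ⟮X⟯)
      exact this
    have hY1 : Y ∈ ℂ⟮X⟯⟮Y⟯ := IntermediateField.mem_adjoin_simple_self _ Y
    have hc1 : ∀ c : ℂ, algebraMap ℂ (SE x y) c ∈ ℂ⟮X⟯⟮Y⟯ := by
      intro c
      have := IntermediateField.algebraMap_mem ℂ⟮X⟯⟮Y⟯ (algebraMap ℂ ℂ⟮X⟯ c)
      exact this
    have hP : ∀ P : MvPolynomial (Fin 2) ℂ, aeval ![X, Y] P ∈ ℂ⟮X⟯⟮Y⟯ := by
      intro P
      induction P using MvPolynomial.induction_on with
      | C c =>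
        rw [← algebraMap_eq, AlgHom.commutes]
        exact hc1 c
      | add p q hp hq =>
        rw [map_add]
        exact add_mem hp hq
      | mul_X p i hp =>
        rw [map_mul, aeval_X]
        refine mul_mem hp ?_
        fin_cases i
        · exact hX1
        · exact hY1
    exact div_mem (hP r) (hP s)
  rw [h2] at h1
  exact IntermediateField.topEquiv.toLinearEquiv.finiteDimensional

end Pool.Agent.TH143.GE
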