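import Mathlib

/-!
Infinite orbits of the duplication on an elliptic curve.
-/

set_option autoImplicit false

namespace Pool.Agent.TH143.GE

open Polynomial

/-- numerator and denominator of the iterates of the duplication of the first coordinate -/
noncomputable def pq (a b : ℂ) : ℕ → ℂ[X] × ℂ[X]
  | 0 => (X, 1)
  | n + 1 => ((pq a b n).1 ^ 4 - 2 * C a * (pq a b n).1 ^ 2 * (pq a b n).2 ^ 2 -
      8 * C b * (pq a b n).1 * (pq a b n).2 ^ 3 + C a ^ 2 * (pq a b n).2 ^ 4,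
      4 * (pq a b n).2 * ((pq a b n).1 ^ 3 + C a * (pq a b n).1 * (pq a b n).2 ^ 2 +
        C b * (pq a b n).2 ^ 3))

variable {a b : ℂ}

theorem four_ne : (4 : ℂ) ≠ 0 := by norm_num

theorem pq_fst (n : ℕ) (x : ℂ) : (pq a b (n + 1)).1.eval x =
    ((pq a b n).1.eval x) ^ 4 - 2 * a * ((pq a b n).1.eval x) ^ 2 * ((pq a b n).2.eval x) ^ 2 -
      8 * b * (pq a b n).1.eval x * ((pq a b n).2.eval x) ^ 3 +
      a ^ 2 * ((pq a b n).2.eval x) ^ 4 := by
  simp [pq]

theorem pq_snd (n : ℕ) (x : ℂ) : (pq a b (n + 1)).2.eval x =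
    4 * (pq a b n).2.eval x * (((pq a b n).1.eval x) ^ 3 +
      a * (pq a b n).1.eval x * ((pq a b n).2.eval x) ^ 2 + b * ((pq a b n).2.eval x) ^ 3) := by
  simp [pq]

theorem pq_at {e : ℂ} (he : e ^ 3 + a * e + b = 0) (h : 3 * e ^ 2 + a ≠ 0) (n : ℕ) :
    (pq a b (n + 1)).1.eval e ≠ 0 ∧ (pq a b (n + 1)).2.eval e = 0 := by
  induction n with
  | zero =>
    rw [pq_fst, pq_snd]
    simp only [pq, eval_X, eval_one]
    constructor
    · intro h0
      apply h
      have h1 : (3 * e ^ 2 + a) ^ 2 = 0 := by linear_combination h0 + 8 * e * he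
      exact pow_eq_zero_iff (two_ne_zero) |>.1 h1
    · linear_combination 4 * he
  | succ n ih =>
    rw [pq_fst (n + 1), pq_snd (n + 1), ih.2]
    constructor
    · intro h0
      apply pow_ne_zero 4 ih.1
      linear_combination h0
    · ring

theorem exists_e (a b : ℂ) : ∃ e : ℂ, e ^ 3 + a * e + b = 0 := by
  have h1 : (X ^ 3 + C a * X + C b : ℂ[X]).degree ≠ 0 := by
    have h2 : (X ^ 3 + C a * X + C b : ℂ[X]) = X ^ 3 + (C a * X + C b) := by ring
    rw [h2, degree_add_eq_left_of_degree_lt]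
    · rw [degree_X_pow]
      norm_num
    · rw [degree_X_pow]
      exact lt_of_le_of_lt degree_linear_le (by norm_num)
  obtain ⟨e, he⟩ := IsAlgClosed.exists_root _ h1
  refine ⟨e, ?_⟩
  rw [IsRoot.def] at he
  simpa using he

theorem pq_sub_ne (h : ∀ e : ℂ, e ^ 3 + a * e + b = 0 → 3 * e ^ 2 + a ≠ 0) (r : ℂ) (n : ℕ) :
    (pq a b n).1 - C r * (pq a b n).2 ≠ 0 := by
  obtain ⟨e, he⟩ := exists_e a b
  cases n with
  | zero =>
    simp only [pq, mul_one]
    exact X_sub_C_ne_zero r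
  | succ n =>
    intro h0
    obtain ⟨h1, h2⟩ := pq_at he (h e he) n
    have h3 := congrArg (eval e) h0
    rw [eval_sub, eval_mul, h2, mul_zero, sub_zero, eval_zero] at h3
    exact h1 h3

theorem pq_fix_ne (h : ∀ e : ℂ, e ^ 3 + a * e + b = 0 → 3 * e ^ 2 + a ≠ 0) (n : ℕ) :
    (pq a b (n + 1)).1 - X * (pq a b (n + 1)).2 ≠ 0 := by
  obtain ⟨e, he⟩ := exists_e a b
  intro h0
  obtain ⟨h1, h2⟩ := pq_at he (h e he) n
  have h3 := congrArg (eval e) h0
  rw [eval_sub, eval_mul, h2, mul_zero, sub_zero, eval_zero] at h3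
  exact h1 h3

theorem pq_snd_ne (h : ∀ e : ℂ, e ^ 3 + a * e + b = 0 → 3 * e ^ 2 + a ≠ 0) (n : ℕ) :
    (pq a b n).2 ≠ 0 := by
  obtain ⟨e, he⟩ := exists_e a b
  induction n with
  | zero =>
    simp only [pq]
    exact one_ne_zero
  | succ n ih =>
    have h1 : (pq a b n).1 ^ 3 + C a * (pq a b n).1 * (pq a b n).2 ^ 2 +
        C b * (pq a b n).2 ^ 3 ≠ 0 := by
      cases n with
      | zero =>
        simp only [pq]
        intro h0
        have h2 := congrArg (fun p => coeff p 3) h0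
        simp at h2
      | succ n =>
        intro h0
        obtain ⟨h1, h2⟩ := pq_at he (h e he) n
        have h3 := congrArg (eval e) h0
        simp only [eval_add, eval_mul, eval_pow, eval_C, h2, eval_zero] at h3
        apply pow_ne_zero 3 h1
        linear_combination h3
    have h2 : (pq a b (n + 1)).2 = 4 * (pq a b n).2 * ((pq a b n).1 ^ 3 +
        C a * (pq a b n).1 * (pq a b n).2 ^ 2 + C b * (pq a b n).2 ^ 3) := rfl
    rw [h2]
    have h3 : (4 : ℂ[X]) ≠ 0 := by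
      intro h0
      have h4 := congrArg (eval 0) h0
      rw [eval_ofNat, eval_zero] at h4
      exact four_ne h4
    exact mul_ne_zero (mul_ne_zero h3 ih) h1

theorem exists_orbX (h : ∀ e : ℂ, e ^ 3 + a * e + b = 0 → 3 * e ^ 2 + a ≠ 0) :
    ∃ x : ℕ → ℂ, Function.Injective x ∧ (∀ m, x m ^ 3 + a * x m + b ≠ 0) ∧
      ∀ m, x (m + 1) = (x m ^ 4 - 2 * a * x m ^ 2 - 8 * b * x m + a ^ 2) /
        (4 * (x m ^ 3 + a * x m + b)) := by
  classical
  -- the bad points
  have hc1 : (⋃ n, {z : ℂ | ((pq a b n).2).IsRoot z}).Countable := by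
    refine Set.countable_iUnion fun n => ?_
    exact (Polynomial.finite_setOfPred_isRoot (pq_snd_ne h n)).countable
  have hc2 : (⋃ k, ⋃ r ∈ {z : ℂ | ((pq a b (k + 1)).1 - X * (pq a b (k + 1)).2).IsRoot z}, ⋃ m,
      {z : ℂ | ((pq a b m).1 - C r * (pq a b m).2).IsRoot z}).Countable := by
    refine Set.countable_iUnion fun k => ?_
    refine Set.Countable.biUnion (Polynomial.finite_setOfPred_isRoot (pq_fix_ne h k)).countable ?_
    intro r _
    refine Set.countable_iUnion fun m => ?_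
    exact (Polynomial.finite_setOfPred_isRoot (pq_sub_ne h r m)).countable
  obtain ⟨x0, hx0⟩ : ∃ x0 : ℂ, x0 ∉ (⋃ n, {z : ℂ | ((pq a b n).2).IsRoot z}) ∪
      (⋃ k, ⋃ r ∈ {z : ℂ | ((pq a b (k + 1)).1 - X * (pq a b (k + 1)).2).IsRoot z}, ⋃ m,
      {z : ℂ | ((pq a b m).1 - C r * (pq a b m).2).IsRoot z}) := by
    by_contra hcon
    push Not at hcon
    have h1 : (Set.univ : Set ℂ) ⊆ _ := fun z _ => hcon z
    exact not_countable_complex ((hc1.union hc2).mono h1)
  rw [Set.mem_union, not_or] at hx0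
  obtain ⟨hx1, hx2⟩ := hx0
  have hQ : ∀ n, (pq a b n).2.eval x0 ≠ 0 := by
    intro n h0
    exact hx1 (Set.mem_iUnion.2 ⟨n, h0⟩)
  set x : ℕ → ℂ := fun m => (pq a b m).1.eval x0 / (pq a b m).2.eval x0 with hx
  have hcub : ∀ m, x m ^ 3 + a * x m + b ≠ 0 := by
    intro m h0
    apply hQ (m + 1)
    rw [pq_snd]
    have h1 : (pq a b m).1.eval x0 = x m * (pq a b m).2.eval x0 := by
      rw [hx]
      exact (div_mul_cancel₀ _ (hQ m)).symm
    rw [h1]
    linear_combination (4 * (pq a b m).2.eval x0 ^ 4) * h0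
  have hrec : ∀ m, x (m + 1) = (x m ^ 4 - 2 * a * x m ^ 2 - 8 * b * x m + a ^ 2) /
        (4 * (x m ^ 3 + a * x m + b)) := by
    intro m
    have h1 : (pq a b m).1.eval x0 = x m * (pq a b m).2.eval x0 := by
      rw [hx]
      exact (div_mul_cancel₀ _ (hQ m)).symm
    have h2 : x (m + 1) = (pq a b (m + 1)).1.eval x0 / (pq a b (m + 1)).2.eval x0 := rfl
    rw [h2, pq_fst, pq_snd, h1]
    have h3 := hQ m
    have h4 := hcub m
    generalize (pq a b m).2.eval x0 = q at *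
    rw [div_eq_div_iff]
    · ring
    · have h5 : 4 * q * ((x m * q) ^ 3 + a * (x m * q) * q ^ 2 + b * q ^ 3) =
          4 * q ^ 4 * (x m ^ 3 + a * x m + b) := by ring
      rw [h5]
      exact mul_ne_zero (mul_ne_zero four_ne (pow_ne_zero _ h3)) h4
    · exact mul_ne_zero four_ne h4
  have hit : ∀ m k, (pq a b k).2.eval (x m) ≠ 0 ∧
      (pq a b k).1.eval (x m) = x (m + k) * (pq a b k).2.eval (x m) := by
    intro m k
    induction k with
    | zero =>
      simp [pq]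
    | succ k ih =>
      obtain ⟨h1, h2⟩ := ih
      have h3 := hcub (m + k)
      have h4 := hrec (m + k)
      rw [pq_fst, pq_snd, h2]
      generalize (pq a b k).2.eval (x m) = q at *
      have h5 : x (m + (k + 1)) = x (m + k + 1) := rfl
      constructor
      · have h6 : 4 * q * ((x (m + k) * q) ^ 3 + a * (x (m + k) * q) * q ^ 2 + b * q ^ 3) =
          4 * q ^ 4 * (x (m + k) ^ 3 + a * x (m + k) + b) := by ring
        rw [h6]
        exact mul_ne_zero (mul_ne_zero four_ne (pow_ne_zero _ h1)) h3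
      · have h6 : x (m + k + 1) * (4 * (x (m + k) ^ 3 + a * x (m + k) + b)) =
            x (m + k) ^ 4 - 2 * a * x (m + k) ^ 2 - 8 * b * x (m + k) + a ^ 2 := by
          rw [h4, div_mul_cancel₀ _ (mul_ne_zero four_ne h3)]
        rw [h5]
        linear_combination (-q ^ 4) * h6
  refine ⟨x, ?_, hcub, hrec⟩
  have hne : ∀ m k, x m ≠ x (m + (k + 1)) := by
    intro m k heq
    obtain ⟨h1, h2⟩ := hit m (k + 1)
    apply hx2
    refine Set.mem_iUnion.2 ⟨k, Set.mem_iUnion₂.2 ⟨x m, ?_, Set.mem_iUnion.2 ⟨m, ?_⟩⟩⟩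
    · change eval (x m) _ = 0
      rw [eval_sub, eval_mul, eval_X, h2, ← heq, sub_self]
    · change eval x0 _ = 0
      rw [eval_sub, eval_mul, eval_C, hx]
      simp only
      rw [div_mul_cancel₀ _ (hQ m), sub_self]
  intro m n hmn
  rcases lt_trichotomy m n with h1 | h1 | h1
  · obtain ⟨k, rfl⟩ := Nat.exists_eq_add_of_lt h1
    exact absurd hmn (hne m k)
  · exact h1
  · obtain ⟨k, rfl⟩ := Nat.exists_eq_add_of_lt h1
    exact absurd hmn.symm (hne n k)

/-- **Infinite orbits of the duplication.** -/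
theorem exists_orb (h : ∀ e : ℂ, e ^ 3 + a * e + b = 0 → 3 * e ^ 2 + a ≠ 0) :
    ∃ x y : ℕ → ℂ, Function.Injective x ∧ (∀ m, y m ≠ 0) ∧
      (∀ m, y m ^ 2 = x m ^ 3 + a * x m + b) ∧
      (∀ m, x (m + 1) = (x m ^ 4 - 2 * a * x m ^ 2 - 8 * b * x m + a ^ 2) / (4 * y m ^ 2)) ∧
      ∀ m, y (m + 1) = (x m ^ 6 + 5 * a * x m ^ 4 + 20 * b * x m ^ 3 - 5 * a ^ 2 * x m ^ 2 -
        4 * a * b * x m - 8 * b ^ 2 - a ^ 3) / (8 * y m ^ 3) := by
  obtain ⟨x, hinj, hcub, hrec⟩ := exists_orbX h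
  obtain ⟨y0, hy0⟩ := IsAlgClosed.exists_pow_nat_eq (x 0 ^ 3 + a * x 0 + b) (n := 2) (by norm_num)
  let y : ℕ → ℂ := fun m => Nat.rec y0 (fun m ym => (x m ^ 6 + 5 * a * x m ^ 4 +
    20 * b * x m ^ 3 - 5 * a ^ 2 * x m ^ 2 - 4 * a * b * x m - 8 * b ^ 2 - a ^ 3) /
      (8 * ym ^ 3)) m
  have hyrec : ∀ m, y (m + 1) = (x m ^ 6 + 5 * a * x m ^ 4 + 20 * b * x m ^ 3 -
      5 * a ^ 2 * x m ^ 2 - 4 * a * b * x m - 8 * b ^ 2 - a ^ 3) / (8 * y m ^ 3) := fun m => rfl
  have hy : ∀ m, y m ^ 2 = x m ^ 3 + a * x m + b := by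
    intro m
    induction m with
    | zero => exact hy0
    | succ m ih =>
      have h1 := hcub m
      have h2 : y m ^ 2 ≠ 0 := by rw [ih]; exact h1
      rw [hyrec, hrec]
      have h3 : (8 * y m ^ 3) ^ 2 = 64 * (x m ^ 3 + a * x m + b) ^ 3 := by
        have h4 : (8 * y m ^ 3) ^ 2 = 64 * (y m ^ 2) ^ 3 := by ring
        rw [h4, ih]
      rw [div_pow, h3]
      have key : (x m ^ 6 + 5 * a * x m ^ 4 + 20 * b * x m ^ 3 - 5 * a ^ 2 * x m ^ 2 -
          4 * a * b * x m - 8 * b ^ 2 - a ^ 3) ^ 2 =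
          (x m ^ 4 - 2 * a * x m ^ 2 - 8 * b * x m + a ^ 2) ^ 3 +
          16 * a * (x m ^ 4 - 2 * a * x m ^ 2 - 8 * b * x m + a ^ 2) *
            (x m ^ 3 + a * x m + b) ^ 2 + 64 * b * (x m ^ 3 + a * x m + b) ^ 3 := by ring
      rw [key]
      generalize x m ^ 3 + a * x m + b = w at *
      generalize x m ^ 4 - 2 * a * x m ^ 2 - 8 * b * x m + a ^ 2 = M at *
      field_simp
      ring
  have hyne : ∀ m, y m ≠ 0 := by
    intro m h0
    apply hcub m
    rw [← hy, h0]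
    ring
  exact ⟨x, y, hinj, hyne, hy, fun m => by rw [hrec, hy], hyrec⟩

end Pool.Agent.TH143.GE
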