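import Pool.Agent.TH143.GE.Gap

/-!
Function fields of canonical degree zero: the equation of Weierstrass.
-/

set_option autoImplicit false
set_option linter.overlappingInstances false
set_option linter.unusedSectionVars false

namespace Pool.Agent.TH143.GE

open FF Pool.Agent.W603.LV Module Pool.Agent.W619.PQ IntermediateField

section

variable {k F : Type} [Field k] [Field F] [Algebra k F] [CharZero k] [IsFF k F] [IsAlgClosed k]

theorem step_down {P : Place k F} {f g : F} {n : ℤ} (hf : Ge P n f) (hg0 : g ≠ 0)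
    (hg : P.ord g = n) : ∃ c : k, Ge P (n + 1) (f - algebraMap k F c * g) := by
  have h1 : Ge P 0 (f * g⁻¹) := by
    have h2 : Ge P (-n) g⁻¹ := Or.inr (by rw [P.ord_inv, hg])
    have h3 := hf.mul h2
    rwa [add_neg_cancel] at h3
  obtain ⟨c, hc⟩ := exists_const P h1
  refine ⟨c, ?_⟩
  have h2 := hc.mul (Or.inr hg.ge : Ge P n g)
  have h3 : (f * g⁻¹ - algebraMap k F c) * g = f - algebraMap k F c * g := by
    field_simp
  rw [h3, add_comm] at h2
  exact h2

theorem exists_relation (h0 : canDeg k F = 0) : ∃ (P : Place k F) (X Y : F) (c1 c2 c3 c4 c5 c6 : k),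
    X ≠ 0 ∧ Y ≠ 0 ∧ P.ord X = -2 ∧ P.ord Y = -3 ∧ (∀ Q : Place k F, Q ≠ P → 0 ≤ Q.ord X) ∧
    (∀ Q : Place k F, Q ≠ P → 0 ≤ Q.ord Y) ∧ c1 ≠ 0 ∧
    Y ^ 2 = algebraMap k F c1 * X ^ 3 + algebraMap k F c2 * (X * Y) + algebraMap k F c3 * X ^ 2 +
      algebraMap k F c4 * Y + algebraMap k F c5 * X + algebraMap k F c6 := by
  obtain ⟨P, -⟩ := exists_place (k := k) (K := F)
  obtain ⟨X, hX0, hX, hXr⟩ := exists_one_pole h0 P (n := 2) le_rfl
  obtain ⟨Y, hY0, hY, hYr⟩ := exists_one_pole h0 P (n := 3) (by norm_num)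
  push_cast at hX hY
  have hX3 : P.ord (X ^ 3) = -6 := by rw [P.ord_pow, hX]; norm_num
  have hX2 : P.ord (X ^ 2) = -4 := by rw [P.ord_pow, hX]; norm_num
  have hXY : P.ord (X * Y) = -5 := by rw [P.ord_mul hX0 hY0, hX, hY]; norm_num
  have hY2 : P.ord (Y ^ 2) = -6 := by rw [P.ord_pow, hY]; norm_num
  obtain ⟨c1, h1⟩ := step_down (P := P) (f := Y ^ 2) (g := X ^ 3) (n := -6) (Or.inr hY2.ge)
    (pow_ne_zero _ hX0) hX3
  obtain ⟨c2, h2⟩ := step_down (P := P) (g := X * Y) (n := -5) (h1.mono (by norm_num)) (mul_ne_zero hX0 hY0) hXY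
  obtain ⟨c3, h3⟩ := step_down (P := P) (g := X ^ 2) (n := -4) (h2.mono (by norm_num)) (pow_ne_zero _ hX0) hX2
  obtain ⟨c4, h4⟩ := step_down (P := P) (g := Y) (n := -3) (h3.mono (by norm_num)) hY0 hY
  obtain ⟨c5, h5⟩ := step_down (P := P) (g := X) (n := -2) (h4.mono (by norm_num)) hX0 hX
  set R : F := Y ^ 2 - algebraMap k F c1 * X ^ 3 - algebraMap k F c2 * (X * Y) -
    algebraMap k F c3 * X ^ 2 - algebraMap k F c4 * Y - algebraMap k F c5 * X with hR
  have hreg : ∀ Q : Place k F, Q ≠ P → Ge Q 0 R := by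
    intro Q hQ
    have hXQ : Ge Q 0 X := Or.inr (hXr Q hQ)
    have hYQ : Ge Q 0 Y := Or.inr (hYr Q hQ)
    have hp : ∀ {f g : F}, Ge Q 0 f → Ge Q 0 g → Ge Q 0 (f * g) := by
      intro f g hf hg
      have := hf.mul hg
      rwa [zero_add] at this
    have hX2Q : Ge Q 0 (X ^ 2) := by rw [pow_two]; exact hp hXQ hXQ
    have hX3Q : Ge Q 0 (X ^ 3) := by rw [pow_succ]; exact hp hX2Q hXQ
    have hY2Q : Ge Q 0 (Y ^ 2) := by rw [pow_two]; exact hp hYQ hYQ
    exact ((((hY2Q.sub (hp (Ge.const c1) hX3Q)).sub (hp (Ge.const c2) (hp hXQ hYQ))).sub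
      (hp (Ge.const c3) hX2Q)).sub (hp (Ge.const c4) hYQ)).sub (hp (Ge.const c5) hXQ)
  have hconst : ∃ c6 : k, R = algebraMap k F c6 := by
    by_cases hR0 : R = 0
    · exact ⟨0, by rw [hR0, map_zero]⟩
    have h6 : -1 ≤ P.ord R := by
      have h7 := h5.resolve_left hR0
      have h8 : (-2 : ℤ) + 1 = -1 := by norm_num
      rwa [h8] at h7
    have h7 : P.ord R ≠ -1 := by
      intro h7
      exact not_rational h0 (rational_of_simple h7 fun Q hQ => (hreg Q hQ).resolve_left hR0)
    refine const_of_ord fun Q => ?_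
    by_cases hQ : Q = P
    · rw [hQ]
      omega
    · exact (hreg Q hQ).resolve_left hR0
  obtain ⟨c6, hc6⟩ := hconst
  refine ⟨P, X, Y, c1, c2, c3, c4, c5, c6, hX0, hY0, hX, hY, hXr, hYr, ?_, ?_⟩
  · rintro rfl
    rw [map_zero, zero_mul, sub_zero] at h1
    have h9 := h1.resolve_left (pow_ne_zero _ hY0)
    rw [hY2] at h9
    norm_num at h9
  · rw [← hc6, hR]
    ring

/-- the coordinates of Weierstrass -/
theorem exists_short (h0 : canDeg k F = 0) : ∃ (P : Place k F) (x y : F) (a b : k),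
    x ≠ 0 ∧ y ≠ 0 ∧ P.ord x = -2 ∧ P.ord y = -3 ∧ (∀ Q : Place k F, Q ≠ P → 0 ≤ Q.ord x) ∧
    y ^ 2 = x ^ 3 + algebraMap k F a * x + algebraMap k F b := by
  obtain ⟨P, X, Y, c1, c2, c3, c4, c5, c6, hX0, hY0, hX, hY, hXr, hYr, hc1, hrel⟩ :=
    exists_relation h0
  obtain ⟨γ, hγ⟩ := IsAlgClosed.exists_pow_nat_eq c1 (n := 3) (by norm_num)
  have hγ0 : γ ≠ 0 := by
    rintro rfl
    apply hc1
    rw [← hγ]
    norm_num
  set d2 : k := c3 + c2 ^ 2 / 4 with hd2
  set d1 : k := c5 + c2 * c4 / 2 with hd1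
  set d0 : k := c6 + c4 ^ 2 / 4 with hd0
  set δ : k := d2 / (3 * γ ^ 2) with hδ
  have hγF : algebraMap k F γ ≠ 0 := by rwa [Ne, map_eq_zero]
  have hordγ : ∀ Q : Place k F, Q.ord (algebraMap k F γ) = 0 := fun Q =>
    Q.ord_eq_zero_of_isAlgebraic hγF (isAlgebraic_algebraMap γ)
  -- the orders
  have hx1 : algebraMap k F γ * X + algebraMap k F δ ≠ 0 ∧
      P.ord (algebraMap k F γ * X + algebraMap k F δ) = -2 := by
    apply ord_of_sub (v := algebraMap k F γ * X) (mul_ne_zero hγF hX0)
    · rw [P.ord_mul hγF hX0, hordγ, hX]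
      norm_num
    · rw [add_sub_cancel_left]
      exact (Ge.const δ).mono (by norm_num)
  have hy1 : Y - (algebraMap k F (c2 / 2) * X + algebraMap k F (c4 / 2)) ≠ 0 ∧
      P.ord (Y - (algebraMap k F (c2 / 2) * X + algebraMap k F (c4 / 2))) = -3 := by
    apply ord_of_sub (v := Y) hY0 hY
    have h1 : Y - (algebraMap k F (c2 / 2) * X + algebraMap k F (c4 / 2)) - Y =
        -(algebraMap k F (c2 / 2) * X + algebraMap k F (c4 / 2)) := by ring
    rw [h1]
    apply Ge.neg
    have h2 := (Ge.const (P := P) (c2 / 2)).mul (Or.inr hX.ge : Ge P (-2) X)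
    have h3 : Ge P (-2) (algebraMap k F (c4 / 2)) := (Ge.const (c4 / 2)).mono (by norm_num)
    rw [zero_add] at h2
    exact (h2.add h3).mono (by norm_num)
  refine ⟨P, _, _, 3 * δ ^ 2 - 2 * δ * d2 / γ ^ 2 + d1 / γ,
    -δ ^ 3 + d2 * δ ^ 2 / γ ^ 2 - d1 * δ / γ + d0, hx1.1, hy1.1, hx1.2, hy1.2, fun Q hQ => ?_, ?_⟩
  · have h1 := (Ge.const (P := Q) γ).mul (Or.inr (hXr Q hQ) : Ge Q 0 X)
    rw [zero_add] at h1
    exact (h1.add (Ge.const δ)).resolve_left hx1.1
  · have hδ' : 3 * γ ^ 2 * δ = d2 := by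
      rw [hδ]
      field_simp
    have m2 : algebraMap k F 2 = 2 := map_ofNat _ 2
    have m3 : algebraMap k F 3 = 3 := map_ofNat _ 3
    have m4 : algebraMap k F 4 = 4 := map_ofNat _ 4
    have e1 : (algebraMap k F γ) ^ 3 = algebraMap k F c1 := by rw [← map_pow, hγ]
    have e2 : 3 * (algebraMap k F γ) ^ 2 * algebraMap k F δ = algebraMap k F d2 := by
      rw [← hδ', map_mul, map_mul, map_pow, m3]
    have e3 : algebraMap k F d2 = algebraMap k F c3 + (algebraMap k F c2) ^ 2 / 4 := by
      rw [hd2, map_add, map_div₀, map_pow, m4]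
    have e4 : algebraMap k F d1 = algebraMap k F c5 +
        algebraMap k F c2 * algebraMap k F c4 / 2 := by
      rw [hd1, map_add, map_div₀, map_mul, m2]
    have e5 : algebraMap k F d0 = algebraMap k F c6 + (algebraMap k F c4) ^ 2 / 4 := by
      rw [hd0, map_add, map_div₀, map_pow, m4]
    have e6 : algebraMap k F (3 * δ ^ 2 - 2 * δ * d2 / γ ^ 2 + d1 / γ) =
        3 * algebraMap k F δ ^ 2 - 2 * algebraMap k F δ * algebraMap k F d2 /
          algebraMap k F γ ^ 2 + algebraMap k F d1 / algebraMap k F γ := by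
      simp only [map_add, map_sub, map_mul, map_div₀, map_pow, m2, m3]
    have e7 : algebraMap k F (-δ ^ 3 + d2 * δ ^ 2 / γ ^ 2 - d1 * δ / γ + d0) =
        -algebraMap k F δ ^ 3 + algebraMap k F d2 * algebraMap k F δ ^ 2 /
          algebraMap k F γ ^ 2 - algebraMap k F d1 * algebraMap k F δ / algebraMap k F γ +
          algebraMap k F d0 := by
      simp only [map_add, map_sub, map_neg, map_mul, map_div₀, map_pow]
    have e8 : algebraMap k F (c2 / 2) = algebraMap k F c2 / 2 := by rw [map_div₀, m2]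
    have e9 : algebraMap k F (c4 / 2) = algebraMap k F c4 / 2 := by rw [map_div₀, m2]
    rw [e6, e7, e8, e9]
    generalize algebraMap k F γ = g at *
    generalize algebraMap k F δ = t at *
    generalize algebraMap k F d2 = D2 at *
    generalize algebraMap k F d1 = D1 at *
    generalize algebraMap k F d0 = D0 at *
    generalize algebraMap k F c1 = C1 at *
    generalize algebraMap k F c2 = C2 at *
    generalize algebraMap k F c3 = C3 at *
    generalize algebraMap k F c4 = C4 at *
    generalize algebraMap k F c5 = C5 at *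
    generalize algebraMap k F c6 = C6 at *
    subst e1
    have f3 : C3 = 3 * g ^ 2 * t - C2 ^ 2 / 4 := by rw [e2, e3]; ring
    have f5 : C5 = D1 - C2 * C4 / 2 := by rw [e4]; ring
    have f6 : C6 = D0 - C4 ^ 2 / 4 := by rw [e5]; ring
    have hch : CharZero F := charZero_of_injective_algebraMap (algebraMap k F).injective
    have s1 : 2 * t * D2 / g ^ 2 = 6 * t ^ 2 := by
      rw [← e2, div_eq_iff (pow_ne_zero _ hγF)]
      ring
    have s2 : D2 * t ^ 2 / g ^ 2 = 3 * t ^ 3 := by
      rw [← e2, div_eq_iff (pow_ne_zero _ hγF)]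
      ring
    have s3 : D1 * t / g = D1 / g * t := by ring
    have s4 : D1 = D1 / g * g := by
      rw [div_mul_cancel₀ _ hγF]
    rw [s1, s2, s3]
    generalize D1 / g = w at *
    subst s4
    rw [f3, f5, f6] at hrel
    linear_combination hrel

/-- the degree over the field generated by a function with one pole -/
theorem finrank_one_pole {P : Place k F} {x : F} {n : ℕ} (hn : n ≠ 0) (hx : P.ord x = -n)
    (hxr : ∀ Q : Place k F, Q ≠ P → 0 ≤ Q.ord x) : Module.finrank k⟮x⟯ F = n := by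
  classical
  have hxt : Transcendental k x := P.transcendental_of_ord_ne (by omega)
  obtain ⟨T, hT, hT2⟩ := poles (k := k) (K := F) hxt
  have hTP : T = {P} := by
    ext Q
    rw [hT, Finset.mem_singleton]
    constructor
    · intro h
      by_contra hne
      have := hxr Q hne
      omega
    · rintro rfl
      omega
  rw [hTP, Finset.sum_singleton, hx, deg_one] at hT2
  rw [← hT2]
  simp

theorem indep {P : Place k F} {x y : F} (hx : P.ord x = -2) (hy0 : y ≠ 0) (hy : P.ord y = -3)
    {A B : Polynomial k} (h : Polynomial.aeval x A + Polynomial.aeval x B * y = 0) :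
    A = 0 ∧ B = 0 := by
  have hxt : Transcendental k x := P.transcendental_of_ord_ne (by omega)
  have hA : A ≠ 0 → Polynomial.aeval x A ≠ 0 ∧ P.ord (Polynomial.aeval x A) =
      A.natDegree * (-2) := by
    intro hA
    have h1 := ord_aeval_of_neg (x := x) P (by omega) hA
    rw [hx] at h1
    exact h1
  have hB : B ≠ 0 → Polynomial.aeval x B ≠ 0 ∧ P.ord (Polynomial.aeval x B) =
      B.natDegree * (-2) := by
    intro hB
    have h1 := ord_aeval_of_neg (x := x) P (by omega) hB
    rw [hx] at h1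
    exact h1
  by_cases hB0 : B = 0
  · refine ⟨?_, hB0⟩
    by_contra hA0
    rw [hB0, map_zero, zero_mul, add_zero] at h
    exact (hA hA0).1 h
  · exfalso
    obtain ⟨h1, h2⟩ := hB hB0
    have h3 : Polynomial.aeval x A = -(Polynomial.aeval x B * y) := eq_neg_of_add_eq_zero_left h
    have h4 : A ≠ 0 := by
      rintro rfl
      rw [map_zero, eq_comm, neg_eq_zero] at h3
      exact mul_ne_zero h1 hy0 h3
    obtain ⟨-, h6⟩ := hA h4
    rw [h3, P.ord_neg, P.ord_mul h1 hy0, h2, hy] at h6
    omega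

/-- **The equation of Weierstrass** for function fields of canonical degree zero. -/
theorem weier (h0 : canDeg k F = 0) : ∃ (x y : F) (a b : k),
    Transcendental k x ∧ y ^ 2 = x ^ 3 + algebraMap k F a * x + algebraMap k F b ∧
    (∀ A B : Polynomial k, Polynomial.aeval x A + Polynomial.aeval x B * y = 0 → A = 0 ∧ B = 0) ∧
    (∀ f : F, ∃ r s : MvPolynomial (Fin 2) k,
      f = MvPolynomial.aeval ![x, y] r / MvPolynomial.aeval ![x, y] s) ∧
    (∀ e : k, e ^ 3 + a * e + b = 0 → 3 * e ^ 2 + a ≠ 0) := by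
  obtain ⟨P, x, y, a, b, hx0, hy0, hx, hy, hxr, hrel⟩ := exists_short h0
  have hxt : Transcendental k x := P.transcendental_of_ord_ne (by omega)
  have hfr := finrank_one_pole (P := P) (x := x) (n := 2) two_ne_zero (by rw [hx]; norm_num) hxr
  have hind : ∀ A B : Polynomial k, Polynomial.aeval x A + Polynomial.aeval x B * y = 0 →
      A = 0 ∧ B = 0 := fun A B h => indep hx hy0 hy h
  have hynot : y ∉ k⟮x⟯ := by
    intro hmem
    obtain ⟨r, s, hrs⟩ := (IntermediateField.mem_adjoin_simple_iff k y).1 hmem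
    by_cases hs : Polynomial.aeval x s = 0
    · rw [hs, div_zero] at hrs
      exact hy0 hrs
    · have h1 := (hind (-r) s (by
        rw [hrs, map_neg]
        field_simp
        ring)).2
      rw [h1, map_zero] at hs
      exact hs rfl
  have htop : k⟮x⟯⟮y⟯ = ⊤ := by
    have h1 : Nat.Prime (Module.finrank k⟮x⟯ F) := by rw [hfr]; exact Nat.prime_two
    have h2 := IntermediateField.isSimpleOrder_of_finrank_prime k⟮x⟯ F h1
    rcases h2.eq_bot_or_eq_top k⟮x⟯⟮y⟯ with h3 | h3
    · exfalso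
      have h4 : y ∈ k⟮x⟯⟮y⟯ := IntermediateField.mem_adjoin_simple_self _ y
      rw [h3, IntermediateField.mem_bot] at h4
      obtain ⟨z, hz⟩ := h4
      apply hynot
      rw [← hz]
      exact z.2
    · exact h3
  have htop2 : IntermediateField.adjoin k {x, y} = ⊤ := by
    rw [← IntermediateField.adjoin_simple_adjoin_simple, htop]
    exact IntermediateField.restrictScalars_top
  refine ⟨x, y, a, b, hxt, hrel, hind, fun f => ?_, fun e he h3 => ?_⟩
  · have h1 : f ∈ IntermediateField.adjoin k (Set.range ![x, y]) := by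
      rw [Matrix.range_cons, Matrix.range_cons, Matrix.range_empty, Set.union_empty,
        Set.singleton_union, htop2]
      exact IntermediateField.mem_top
    exact (IntermediateField.mem_adjoin_range_iff k ![x, y] f).1 h1
  · -- the singular case
    set E := algebraMap k F e with hE
    have hA : algebraMap k F a = -3 * E ^ 2 := by
      have h4 : a = -3 * e ^ 2 := by linear_combination h3
      rw [h4, map_mul, map_neg, map_pow, map_ofNat]
    have hb : algebraMap k F b = 2 * E ^ 3 := by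
      have h4 : a = -3 * e ^ 2 := by linear_combination h3
      have h5 : b = 2 * e ^ 3 := by
        rw [h4] at he
        linear_combination he
      rw [h5, map_mul, map_pow, map_ofNat]
    have hfac : y ^ 2 = (x - E) ^ 2 * (x + 2 * E) := by
      rw [hrel, hA, hb]
      ring
    have hxE : x - E ≠ 0 := sub_const_ne hxt e
    set t := y / (x - E) with ht
    have ht2 : t ^ 2 = x + 2 * E := by
      rw [ht, div_pow, hfac, mul_comm, mul_div_assoc, div_self (pow_ne_zero _ hxE), mul_one]
    apply not_rational h0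
    refine ⟨t, ?_⟩
    have htm : t ∈ k⟮t⟯ := IntermediateField.mem_adjoin_simple_self _ t
    have hEm : E ∈ k⟮t⟯ := IntermediateField.algebraMap_mem _ e
    have hxm : x ∈ k⟮t⟯ := by
      have h4 : x = t ^ 2 - 2 * E := by rw [ht2]; ring
      rw [h4]
      exact sub_mem (pow_mem htm 2) (mul_mem (by
        have := IntermediateField.algebraMap_mem k⟮t⟯ (2 : k)
        rwa [map_ofNat] at this) hEm)
    have hym : y ∈ k⟮t⟯ := by
      have h4 : y = t * (x - E) := by rw [ht, div_mul_cancel₀ _ hxE]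
      rw [h4]
      exact mul_mem htm (sub_mem hxm hEm)
    rw [eq_top_iff, ← htop2, IntermediateField.adjoin_le_iff]
    rintro z (rfl | hz)
    · exact hxm
    · rw [Set.mem_singleton_iff.1 hz]
      exact hym

end

end Pool.Agent.TH143.GE
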