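import Pool.Agent.TH143.GE.Tow1
import Pool.Agent.TH143.GE.Wei
import Pool.Agent.TH143.GE.Orb

/-!
Fields of canonical degree zero as fields of sequences.
-/

set_option autoImplicit false

namespace Pool.Agent.TH143.GE

open MvPolynomial Filter Pool.Agent.TH143.DE Pool.Agent.TH143.HE Pool.Agent.TH143.TW FF
open Module

variable {a b : ℂ}

/-- normal form of the polynomials on the curve -/
theorem normal (a b : ℂ) (P : MvPolynomial (Fin 2) ℂ) : ∃ A B : Polynomial ℂ,
    ∀ (E : Type) [CommRing E] [Algebra ℂ E] (x y : E),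
      y ^ 2 = x ^ 3 + algebraMap ℂ E a * x + algebraMap ℂ E b →
      aeval ![x, y] P = Polynomial.aeval x A + Polynomial.aeval x B * y := by
  induction P using MvPolynomial.induction_on with
  | C c =>
    refine ⟨Polynomial.C c, 0, fun E _ _ x y _ => ?_⟩
    rw [← algebraMap_eq, AlgHom.commutes, Polynomial.aeval_C, map_zero, zero_mul, add_zero]
  | add p q hp hq =>
    obtain ⟨A, B, h⟩ := hp
    obtain ⟨A', B', h'⟩ := hq
    refine ⟨A + A', B + B', fun E _ _ x y hxy => ?_⟩
    rw [map_add, h E x y hxy, h' E x y hxy, map_add, map_add]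
    ring
  | mul_X p i hp =>
    obtain ⟨A, B, h⟩ := hp
    fin_cases i
    · refine ⟨A * Polynomial.X, B * Polynomial.X, fun E _ _ x y hxy => ?_⟩
      rw [map_mul, h E x y hxy, aeval_X, map_mul, map_mul, Polynomial.aeval_X]
      simp only [Fin.zero_eta, Matrix.cons_val_zero]
      ring
    · refine ⟨B * (Polynomial.X ^ 3 + Polynomial.C a * Polynomial.X + Polynomial.C b), A,
        fun E _ _ x y hxy => ?_⟩
      rw [map_mul, h E x y hxy, aeval_X, map_mul, map_add, map_add, map_pow, map_mul,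
        Polynomial.aeval_X, Polynomial.aeval_C, Polynomial.aeval_C]
      simp only [Fin.mk_one, Matrix.cons_val_one, Matrix.cons_val_fin_one]
      linear_combination (Polynomial.aeval x B) * hxy

section

variable {F : Type} [Field F] [Algebra ℂ F] {X Y : F}

theorem van (hXY : Y ^ 2 = X ^ 3 + algebraMap ℂ F a * X + algebraMap ℂ F b)
    (hind : ∀ A B : Polynomial ℂ, Polynomial.aeval X A + Polynomial.aeval X B * Y = 0 →
      A = 0 ∧ B = 0) {P : MvPolynomial (Fin 2) ℂ} (hP : aeval ![X, Y] P = 0)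
    {E : Type} [CommRing E] [Algebra ℂ E] {x y : E}
    (hxy : y ^ 2 = x ^ 3 + algebraMap ℂ E a * x + algebraMap ℂ E b) : aeval ![x, y] P = 0 := by
  obtain ⟨A, B, h⟩ := normal a b P
  rw [h F X Y hXY] at hP
  obtain ⟨rfl, rfl⟩ := hind A B hP
  rw [h E x y hxy, map_zero, zero_mul, add_zero]

theorem nonvan (hXY : Y ^ 2 = X ^ 3 + algebraMap ℂ F a * X + algebraMap ℂ F b)
    (hind : ∀ A B : Polynomial ℂ, Polynomial.aeval X A + Polynomial.aeval X B * Y = 0 →
      A = 0 ∧ B = 0) {P : MvPolynomial (Fin 2) ℂ} (hP : aeval ![X, Y] P ≠ 0) :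
    ∃ n : Polynomial ℂ, n ≠ 0 ∧ ∀ x y : ℂ, y ^ 2 = x ^ 3 + a * x + b → aeval ![x, y] P = 0 →
      n.eval x = 0 := by
  obtain ⟨A, B, h⟩ := normal a b P
  have h0 := h F X Y hXY
  refine ⟨A ^ 2 - B ^ 2 * (Polynomial.X ^ 3 + Polynomial.C a * Polynomial.X + Polynomial.C b),
    fun hn => ?_, fun x y hxy h1 => ?_⟩
  · have h1 := congrArg (Polynomial.aeval X) hn
    rw [map_sub, map_pow, map_mul, map_pow, map_add, map_add, map_pow, map_mul,
      Polynomial.aeval_X, Polynomial.aeval_C, Polynomial.aeval_C, map_zero, ← hXY] at h1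
    have h2 : (Polynomial.aeval X A + Polynomial.aeval X B * Y) *
        (Polynomial.aeval X A + Polynomial.aeval X (-B) * Y) = 0 := by
      rw [map_neg]
      linear_combination h1
    rcases mul_eq_zero.1 h2 with h3 | h3
    · rw [← h0] at h3
      exact hP h3
    · obtain ⟨h4, h5⟩ := hind A (-B) h3
      apply hP
      rw [h0, h4, neg_eq_zero.1 h5, map_zero, zero_mul, add_zero]
  · have h2 := h ℂ x y hxy
    rw [h1, Polynomial.coe_aeval_eq_eval] at h2
    simp only [Polynomial.eval_sub, Polynomial.eval_pow, Polynomial.eval_mul, Polynomial.eval_add,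
      Polynomial.eval_X, Polynomial.eval_C]
    rw [← hxy]
    linear_combination (y * B.eval x - A.eval x) * h2

variable {x y : ℕ → ℂ}

/-- the polynomial expressions in the two sequences -/
noncomputable def Gv (x y : ℕ → ℂ) : MvPolynomial (Fin 2) ℂ →ₐ[ℂ] GG := aeval ![gg x, gg y]

theorem Gv_eq (P : MvPolynomial (Fin 2) ℂ) :
    Gv x y P = gg fun m => aeval ![x m, y m] P := by
  unfold Gv
  induction P using MvPolynomial.induction_on with
  | C c =>
    rw [← algebraMap_eq, AlgHom.commutes]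
    simp only [AlgHom.commutes]
    exact (gg.commutes c).symm
  | add p q hp hq =>
    rw [map_add, hp, hq, ← map_add]
    congr 1
    funext m
    rw [Pi.add_apply, map_add]
  | mul_X p i hp =>
    rw [map_mul, hp, aeval_X]
    have h1 : ![gg x, gg y] i = gg (![x, y] i) := by
      fin_cases i <;> rfl
    rw [h1, ← map_mul]
    congr 1
    funext m
    rw [Pi.mul_apply, map_mul, aeval_X]
    congr 1
    fin_cases i <;> rfl

theorem curve_gg (hxy : ∀ m, y m ^ 2 = x m ^ 3 + a * x m + b) :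
    (gg y) ^ 2 = (gg x) ^ 3 + algebraMap ℂ GG a * gg x + algebraMap ℂ GG b := by
  rw [← gg.commutes a, ← gg.commutes b, ← map_pow, ← map_pow, ← map_mul, ← map_add, ← map_add]
  congr 1
  funext m
  exact hxy m

theorem Gv_unit (hXY : Y ^ 2 = X ^ 3 + algebraMap ℂ F a * X + algebraMap ℂ F b)
    (hind : ∀ A B : Polynomial ℂ, Polynomial.aeval X A + Polynomial.aeval X B * Y = 0 →
      A = 0 ∧ B = 0) (hinj : Function.Injective x) (hxy : ∀ m, y m ^ 2 = x m ^ 3 + a * x m + b)
    {P : MvPolynomial (Fin 2) ℂ} (hP : aeval ![X, Y] P ≠ 0) : IsUnit (Gv x y P) := by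
  rw [Gv_eq]
  apply ne_unit
  obtain ⟨n, hn, h⟩ := nonvan hXY hind hP
  filter_upwards [ev_ne hinj hn] with m hm h0
  exact hm (h _ _ (hxy m) h0)

theorem Gv_zero (hXY : Y ^ 2 = X ^ 3 + algebraMap ℂ F a * X + algebraMap ℂ F b)
    (hind : ∀ A B : Polynomial ℂ, Polynomial.aeval X A + Polynomial.aeval X B * Y = 0 →
      A = 0 ∧ B = 0) (hxy : ∀ m, y m ^ 2 = x m ^ 3 + a * x m + b)
    {P : MvPolynomial (Fin 2) ℂ} (hP : aeval ![X, Y] P = 0) : Gv x y P = 0 :=
  van hXY hind hP (curve_gg hxy)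

/-- **The embedding of the field in the germs of sequences.** -/
theorem exists_j (hXY : Y ^ 2 = X ^ 3 + algebraMap ℂ F a * X + algebraMap ℂ F b)
    (hind : ∀ A B : Polynomial ℂ, Polynomial.aeval X A + Polynomial.aeval X B * Y = 0 →
      A = 0 ∧ B = 0)
    (hgen : ∀ f : F, ∃ r s : MvPolynomial (Fin 2) ℂ, f = aeval ![X, Y] r / aeval ![X, Y] s)
    (hinj : Function.Injective x) (hxy : ∀ m, y m ^ 2 = x m ^ 3 + a * x m + b) :
    ∃ j : F →ₐ[ℂ] GG, ∀ P : MvPolynomial (Fin 2) ℂ, j (aeval ![X, Y] P) = Gv x y P := by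
  have hrs : ∀ f : F, ∃ r s : MvPolynomial (Fin 2) ℂ, aeval ![X, Y] s ≠ 0 ∧
      f * aeval ![X, Y] s = aeval ![X, Y] r := by
    intro f
    obtain ⟨r, s, h⟩ := hgen f
    by_cases h0 : aeval ![X, Y] s = 0
    · refine ⟨0, 1, ?_, ?_⟩
      · rw [map_one]
        exact one_ne_zero
      · rw [h, h0, div_zero, zero_mul, map_zero]
    · exact ⟨r, s, h0, by rw [h, div_mul_cancel₀ _ h0]⟩
  choose r s hs hr using hrs
  have hu : ∀ f, IsUnit (Gv x y (s f)) := fun f => Gv_unit hXY hind hinj hxy (hs f)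
  let J : F → GG := fun f => Gv x y (r f) * Ring.inverse (Gv x y (s f))
  have hJ : ∀ f, J f * Gv x y (s f) = Gv x y (r f) := by
    intro f
    change Gv x y (r f) * Ring.inverse (Gv x y (s f)) * Gv x y (s f) = _
    rw [mul_assoc, Ring.inverse_mul_cancel _ (hu f), mul_one]
  have hspec : ∀ (f : F) (p q : MvPolynomial (Fin 2) ℂ), aeval ![X, Y] q ≠ 0 →
      f * aeval ![X, Y] q = aeval ![X, Y] p → ∀ g : GG, g * Gv x y q = Gv x y p → J f = g := by
    intro f p q hq hpq g hg
    have h1 : Gv x y (r f * q) = Gv x y (p * s f) := by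
      rw [← sub_eq_zero, ← map_sub]
      apply Gv_zero hXY hind hxy
      rw [map_sub, map_mul, map_mul, ← hr, ← hpq]
      ring
    have hqu := Gv_unit hXY hind hinj hxy hq
    apply (hu f).mul_right_cancel
    apply hqu.mul_right_cancel
    rw [hJ]
    rw [map_mul, map_mul] at h1
    rw [h1, ← hg]
    ring
  have hP : ∀ P : MvPolynomial (Fin 2) ℂ, J (aeval ![X, Y] P) = Gv x y P := by
    intro P
    refine hspec _ P 1 ?_ ?_ _ ?_
    · rw [map_one]
      exact one_ne_zero
    · rw [map_one, mul_one]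
    · rw [map_one, mul_one]
  have hmul : ∀ f g, J (f * g) = J f * J g := by
    intro f g
    refine hspec _ (r f * r g) (s f * s g) ?_ ?_ _ ?_
    · rw [map_mul]
      exact mul_ne_zero (hs f) (hs g)
    · rw [map_mul, map_mul, ← hr, ← hr]
      ring
    · rw [map_mul, map_mul, ← hJ, ← hJ]
      ring
  have hadd : ∀ f g, J (f + g) = J f + J g := by
    intro f g
    refine hspec _ (r f * s g + r g * s f) (s f * s g) ?_ ?_ _ ?_
    · rw [map_mul]
      exact mul_ne_zero (hs f) (hs g)
    · rw [map_add, map_mul, map_mul, map_mul, ← hr, ← hr]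
      ring
    · rw [map_add, map_mul, map_mul, map_mul, ← hJ, ← hJ]
      ring
  have hc : ∀ c : ℂ, J (algebraMap ℂ F c) = algebraMap ℂ GG c := by
    intro c
    have h1 := hP (algebraMap ℂ _ c)
    rwa [AlgHom.commutes, AlgHom.commutes] at h1
  exact ⟨{ toFun := J
           map_one' := by rw [← map_one (algebraMap ℂ F), hc, map_one]
           map_mul' := hmul
           map_zero' := by rw [← map_zero (algebraMap ℂ F), hc, map_zero]
           map_add' := hadd
           commutes' := hc }, hP⟩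

end

end Pool.Agent.TH143.GE
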