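import Pool.Agent.TH143.GE.Form

/-!
Endomorphisms of function fields of genus at least two: there is a finite-dimensional stable space
of functions which contains a nonconstant function.
-/

set_option autoImplicit false

namespace Pool.Agent.TH143.GE

open FF Pool.Agent.W603.LV Module Polynomial

variable {k K : Type} [Field k] [CharZero k] [IsAlgClosed k] [Field K] [Algebra k K] [IsFF k K]

omit [CharZero k] [IsAlgClosed k] [IsFF k K] in
theorem E2_map (s : K →ₐ[k] K) (t y : K) (G : k[X][X]) : E2 (s t) (s y) G = s (E2 t y G) := by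
  have h1 : ((aeval (s t) : k[X] →ₐ[k] K) : k[X] →+* K) =
      (s : K →+* K).comp ((aeval t : k[X] →ₐ[k] K) : k[X] →+* K) := by
    ext
    · simp
    · simp
  rw [E2_apply, E2_apply, h1]
  exact (Polynomial.hom_eval₂ G ((aeval t : k[X] →ₐ[k] K) : k[X] →+* K) (s : K →+* K) y).symm

omit [IsAlgClosed k] in
/-- the chain rule for an endomorphism -/
theorem endo_chain (s : K →ₐ[k] K) {E : Derivation k K K} {t : K} (ht : Transcendental k t)
    (f : K) : E (s f) * s (E t) = s (E f) * E (s t) := by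
  obtain ⟨G, hG, hG'⟩ := exists_poly ht f
  have h1 := chain E t f G
  have h2 := chain E (s t) (s f) G
  rw [hG, map_zero] at h1
  rw [E2_map, E2_map, E2_map, hG, map_zero, map_zero] at h2
  have h3 := congrArg s h1
  rw [map_zero, map_add, map_mul, map_mul] at h3
  have h4 : s (E2 t f (derivative G)) ≠ 0 := by
    rw [Ne, map_eq_zero_iff s s.injective]
    exact hG'
  apply mul_left_cancel₀ h4
  linear_combination (s (E t)) * h2.symm - (E (s t)) * h3.symm

omit [CharZero k] [IsAlgClosed k] [IsFF k K] in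
theorem transcendental_map (s : K →ₐ[k] K) {t : K} (ht : Transcendental k t) :
    Transcendental k (s t) := by
  intro h
  apply ht
  obtain ⟨p, hp, h0⟩ := h
  refine ⟨p, hp, ?_⟩
  rw [Polynomial.aeval_algHom_apply] at h0
  exact (map_eq_zero_iff s s.injective).1 h0

theorem exists_c (s : K →ₐ[k] K) {E : Derivation k K K} (hE : E ≠ 0) :
    ∃ c : K, c ≠ 0 ∧ ∀ f : K, E (s f) = c * s (E f) := by
  obtain ⟨t, ht⟩ := IsFF.exists_transcendental (k := k) (K := K)
  have h1 := der_ne_zero hE ht
  have h2 := der_ne_zero hE (transcendental_map s ht)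
  have h3 : s (E t) ≠ 0 := by rwa [Ne, map_eq_zero_iff s s.injective]
  refine ⟨E (s t) / s (E t), div_ne_zero h2 h3, fun f => ?_⟩
  have h4 := endo_chain s (E := E) ht f
  field_simp
  linear_combination h4

theorem endo_mem (s : K →ₐ[k] K) {E : Derivation k K K} (hE : E ≠ 0) {c : K}
    (hc : ∀ f : K, E (s f) = c * s (E f)) {N : ℕ} {f : K} (hf : f ∈ LL (DN E hE N)) :
    s f * c ^ N ∈ LL (DN E hE N) :=
  @pull_reg k K K _ _ _ _ _ _ _ _ _ (s : K →+* K).toAlgebra
    (@IsScalarTower.mk k K K _ (s : K →+* K).toAlgebra.toSMul _ (fun a b x => by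
      change s (a • b) * x = a • (s b * x)
      rw [map_smul, smul_mul_assoc])) E hE E hE c hc N f hf

/-- **Stable spaces of functions.** -/
theorem exists_W (hpos : 0 < canDeg k K) (s : K →ₐ[k] K) :
    ∃ W : Submodule k K, W.FG ∧ (∀ w ∈ W, s w ∈ W) ∧ ∃ w ∈ W, Transcendental k w := by
  have hE : der k K ≠ 0 := der_ne
  obtain ⟨N, hN⟩ := exists_two (der k K) hE hpos
  obtain ⟨c, hc0, hc⟩ := exists_c s hE
  set V := LL (DN (der k K) hE N) with hV
  let T : V →ₗ[k] V :=
    { toFun := fun f => ⟨s f * c ^ N, endo_mem s hE hc f.2⟩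
      map_add' := fun f g => Subtype.ext (by
        change s ((f : K) + g) * c ^ N = s f * c ^ N + s g * c ^ N
        rw [map_add, add_mul])
      map_smul' := fun a f => Subtype.ext (by
        change s (a • (f : K)) * c ^ N = a • (s f * c ^ N)
        rw [map_smul, smul_mul_assoc]) }
  have hnt : Nontrivial V := by
    by_contra hcon
    rw [not_nontrivial_iff_subsingleton] at hcon
    have := Module.finrank_zero_of_subsingleton (R := k) (M := V)
    omega
  obtain ⟨μ, hμ⟩ := Module.End.exists_eigenvalue T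
  obtain ⟨v, hv⟩ := hμ.exists_hasEigenvector
  have hv1 : T v = μ • v := hv.apply_eq_smul
  have hv2 : (v : K) ≠ 0 := by
    intro h0
    exact hv.2 (Subtype.ext h0)
  have hv3 : s (v : K) * c ^ N = μ • (v : K) := congrArg Subtype.val hv1
  have hsv : s (v : K) ≠ 0 := by rwa [Ne, map_eq_zero_iff s s.injective]
  have hcN : c ^ N ≠ 0 := pow_ne_zero _ hc0
  have hμ0 : μ ≠ 0 := by
    rintro rfl
    rw [zero_smul] at hv3
    exact mul_ne_zero hsv hcN hv3
  let M : K →ₗ[k] K := LinearMap.mulRight k (v : K)⁻¹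
  refine ⟨V.map M, ?_, ?_, ?_⟩
  · exact Submodule.FG.map _ ((Submodule.fg_iff_finiteDimensional V).2 inferInstance)
  · rintro w ⟨f, hf, rfl⟩
    refine ⟨μ⁻¹ • (s f * c ^ N), V.smul_mem _ (endo_mem s hE hc hf), ?_⟩
    change (μ⁻¹ • (s f * c ^ N)) * (v : K)⁻¹ = s (f * (v : K)⁻¹)
    rw [map_mul, map_inv₀]
    have h1 : (v : K) = μ⁻¹ • (s (v : K) * c ^ N) := by
      rw [hv3, smul_smul, inv_mul_cancel₀ hμ0, one_smul]
    have h2 : μ⁻¹ • (s (v : K) * c ^ N) ≠ 0 := by rw [← h1]; exact hv2
    have h3 : ((v : K))⁻¹ = (μ⁻¹ • (s (v : K) * c ^ N))⁻¹ := congrArg _ h1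
    rw [h3, Algebra.smul_def, Algebra.smul_def]
    have h4 : algebraMap k K μ⁻¹ ≠ 0 := by
      rw [Ne, map_eq_zero]
      exact inv_ne_zero hμ0
    generalize algebraMap k K μ⁻¹ = a at h4 ⊢
    field_simp
  · by_contra hcon
    push Not at hcon
    have h1 : ∀ f ∈ V, ∃ a : k, f = a • (v : K) := by
      intro f hf
      have h2 := hcon (f * (v : K)⁻¹) ⟨f, hf, rfl⟩
      have h3 : IsAlgebraic k (f * (v : K)⁻¹) := by
        by_contra h4
        exact h2 h4
      have h4 := IsAlgClosed.degree_eq_one_of_irreducible k (minpoly.irreducible h3.isIntegral)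
      obtain ⟨a, ha⟩ := minpoly.mem_range_of_degree_eq_one k _ h4
      refine ⟨a, ?_⟩
      rw [Algebra.smul_def, ha, inv_mul_cancel_right₀ hv2]
    have h2 : finrank k V ≤ 1 := by
      apply finrank_le_one v
      intro w
      obtain ⟨a, ha⟩ := h1 w w.2
      exact ⟨a, Subtype.ext ha.symm⟩
    omega

end Pool.Agent.TH143.GE
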