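import Pool.Agent.TH143.TW.Tower
import Pool.Agent.TH143.GE.Endo

/-!
Fields of germs of sequences, as fields of coefficients.
-/

set_option autoImplicit false

namespace Pool.Agent.TH143.GE

open MvPolynomial Filter Pool.Agent.TH143.DE Pool.Agent.TH143.HE Pool.Agent.TH143.TW FF
open Module

/-- a ring of germs of sequences which is a field and which is closed under the shift -/
def IsFld (S : Subalgebra ℂ GG) : Prop :=
  (∀ x ∈ S, shG x ∈ S) ∧ ∀ x ∈ S, x ≠ 0 → ∃ y ∈ S, x * y = 1

/-- the sequences with germ in `S` -/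
noncomputable def BS (S : Subalgebra ℂ GG) : Subalgebra ℂ (ℕ → ℂ) := S.comap gg

theorem mem_BS {S : Subalgebra ℂ GG} {b : ℕ → ℂ} : b ∈ BS S ↔ gg b ∈ S := Iff.rfl

theorem gg_zero {b : ℕ → ℂ} : gg b = 0 ↔ ∀ᶠ m in atTop, b m = 0 := by
  rw [← map_zero gg, gg_eq]
  rfl

theorem IsFld.field {S : Subalgebra ℂ GG} (h : IsFld S) : CoefField (BS S) := by
  have hd : ∀ b ∈ BS S, (∀ᶠ m in atTop, b m = 0) ∨ ∃ y ∈ S, gg b * y = 1 := by
    intro b hb
    by_cases h0 : gg b = 0
    · exact Or.inl (gg_zero.1 h0)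
    · exact Or.inr (h.2 _ hb h0)
  refine ⟨⟨fun b hb => h.1 _ hb, fun b hb => ?_⟩, fun b hb => ?_⟩
  · rcases hd b hb with h1 | ⟨y, -, hy⟩
    · exact Or.inl h1
    · exact Or.inr (unit_ne (IsUnit.of_mul_eq_one y hy))
  · rcases hd b hb with h1 | ⟨y, hyS, hy⟩
    · have h2 : gg (fun m => (b m)⁻¹) = 0 := by
        rw [gg_zero]
        filter_upwards [h1] with m hm
        rw [hm, inv_zero]
      rw [mem_BS, h2]
      exact S.zero_mem
    · have hu := IsUnit.of_mul_eq_one y hy
      have hne := unit_ne hu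
      have h2 : gg b * gg (fun m => (b m)⁻¹) = 1 := by
        rw [← map_mul, ← map_one gg, gg_eq]
        filter_upwards [hne] with m hm
        rw [Pi.mul_apply, Pi.one_apply, mul_inv_cancel₀ hm]
      rw [mem_BS]
      have h3 : gg (fun m => (b m)⁻¹) = y := hu.mul_left_cancel (h2.trans hy.symm)
      rw [h3]
      exact hyS

variable {B : Subalgebra ℂ (ℕ → ℂ)}

noncomputable instance instCK (hB : CoefField B) : Algebra ℂ (KB B hB) :=
  ((cK hB).comp (algebraMap ℂ B)).toAlgebra

theorem alg_CK (hB : CoefField B) (c : ℂ) :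
    algebraMap ℂ (KB B hB) c = cK hB (algebraMap ℂ B c) := rfl

instance instTow (hB : CoefField B) : IsScalarTower ℂ (KB B hB) GG :=
  IsScalarTower.of_algebraMap_eq fun c => by
    rw [alg_CK, alg_cK]
    exact (gg.commutes c).symm

/-- the embedding of the field of coefficients -/
noncomputable def jK (hB : CoefField B) : KB B hB →ₐ[ℂ] GG := IsScalarTower.toAlgHom ℂ (KB B hB) GG

theorem jK_apply (hB : CoefField B) (z : KB B hB) : jK hB z = algebraMap (KB B hB) GG z := rfl

theorem jK_cK (hB : CoefField B) (b : B) : jK hB (cK hB b) = gg (b : ℕ → ℂ) := rfl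

theorem jK_inj (hB : CoefField B) : Function.Injective (jK hB) :=
  (algebraMap (KB B hB) GG).injective

theorem EC_le (S : Subalgebra ℂ GG) : EC ≤ BS S := by
  rintro f ⟨c, hc⟩
  have h1 : gg f = algebraMap ℂ GG c := by
    rw [← gg.commutes c, gg_eq]
    filter_upwards [hc] with m hm
    rw [hm]
    rfl
  rw [mem_BS, h1]
  exact S.algebraMap_mem c

section

variable {K : Type} [Field K] [Algebra ℂ K] {j : K →ₐ[ℂ] GG} {s : K →ₐ[ℂ] K}

/-- the image of a subfield -/
noncomputable def SF (j : K →ₐ[ℂ] GG) (F : IntermediateField ℂ K) : Subalgebra ℂ GG :=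
  F.toSubalgebra.map j

theorem mem_SF {F : IntermediateField ℂ K} {x : GG} :
    x ∈ SF j F ↔ ∃ z ∈ F, j z = x := Iff.rfl

theorem SF_fld (hs : ∀ z, j (s z) = shG (j z)) {F : IntermediateField ℂ K}
    (hF : ∀ z ∈ F, s z ∈ F) : IsFld (SF j F) := by
  constructor
  · rintro _ ⟨z, hz, rfl⟩
    exact ⟨s z, hF z hz, hs z⟩
  · rintro _ ⟨z, hz, rfl⟩ h0
    have hz0 : z ≠ 0 := by
      rintro rfl
      exact h0 (map_zero _)
    refine ⟨j z⁻¹, ⟨z⁻¹, F.inv_mem hz, rfl⟩, ?_⟩
    change j z * j z⁻¹ = 1
    rw [← map_mul, mul_inv_cancel₀ hz0, map_one]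

/-- the field generated by a finite-dimensional stable space is one step from the constants -/
theorem step_adjoin (hs : ∀ z, j (s z) = shG (j z)) {W : Submodule ℂ K} (hW : W.FG)
    (hst : ∀ w ∈ W, s w ∈ W) :
    Step EC (BS (SF j (IntermediateField.adjoin ℂ (W : Set K)))) := by
  classical
  obtain ⟨T, hT⟩ := hW
  choose u hu using fun z : K => gg_surj (j z)
  refine ⟨EC_le _, u '' (T : Set K), T.finite_toSet.image _, ?_, ?_, ?_⟩
  · rintro _ ⟨w, hw, rfl⟩
    apply linRec_of_LF EC_field
    rw [hu]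
    have hmem : ∀ z ∈ W, j z ∈ Submodule.span (KB EC EC_field) (j '' (T : Set K)) := by
      intro z hz
      rw [← hT] at hz
      induction hz using Submodule.span_induction with
      | mem x hx => exact Submodule.subset_span ⟨x, hx, rfl⟩
      | zero =>
        rw [map_zero]
        exact Submodule.zero_mem _
      | add x y _ _ hx hy =>
        rw [map_add]
        exact Submodule.add_mem _ hx hy
      | smul c x _ hx =>
        rw [map_smul]
        have h1 : c • j x = (algebraMap ℂ (KB EC EC_field) c) • j x :=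
          (algebraMap_smul (KB EC EC_field) c (j x)).symm
        rw [h1]
        exact Submodule.smul_mem _ _ hx
    refine ⟨Submodule.span (KB EC EC_field) (j '' (T : Set K)),
      Submodule.fg_span (T.finite_toSet.image _), ?_,
      span_stable (shK EC_field) (shG_alg EC_field) ?_⟩
    · exact Submodule.subset_span ⟨w, hw, rfl⟩
    · rintro _ ⟨x, hx, rfl⟩
      rw [← hs]
      apply hmem
      apply hst
      rw [← hT]
      exact Submodule.subset_span hx
  · rintro _ ⟨w, hw, rfl⟩
    refine ⟨w, IntermediateField.subset_adjoin _ _ ?_, (hu w).symm⟩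
    rw [← hT]
    exact Submodule.subset_span hw
  · rintro b ⟨z, hz, hzb⟩
    change j z = gg b at hzb
    have hz' : z ∈ IntermediateField.adjoin ℂ (T : Set K) := by
      have h1 : IntermediateField.adjoin ℂ (W : Set K) ≤
          IntermediateField.adjoin ℂ (T : Set K) := by
        rw [IntermediateField.adjoin_le_iff]
        intro w hw
        have hw' : w ∈ Submodule.span ℂ (T : Set K) := by
          rw [hT]
          exact hw
        have h2 : Submodule.span ℂ (T : Set K) ≤
            Subalgebra.toSubmodule (IntermediateField.adjoin ℂ (T : Set K)).toSubalgebra :=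
          Submodule.span_le.2 (IntermediateField.subset_adjoin _ _)
        exact h2 hw'
      exact h1 hz
    obtain ⟨p, hp, q, hq, hpq⟩ := IntermediateField.mem_adjoin_iff_div.1 hz'
    have hlift : ∀ z ∈ Algebra.adjoin ℂ (T : Set K),
        ∃ f ∈ Algebra.adjoin ℂ (u '' (T : Set K)), gg f = j z := by
      intro z hz
      have h1 : j z ∈ (Algebra.adjoin ℂ (T : Set K)).map j := ⟨z, hz, rfl⟩
      rw [AlgHom.map_adjoin] at h1
      have h2 : j '' (T : Set K) = gg '' (u '' (T : Set K)) := by
        rw [Set.image_image]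
        exact Set.image_congr fun w _ => (hu w).symm
      rw [h2, ← AlgHom.map_adjoin] at h1
      obtain ⟨f, hf, hfz⟩ := h1
      exact ⟨f, hf, hfz⟩
    by_cases hq0 : q = 0
    · refine ⟨0, Subalgebra.zero_mem _, 1, Subalgebra.one_mem _,
        Eventually.of_forall fun _ => one_ne_zero, ?_⟩
      rw [hq0, div_zero] at hpq
      rw [hpq, map_zero] at hzb
      filter_upwards [gg_zero.1 hzb.symm] with m hm
      rw [hm, zero_mul]
      rfl
    · obtain ⟨P, hP, hPp⟩ := hlift p hp
      obtain ⟨Q, hQ, hQq⟩ := hlift q hq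
      refine ⟨P, Algebra.adjoin_mono Set.subset_union_right hP, Q,
        Algebra.adjoin_mono Set.subset_union_right hQ, ?_, ?_⟩
      · apply unit_ne
        rw [hQq]
        exact (isUnit_iff_ne_zero.2 hq0).map j
      · have h1 : gg (b * Q) = gg P := by
          rw [map_mul, hPp, hQq, ← hzb, ← map_mul, hpq, div_mul_cancel₀ _ hq0]
        exact gg_eq.1 h1

end

end Pool.Agent.TH143.GE
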