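import Pool.Agent.W619.PQ.Genus
import Pool.Agent.Helper386.D5V.Helper399_FF4a
import Pool.Agent.Helper386.D5V.Helper386_FF_Riemann

/-!
Function fields of one variable: spaces of regular differential forms of weight `N`, their
dimensions, and pull-back.
-/

set_option autoImplicit false

namespace Pool.Agent.TH143.GE

open FF Pool.Agent.W603.LV Module Pool.Agent.W619.PQ

section

variable {k K : Type} [Field k] [CharZero k] [IsAlgClosed k] [Field K] [Algebra k K] [IsFF k K]

/-- The divisor `N` times the canonical divisor of the form dual to the derivation `E`. -/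
noncomputable def DN (E : Derivation k K K) (hE : E ≠ 0) (N : ℕ) : Place k K →₀ ℤ :=
  Finsupp.ofSupportFinite (fun P => -((N : ℤ) * vo P E)) ((vo_finite hE).subset fun P hP h0 => hP (by
    change -((N : ℤ) * vo P E) = 0
    have h1 : vo P E = 0 := h0
    rw [h1, mul_zero, neg_zero]))

theorem DN_apply (E : Derivation k K K) (hE : E ≠ 0) (N : ℕ) (P : Place k K) :
    DN E hE N P = -((N : ℤ) * vo P E) := rfl

theorem mem_DN {E : Derivation k K K} {hE : E ≠ 0} {N : ℕ} {f : K} :
    f ∈ LL (DN E hE N) ↔ f = 0 ∨ ∀ P : Place k K, (N : ℤ) * vo P E ≤ P.ord f := by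
  rw [mem_LL]
  simp only [DN_apply, neg_neg]

theorem ddeg_DN (E : Derivation k K K) (hE : E ≠ 0) (N : ℕ) :
    ddeg (DN E hE N) = N * canDeg k K := by
  classical
  have h1 := canDeg_finset (k := k) hE (vo_finite hE).toFinset (fun P hP => by
    rw [Set.Finite.mem_toFinset]
    exact hP)
  unfold ddeg
  rw [Finsupp.sum_of_support_subset (s := (vo_finite hE).toFinset)]
  · have h2 : ∀ P ∈ (vo_finite hE).toFinset, DN E hE N P * (P.deg : ℤ) = -((N : ℤ) * vo P E) := by
      intro P _
      rw [deg_one, DN_apply]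
      simp
    rw [Finset.sum_congr rfl h2, Finset.sum_neg_distrib, ← Finset.mul_sum, h1]
    ring
  · intro P hP
    rw [Finsupp.mem_support_iff, DN_apply] at hP
    rw [Set.Finite.mem_toFinset]
    intro h0
    apply hP
    have h2 : vo P E = 0 := h0
    rw [h2, mul_zero, neg_zero]
  · intro P _
    simp

/-- On a curve of genus at least two there are many pluricanonical forms. -/
theorem exists_two (E : Derivation k K K) (hE : E ≠ 0) (hpos : 0 < canDeg k K) :
    ∃ N : ℕ, 2 ≤ finrank k (LL (DN E hE N)) := by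
  obtain ⟨γ, N', hγ, -⟩ := riemann k K
  refine ⟨(γ + 2).toNat, ?_⟩
  have h1 := hγ (DN E hE (γ + 2).toNat)
  rw [ddeg_DN] at h1
  unfold ell at h1
  have h2 : (γ + 2 : ℤ) ≤ ((γ + 2).toNat : ℤ) := Int.self_le_toNat _
  have h3 : ((γ + 2).toNat : ℤ) ≤ ((γ + 2).toNat : ℤ) * canDeg k K := by
    have h4 : (0 : ℤ) ≤ ((γ + 2).toNat : ℤ) := Int.natCast_nonneg _
    nlinarith
  have h5 : (2 : ℤ) ≤ (finrank k (LL (DN E hE (γ + 2).toNat)) : ℤ) := by linarith
  exact_mod_cast h5

/-- A curve of negative canonical degree is rational. -/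
theorem rational_of_neg (h : canDeg k K < 0) : ∃ t : K, IntermediateField.adjoin k {t} = ⊤ := by
  by_contra hcon
  obtain ⟨f, hf0, hf⟩ := exists_regular (k := k) (F := K) hcon der_ne
  have h1 := sum_ord (k := k) f
  have h2 : (∑ᶠ P : Place k K, vo P (der k K)) ≤ ∑ᶠ P : Place k K, P.ord f := by
    classical
    let T : Finset (Place k K) := (vo_finite (der_ne (k := k) (K := K))).toFinset ∪
      (finite_support (k := k) f).toFinset
    rw [finsum_eq_sum_of_support_subset (s := T), finsum_eq_sum_of_support_subset (s := T)]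
    · exact Finset.sum_le_sum fun P _ => hf P
    · intro P hP
      rw [Finset.mem_coe, Finset.mem_union, Set.Finite.mem_toFinset, Set.Finite.mem_toFinset]
      exact Or.inr hP
    · intro P hP
      rw [Finset.mem_coe, Finset.mem_union, Set.Finite.mem_toFinset, Set.Finite.mem_toFinset]
      exact Or.inl hP
  unfold canDeg at h
  linarith

end

theorem alg_of_ff (k K L : Type) [Field k] [Field K] [Algebra k K] [IsFF k K]
    [Field L] [Algebra k L] [IsFF k L] [Algebra K L] [IsScalarTower k K L] :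
    Algebra.IsAlgebraic K L := by
  have h1 := _root_.trdeg_add_eq k K (A := L)
  rw [IsFF.trdeg (k := k) (K := K), IsFF.trdeg (k := k) (K := L)] at h1
  have h2 : Algebra.trdeg K L = 0 := by
    have h3 : (1 : Cardinal) + Algebra.trdeg K L = 1 + 0 := by rw [h1, add_zero]
    exact Cardinal.eq_of_add_eq_add_left h3 Cardinal.one_lt_aleph0
  exact _root_.trdeg_eq_zero_iff.1 h2

section

variable {k K L : Type} [Field k] [CharZero k] [IsAlgClosed k] [Field K] [Algebra k K] [IsFF k K]
  [Field L] [Algebra k L] [IsFF k L] [Algebra K L] [IsScalarTower k K L]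

omit [CharZero k] [IsAlgClosed k] in
theorem ord_nontrivial (P : Place k L) : ∃ f : K, P.ord (algebraMap K L f) ≠ 0 := by
  by_contra hcon
  push Not at hcon
  have halg : Algebra.IsAlgebraic K L := alg_of_ff k K L
  have h1 : P.Reg (unif P)⁻¹ := P.reg_of_isIntegral (A := K) (fun a => by
    by_cases h0 : algebraMap K L a = 0
    · exact Or.inl h0
    · exact Or.inr (hcon a).ge) (halg.isAlgebraic _).isIntegral
  have hu := ord_unif P
  have hu0 : unif P ≠ 0 := by
    intro h0
    rw [h0, P.ord_zero] at hu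
    omega
  rcases h1 with h1 | h1
  · exact inv_ne_zero hu0 h1
  · rw [P.ord_inv, hu] at h1
    omega

/-- **Pull-back of regular forms.** -/
theorem pull_reg {E : Derivation k K K} (hE : E ≠ 0) {E' : Derivation k L L} (hE' : E' ≠ 0) {c : L}
    (hc : ∀ f : K, E' (algebraMap K L f) = c * algebraMap K L (E f)) {N : ℕ} {f : K}
    (hf : f ∈ LL (DN E hE N)) : algebraMap K L f * c ^ N ∈ LL (DN E' hE' N) := by
  rw [mem_DN] at hf ⊢
  by_cases hf0 : f = 0
  · left
    rw [hf0, map_zero, zero_mul]
  have hf1 := hf.resolve_left hf0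
  right
  intro P
  obtain ⟨e, v, hov⟩ := exists_over (K := K) P (ord_nontrivial P)
  have hu := ord_unif v
  have he : P.ord (algebraMap K L (unif v)) = e := by
    rw [hov.2, hu, mul_one]
  have he0 : (0 : ℤ) < e := by exact_mod_cast hov.1
  obtain ⟨h1, h2⟩ := ord_der P hE' (f := algebraMap K L (unif v)) (by rw [he]; omega)
  rw [hc] at h1 h2
  have hc0 : c ≠ 0 := left_ne_zero_of_mul h1
  have hE0 : algebraMap K L (E (unif v)) ≠ 0 := right_ne_zero_of_mul h1
  rw [P.ord_mul hc0 hE0, hov.2, he] at h2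
  have h3 : v.ord (E (unif v)) = vo v E := rfl
  rw [h3] at h2
  have hfL : algebraMap K L f ≠ 0 := by rwa [Ne, map_eq_zero]
  rw [P.ord_mul hfL (pow_ne_zero _ hc0), P.ord_pow, hov.2]
  have h4 := hf1 v
  have h5 : (e : ℤ) * ((N : ℤ) * vo v E) ≤ e * v.ord f := mul_le_mul_of_nonneg_left h4 he0.le
  have h6 : (N : ℤ) * (P.ord c + e * vo v E) = N * (e - 1 + vo P E') := by rw [h2]
  have h7 : (0 : ℤ) ≤ N := Int.natCast_nonneg _
  nlinarith

end

end Pool.Agent.TH143.GE
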