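import Pool.Agent.TH143.GE.Pos

/-!
Sequences over function fields of one variable.
-/

set_option autoImplicit false

namespace Pool.Agent.TH143.GE

open MvPolynomial Filter Pool.Agent.TH143.DE Pool.Agent.TH143.HE Pool.Agent.TH143.TW FF
open Module Pool.Agent.W603.LV Pool.Agent.W619.PQ

variable {N : ℕ} {R : Type} [CommRing R]

/-- All nonconstant points of the variety of `I` over function fields of genus one lie in the
variety of `I'`: the number `canDeg ℂ F` is `2 g - 2`, where `g` is the genus of `F`. -/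
def GenusOneIn (φ : R →+* ℂ) (I I' : Ideal (MvPolynomial (Fin (N + 1)) R)) : Prop :=
  ∀ (F : Type) [Field F] [Algebra ℂ F] [IsFF ℂ F], canDeg ℂ F = 0 →
    ∀ y : Fin (N + 1) → F, y ≠ 0 → IsPtP ((algebraMap ℂ F).comp φ) I y →
      IsPtP ((algebraMap ℂ F).comp φ) I' y ∨
        ∃ (v : F) (c : Fin (N + 1) → ℂ), ∀ i, y i = algebraMap ℂ F (c i) * v

section

variable {K : Type} [Field K] [Algebra ℂ K] {j : K →ₐ[ℂ] GG} {s : K →ₐ[ℂ] K}

theorem j_eval₂ {φ : R →+* ℂ} {x : ℕ → Fin (N + 1) → ℂ} {Y : Fin (N + 1) → K}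
    (hY : ∀ i, j (Y i) = gg fun m => x m i) (G : MvPolynomial (Fin (N + 1)) R) :
    j (eval₂ ((algebraMap ℂ K).comp φ) Y G) = gg fun m => eval₂ φ (x m) G := by
  induction G using MvPolynomial.induction_on with
  | C a =>
    rw [eval₂_C, RingHom.comp_apply, j.commutes]
    simp only [eval₂_C]
    exact (gg.commutes (φ a)).symm
  | add p q hp hq =>
    rw [eval₂_add, map_add, hp, hq, ← map_add]
    congr 1
    funext m
    rw [Pi.add_apply, eval₂_add]
  | mul_X p i hp =>
    rw [eval₂_mul, eval₂_X, map_mul, hp, hY, ← map_mul]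
    congr 1
    funext m
    rw [Pi.mul_apply, eval₂_mul, eval₂_X]

theorem j_inj : Function.Injective j := j.toRingHom.injective

/-- points over the field and points of the sequence -/
theorem isPtP_ev {φ : R →+* ℂ} {I : Ideal (MvPolynomial (Fin (N + 1)) R)}
    {x : ℕ → Fin (N + 1) → ℂ} {Y : Fin (N + 1) → K}
    (hY : ∀ i, j (Y i) = gg fun m => x m i)
    (h : IsPtP ((algebraMap ℂ K).comp φ) I Y) : ∀ᶠ m in atTop, IsPtP φ I (x m) := by
  classical
  let S : Set (MvPolynomial (Fin (N + 1)) ℂ) :=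
    {G | ∃ G0 ∈ I, (∃ d, G0.IsHomogeneous d) ∧ G = MvPolynomial.map φ G0}
  obtain ⟨T, hTS, hT⟩ := (Submodule.fg_span_iff_fg_span_finset_subset S).1
    (IsNoetherian.noetherian (Submodule.span (MvPolynomial (Fin (N + 1)) ℂ) S))
  have h1 : ∀ᶠ m in atTop, ∀ G ∈ T, eval (x m) G = 0 := by
    rw [Finset.eventually_all]
    intro G hG
    obtain ⟨G0, hG0, hG0h, rfl⟩ := hTS hG
    have h2 := h G0 hG0 hG0h
    have h3 := j_eval₂ (φ := φ) hY G0
    rw [h2, map_zero, eq_comm, gg_zero] at h3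
    filter_upwards [h3] with m hm
    rw [eval_map]
    exact hm
  filter_upwards [h1] with m hm
  intro G hG hGh
  have h2 : Submodule.span (MvPolynomial (Fin (N + 1)) ℂ) S ≤
      RingHom.ker (eval (x m) : MvPolynomial (Fin (N + 1)) ℂ →+* ℂ) := by
    rw [hT]
    exact Submodule.span_le.2 fun G hG => hm G hG
  have h3 := h2 (Submodule.subset_span ⟨G, hG, hGh, rfl⟩)
  rw [RingHom.mem_ker, eval_map] at h3
  exact h3

theorem ev_isPtP {φ : R →+* ℂ} {I : Ideal (MvPolynomial (Fin (N + 1)) R)}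
    {x : ℕ → Fin (N + 1) → ℂ} {Y : Fin (N + 1) → K}
    (hY : ∀ i, j (Y i) = gg fun m => x m i)
    (h : ∀ᶠ m in atTop, IsPtP φ I (x m)) : IsPtP ((algebraMap ℂ K).comp φ) I Y := by
  intro G hG hGh
  apply j_inj (j := j)
  rw [j_eval₂ hY, map_zero, gg_zero]
  filter_upwards [h] with m hm
  exact hm G hG hGh

omit [CommRing R] in
/-- common denominators -/
theorem exists_den {t : K} (ht : IntermediateField.adjoin ℂ {t} = ⊤) {n : ℕ} (Y : Fin n → K) :
    ∃ (p : Fin n → Polynomial ℂ) (D : K), D ≠ 0 ∧ ∀ i, Polynomial.aeval t (p i) = D * Y i := by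
  classical
  have h1 : ∀ i, ∃ r s : Polynomial ℂ, Polynomial.aeval t s ≠ 0 ∧
      Y i = Polynomial.aeval t r / Polynomial.aeval t s := by
    intro i
    have h2 : Y i ∈ IntermediateField.adjoin ℂ {t} := by
      rw [ht]
      exact IntermediateField.mem_top
    obtain ⟨r, s, hrs⟩ := (IntermediateField.mem_adjoin_simple_iff ℂ (Y i)).1 h2
    by_cases h0 : Polynomial.aeval t s = 0
    · refine ⟨0, 1, ?_, ?_⟩
      · rw [map_one]
        exact one_ne_zero
      · rw [hrs, h0, div_zero, map_zero, zero_div]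
    · exact ⟨r, s, h0, hrs⟩
  choose r s hs hY using h1
  refine ⟨fun i => r i * ∏ k ∈ Finset.univ.erase i, s k, ∏ k, Polynomial.aeval t (s k),
    Finset.prod_ne_zero_iff.2 fun k _ => hs k, fun i => ?_⟩
  rw [map_mul, map_prod, ← Finset.mul_prod_erase Finset.univ _ (Finset.mem_univ i), hY i]
  have := hs i
  field_simp

omit [CommRing R] in
theorem aeval_prop {p : Fin (N + 1) → Polynomial ℂ} (h : ¬ NonConst p) {t : K} {i0 : Fin (N + 1)}
    (h0 : Polynomial.aeval t (p i0) ≠ 0) :
    ∃ c : Fin (N + 1) → ℂ, ∀ i, Polynomial.aeval t (p i) =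
      algebraMap ℂ K (c i) * Polynomial.aeval t (p i0) := by
  unfold NonConst at h
  push Not at h
  have hp : p i0 ≠ 0 := by
    intro h1
    rw [h1, map_zero] at h0
    exact h0 rfl
  obtain ⟨v, hv⟩ : ∃ v, (p i0).eval v ≠ 0 := by
    by_contra hcon
    push Not at hcon
    apply hp
    apply Polynomial.funext
    intro u
    rw [hcon u, Polynomial.eval_zero]
  refine ⟨fun i => (p i).eval v / (p i0).eval v, fun i => ?_⟩
  have h2 : p i * Polynomial.C ((p i0).eval v) = p i0 * Polynomial.C ((p i).eval v) := by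
    apply Polynomial.funext
    intro u
    rw [Polynomial.eval_mul, Polynomial.eval_C, Polynomial.eval_mul, Polynomial.eval_C]
    exact h i i0 u v
  have h3 := congrArg (Polynomial.aeval t) h2
  rw [map_mul, map_mul, Polynomial.aeval_C, Polynomial.aeval_C] at h3
  have h4 : algebraMap ℂ K ((p i0).eval v) ≠ 0 := by
    rwa [Ne, map_eq_zero]
  rw [map_div₀]
  field_simp
  linear_combination h3

/-- The case of genus zero. -/
theorem rat_case {φ : R →+* ℂ} {I I' : Ideal (MvPolynomial (Fin (N + 1)) R)}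
    (h : RatCurvesIn φ I I') {t : K} (htr : Transcendental ℂ t)
    (ht : IntermediateField.adjoin ℂ {t} = ⊤) {Y : Fin (N + 1) → K} (hY0 : Y ≠ 0)
    (hX : IsPtP ((algebraMap ℂ K).comp φ) I Y) :
    IsPtP ((algebraMap ℂ K).comp φ) I' Y ∨
        ∃ (v : K) (c : Fin (N + 1) → ℂ), ∀ i, Y i = algebraMap ℂ K (c i) * v := by
  obtain ⟨p, D, hD, hp⟩ := exists_den ht Y
  have hev : ∀ G : MvPolynomial (Fin (N + 1)) R,
      Polynomial.aeval t (eval₂ (Polynomial.C.comp φ) p G) =
        eval₂ ((algebraMap ℂ K).comp φ) (fun i => D * Y i) G := by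
    intro G
    have h1 := hom_eval₂ G (Polynomial.C.comp φ)
      ((Polynomial.aeval t : Polynomial ℂ →ₐ[ℂ] K) : Polynomial ℂ →+* K) p
    have h2 : ((Polynomial.aeval t : Polynomial ℂ →ₐ[ℂ] K) : Polynomial ℂ →+* K).comp
        (Polynomial.C.comp φ) = (algebraMap ℂ K).comp φ := by
      ext r
      simp
    have h3 : (fun i => ((Polynomial.aeval t : Polynomial ℂ →ₐ[ℂ] K) : Polynomial ℂ →+* K) (p i)) =
        fun i => D * Y i := by
      funext i
      exact hp i
    rw [h2, h3] at h1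
    exact h1
  have hev' : ∀ (G : MvPolynomial (Fin (N + 1)) R) (u : ℂ),
      Polynomial.eval u (eval₂ (Polynomial.C.comp φ) p G) =
        eval₂ φ (fun i => (p i).eval u) G := by
    intro G u
    have h1 := hom_eval₂ G (Polynomial.C.comp φ) (Polynomial.evalRingHom u) p
    have h2 : (Polynomial.evalRingHom u).comp (Polynomial.C.comp φ) = φ := by
      ext r
      simp
    rw [h2] at h1
    exact h1
  by_cases hnc : NonConst p
  · left
    intro G hG hGh
    have h1 := h p (fun u G hG hGh => by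
      obtain ⟨d, hd⟩ := hGh
      rw [← hev']
      have h2 : eval₂ (Polynomial.C.comp φ) p G = 0 := by
        by_contra hne
        apply htr
        refine ⟨_, hne, ?_⟩
        rw [hev, eval₂_smul_homog _ D Y hd, hX G hG ⟨d, hd⟩, mul_zero]
      rw [h2, Polynomial.eval_zero]) hnc
    obtain ⟨d, hd⟩ := hGh
    have h2 : eval₂ (Polynomial.C.comp φ) p G = 0 := by
      apply Polynomial.funext
      intro u
      rw [hev', Polynomial.eval_zero]
      exact h1 u G hG ⟨d, hd⟩
    have h3 := hev G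
    rw [h2, map_zero, eval₂_smul_homog _ D Y hd] at h3
    exact (mul_eq_zero.1 h3.symm).resolve_left (pow_ne_zero _ hD)
  · right
    obtain ⟨i0, hi0⟩ : ∃ i0, Y i0 ≠ 0 := by
      by_contra hcon
      push Not at hcon
      exact hY0 (funext hcon)
    obtain ⟨c, hc⟩ := aeval_prop hnc (t := t) (i0 := i0) (by
      rw [hp]
      exact mul_ne_zero hD hi0)
    refine ⟨Y i0, c, fun i => ?_⟩
    have h1 := hc i
    rw [hp, hp] at h1
    apply mul_left_cancel₀ hD
    linear_combination h1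

/-- constant points -/
theorem per_const {x : ℕ → Fin (N + 1) → ℂ} {Y : Fin (N + 1) → K}
    (hY : ∀ i, j (Y i) = gg fun m => x m i)
    (h : ∃ (v : K) (c : Fin (N + 1) → ℂ), ∀ i, Y i = algebraMap ℂ K (c i) * v) : Per x := by
  obtain ⟨v, c, h⟩ := h
  obtain ⟨V, hV⟩ := gg_surj (j v)
  have h1 : ∀ᶠ m in atTop, ∀ i, x m i = c i * V m := by
    rw [eventually_all]
    intro i
    have h2 : (gg fun m => x m i) = gg fun m => c i * V m := by
      rw [← hY, h i, map_mul, j.commutes, ← gg.commutes, ← hV, ← map_mul]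
      rfl
    exact gg_eq.1 h2
  obtain ⟨m0, hm0⟩ := eventually_atTop.1 h1
  refine ⟨1, m0, one_pos, fun m hm a b => ?_⟩
  rw [hm0 m hm, hm0 m hm, hm0 (m + 1) (by omega), hm0 (m + 1) (by omega)]
  ring

/-- **Sequences over a field of transcendence degree one.** -/
theorem per_fld {φ : R →+* ℂ} {I I' : Ideal (MvPolynomial (Fin (N + 1)) R)}
    (h : RatCurvesIn φ I I') (hE : GenusOneIn φ I I') (hs : ∀ z, j (s z) = shG (j z))
    (hess : Algebra.EssFiniteType ℂ K) (htd : Algebra.trdeg ℂ K ≤ 1)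
    {x : ℕ → Fin (N + 1) → ℂ} {Y : Fin (N + 1) → K}
    (hY : ∀ i, j (Y i) = gg fun m => x m i)
    (hne : ∀ᶠ m in atTop, x m ≠ 0)
    (hX : ∀ᶠ m in atTop, IsPtP φ I (x m))
    (hZ : ∀ᶠ m in atTop, ¬ IsPtP φ I' (x m)) : Per x := by
  by_cases hc : ∃ (v : K) (c : Fin (N + 1) → ℂ), ∀ i, Y i = algebraMap ℂ K (c i) * v
  · exact per_const hY hc
  have hY0 : Y ≠ 0 := by
    rintro rfl
    exact hc ⟨0, 0, fun i => by rw [mul_zero]; rfl⟩
  have hff : IsFF ℂ K := by
    refine ⟨hess, le_antisymm htd ?_⟩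
    by_contra hlt
    rw [not_le, Cardinal.lt_one_iff, _root_.trdeg_eq_zero_iff] at hlt
    apply hc
    have h1 : ∀ z : K, ∃ a : ℂ, algebraMap ℂ K a = z := by
      intro z
      have h3 : IsAlgebraic ℂ z := hlt.isAlgebraic z
      have h4 := IsAlgClosed.degree_eq_one_of_irreducible ℂ (minpoly.irreducible h3.isIntegral)
      exact minpoly.mem_range_of_degree_eq_one ℂ _ h4
    choose a ha using h1
    exact ⟨1, fun i => a (Y i), fun i => by rw [ha, mul_one]⟩
  have hfin : ∀ _ : IsPtP ((algebraMap ℂ K).comp φ) I' Y ∨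
        ∃ (v : K) (c : Fin (N + 1) → ℂ), ∀ i, Y i = algebraMap ℂ K (c i) * v, Per x := by
    intro h1
    rcases h1 with h1 | h1
    · obtain ⟨m, hm1, hm2⟩ := ((isPtP_ev hY h1).and hZ).exists
      exact absurd hm1 hm2
    · exact absurd h1 hc
  rcases lt_trichotomy (canDeg ℂ K) 0 with h0 | h0 | h0
  · obtain ⟨t, ht⟩ := rational_of_neg h0
    have htr : Transcendental ℂ t := by
      intro halg
      have h1 : Algebra.IsAlgebraic ℂ K := by
        have h2 := IntermediateField.isAlgebraic_adjoin_simple halg.isIntegral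
        rw [ht] at h2
        exact ⟨fun z => by
          have h3 := h2.isAlgebraic (⟨z, IntermediateField.mem_top⟩ : (⊤ : IntermediateField ℂ K))
          exact (isAlgebraic_algHom_iff (IntermediateField.val ⊤) Subtype.val_injective).2 h3⟩
      have h2 := IsFF.trdeg (k := ℂ) (K := K)
      rw [_root_.trdeg_eq_zero_iff.2 h1] at h2
      exact zero_ne_one h2
    exact hfin (rat_case h htr ht hY0 (ev_isPtP hY hX))
  · exact hfin (hE K h0 Y hY0 (ev_isPtP hY hX))
  · exact per_pos h hs h0 hY hne hX hZ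

end

end Pool.Agent.TH143.GE
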