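import Pool.Agent.TH143.GE.Emb

/-!
Fields of canonical degree zero are fields of coefficients.
-/

set_option autoImplicit false

namespace Pool.Agent.TH143.GE

open MvPolynomial Filter Pool.Agent.TH143.DE Pool.Agent.TH143.HE Pool.Agent.TH143.TW FF
open Module Pool.Agent.W603.LV

theorem aeval_gg {n : ℕ} (c : Fin n → ℕ → ℂ) (P : MvPolynomial (Fin n) ℂ) :
    aeval (fun i => gg (c i)) P = gg fun m => eval (fun i => c i m) P := by
  induction P using MvPolynomial.induction_on with
  | C z =>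
    rw [← algebraMap_eq, AlgHom.commutes]
    simp only [algebraMap_eq, eval_C]
    exact (gg.commutes z).symm
  | add p q hp hq =>
    rw [map_add, hp, hq, ← map_add]
    congr 1
    funext m
    rw [Pi.add_apply, map_add]
  | mul_X p i hp =>
    rw [map_mul, hp, aeval_X, ← map_mul]
    congr 1
    funext m
    rw [Pi.mul_apply, map_mul, eval_X]

theorem shG_const (c : ℂ) : shG (algebraMap ℂ GG c) = algebraMap ℂ GG c := by
  rw [← gg.commutes c, shG_gg]
  rfl

theorem gg_fun_pow (f : ℕ → ℂ) (n : ℕ) : (gg f) ^ n = gg fun m => f m ^ n := by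
  rw [← map_pow]
  rfl

variable {F : Type} [Field F] [Algebra ℂ F] [IsFF ℂ F]

theorem trLe_range (j : F →ₐ[ℂ] GG) : TrLe (BS j.range) 1 := by
  intro c hc
  choose β hβ using hc
  have hβ' : ∀ i, j (β i) = gg (c i) := hβ
  have hnot : ¬ AlgebraicIndependent ℂ β := by
    intro hai
    have h1 := hai.lift_cardinalMk_le_trdeg
    rw [IsFF.trdeg (k := ℂ) (K := F)] at h1
    simp at h1
  rw [algebraicIndependent_iff] at hnot
  push Not at hnot
  obtain ⟨P, hP, hP0⟩ := hnot
  refine ⟨P, hP0, ?_⟩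
  have h1 : j (aeval β P) = aeval (fun i => gg (c i)) P := by
    rw [← AlgHom.comp_apply, comp_aeval]
    congr 2
    funext i
    exact hβ' i
  rw [hP, map_zero, aeval_gg, eq_comm, gg_zero] at h1
  exact h1

omit [IsFF ℂ F] in
/-- **The model** of a field with an equation of Weierstrass. -/
theorem exists_model' {X Y : F} {a b : ℂ}
    (hXY : Y ^ 2 = X ^ 3 + algebraMap ℂ F a * X + algebraMap ℂ F b)
    (hind : ∀ A B : Polynomial ℂ, Polynomial.aeval X A + Polynomial.aeval X B * Y = 0 →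
      A = 0 ∧ B = 0)
    (hgen : ∀ f : F, ∃ r s : MvPolynomial (Fin 2) ℂ, f = aeval ![X, Y] r / aeval ![X, Y] s)
    (hns : ∀ e : ℂ, e ^ 3 + a * e + b = 0 → 3 * e ^ 2 + a ≠ 0) :
    ∃ (j : F →ₐ[ℂ] GG) (s : F →ₐ[ℂ] F) (X : F) (x : ℕ → ℂ), (∀ z, j (s z) = shG (j z)) ∧
      Function.Injective x ∧ j X = gg x ∧ FinGen (BS j.range) := by
  obtain ⟨x, y, hinj, hy0, hxy, hx, hy⟩ := exists_orb hns
  obtain ⟨j, hj⟩ := exists_j hXY hind hgen hinj hxy
  have hjX : j X = gg x := by
    have h1 := hj (MvPolynomial.X 0)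
    rw [aeval_X, Gv, aeval_X] at h1
    exact h1
  have hjY : j Y = gg y := by
    have h1 := hj (MvPolynomial.X 1)
    rw [aeval_X, Gv, aeval_X] at h1
    exact h1
  have hY0 : Y ≠ 0 := by
    rintro rfl
    have h1 := (hind 0 1 (by rw [mul_zero, map_zero, zero_add])).2
    exact one_ne_zero h1
  have hjinj : Function.Injective j := j.toRingHom.injective
  set x' : ℕ → ℂ := fun m => x (m + 1) with hx'
  set y' : ℕ → ℂ := fun m => y (m + 1) with hy'
  set X2 : F := (X ^ 4 - 2 * algebraMap ℂ F a * X ^ 2 - 8 * algebraMap ℂ F b * X +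
    algebraMap ℂ F a ^ 2) / (4 * Y ^ 2) with hX2
  set Y2 : F := (X ^ 6 + 5 * algebraMap ℂ F a * X ^ 4 + 20 * algebraMap ℂ F b * X ^ 3 -
    5 * algebraMap ℂ F a ^ 2 * X ^ 2 - 4 * algebraMap ℂ F a * algebraMap ℂ F b * X -
    8 * algebraMap ℂ F b ^ 2 - algebraMap ℂ F a ^ 3) / (8 * Y ^ 3) with hY2
  have hch : CharZero F := charZero_of_injective_algebraMap (algebraMap ℂ F).injective
  have hd1 : 4 * Y ^ 2 ≠ 0 := mul_ne_zero (by norm_num) (pow_ne_zero _ hY0)
  have hd2 : 8 * Y ^ 3 ≠ 0 := mul_ne_zero (by norm_num) (pow_ne_zero _ hY0)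
  have hcA : ∀ c : ℂ, algebraMap ℂ GG c = gg fun _ => c := fun c => (gg.commutes c).symm
  have hnum : ∀ n : ℕ, (n : GG) = gg fun _ => (n : ℂ) := by
    intro n
    rw [← map_natCast (algebraMap ℂ GG) n, hcA]
  have n2 : (2 : GG) = gg fun _ => (2 : ℂ) := by exact_mod_cast hnum 2
  have n4 : (4 : GG) = gg fun _ => (4 : ℂ) := by exact_mod_cast hnum 4
  have n5 : (5 : GG) = gg fun _ => (5 : ℂ) := by exact_mod_cast hnum 5
  have n8 : (8 : GG) = gg fun _ => (8 : ℂ) := by exact_mod_cast hnum 8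
  have n20 : (20 : GG) = gg fun _ => (20 : ℂ) := by exact_mod_cast hnum 20
  have hjX2 : j X2 = gg x' := by
    have hu : IsUnit (j (4 * Y ^ 2)) := (isUnit_iff_ne_zero.2 hd1).map j
    apply hu.mul_right_cancel
    rw [← map_mul, hX2, div_mul_cancel₀ _ hd1]
    simp only [map_add, map_sub, map_mul, map_pow, map_ofNat, hjX, hjY, AlgHom.commutes]
    rw [hcA a, hcA b, n2, n8, n4]
    simp only [gg_fun_pow, ← map_mul, ← map_sub, ← map_add]
    congr 1
    funext m
    simp only [Pi.add_apply, Pi.sub_apply, Pi.mul_apply, hx']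
    rw [hx m, div_mul_cancel₀ _ (mul_ne_zero (by norm_num) (pow_ne_zero _ (hy0 m)))]
  have hjY2 : j Y2 = gg y' := by
    have hu : IsUnit (j (8 * Y ^ 3)) := (isUnit_iff_ne_zero.2 hd2).map j
    apply hu.mul_right_cancel
    rw [← map_mul, hY2, div_mul_cancel₀ _ hd2]
    simp only [map_add, map_sub, map_mul, map_pow, map_ofNat, hjX, hjY, AlgHom.commutes]
    rw [hcA a, hcA b, n5, n8, n4, n20]
    simp only [gg_fun_pow, ← map_mul, ← map_sub, ← map_add]
    congr 1
    funext m
    simp only [Pi.add_apply, Pi.sub_apply, Pi.mul_apply, hy']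
    rw [hy m, div_mul_cancel₀ _ (mul_ne_zero (by norm_num) (pow_ne_zero _ (hy0 m)))]
  have hpoly : ∀ P : MvPolynomial (Fin 2) ℂ, j (aeval ![X2, Y2] P) = shG (j (aeval ![X, Y] P)) := by
    intro P
    rw [hj, Gv_eq, shG_gg, ← AlgHom.comp_apply, comp_aeval]
    have h1 : (fun i => j (![X2, Y2] i)) = ![gg x', gg y'] := by
      funext i
      fin_cases i
      · exact hjX2
      · exact hjY2
    have h2 : aeval (fun i => j (![X2, Y2] i)) P = Gv x' y' P := by
      rw [h1]
      rfl
    exact h2.trans (Gv_eq P)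
  have hstab : ∀ f : F, ∃ g : F, j g = shG (j f) := by
    intro f
    obtain ⟨r, q, h⟩ := hgen f
    by_cases hq : aeval ![X, Y] q = 0
    · refine ⟨0, ?_⟩
      rw [h, hq, div_zero, map_zero, map_zero]
    · have hu : IsUnit (shG (j (aeval ![X, Y] q))) := ((isUnit_iff_ne_zero.2 hq).map j).map shG
      have hne : aeval ![X2, Y2] q ≠ 0 := by
        intro h3
        rw [← hpoly, h3, map_zero] at hu
        exact not_isUnit_zero hu
      refine ⟨aeval ![X2, Y2] r / aeval ![X2, Y2] q, ?_⟩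
      apply hu.mul_right_cancel
      rw [← map_mul, ← map_mul, h, div_mul_cancel₀ _ hq, ← hpoly, ← hpoly, ← map_mul,
        div_mul_cancel₀ _ hne]
  choose s hs using hstab
  refine ⟨j, { toFun := s
               map_one' := hjinj (by rw [hs, map_one, map_one])
               map_mul' := fun f g => hjinj (by rw [hs, map_mul, map_mul, map_mul, hs, hs])
               map_zero' := hjinj (by rw [hs, map_zero, map_zero])
               map_add' := fun f g => hjinj (by rw [hs, map_add, map_add, map_add, hs, hs])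
               commutes' := fun c => hjinj (by rw [hs, AlgHom.commutes, shG_const]) },
    X, x, hs, hinj, hjX, ?_⟩
  -- finite generation
  refine ⟨{x, y}, (Set.finite_singleton y).insert x, ?_, ?_⟩
  · rintro f (rfl | hf)
    · exact ⟨X, hjX⟩
    · rw [Set.mem_singleton_iff.1 hf]
      exact ⟨Y, hjY⟩
  · rintro c ⟨f, hf⟩
    have hf' : j f = gg c := hf
    obtain ⟨r, q, hq, hrq⟩ : ∃ r q : MvPolynomial (Fin 2) ℂ, aeval ![X, Y] q ≠ 0 ∧
        f * aeval ![X, Y] q = aeval ![X, Y] r := by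
      obtain ⟨r, q, h⟩ := hgen f
      by_cases h0 : aeval ![X, Y] q = 0
      · refine ⟨0, 1, ?_, ?_⟩
        · rw [map_one]
          exact one_ne_zero
        · rw [h, h0, div_zero, zero_mul, map_zero]
      · exact ⟨r, q, h0, by rw [h, div_mul_cancel₀ _ h0]⟩
    have hev : ∀ P : MvPolynomial (Fin 2) ℂ, gg (aeval ![x, y] P) = j (aeval ![X, Y] P) := by
      intro P
      rw [hj, ← AlgHom.comp_apply, comp_aeval]
      have h1 : (fun i => gg (![x, y] i)) = ![gg x, gg y] := by
        funext i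
        fin_cases i <;> rfl
      rw [h1]
      rfl
    have hmem : ∀ P : MvPolynomial (Fin 2) ℂ, (aeval ![x, y] P : ℕ → ℂ) ∈
        Algebra.adjoin ℂ ({x, y} : Set (ℕ → ℂ)) := by
      intro P
      have h1 : (aeval ![x, y] P : ℕ → ℂ) ∈ Algebra.adjoin ℂ (Set.range ![x, y]) := by
        rw [Algebra.adjoin_range_eq_range_aeval]
        exact ⟨P, rfl⟩
      have h2 : Set.range ![x, y] = ({x, y} : Set (ℕ → ℂ)) := by
        rw [Matrix.range_cons, Matrix.range_cons, Matrix.range_empty, Set.union_empty,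
          Set.singleton_union]
      rwa [h2] at h1
    refine ⟨_, hmem r, _, hmem q, ?_, ?_⟩
    · apply unit_ne
      rw [hev]
      exact (isUnit_iff_ne_zero.2 hq).map j
    · have h1 : gg (c * aeval ![x, y] q) = gg (aeval ![x, y] r) := by
        rw [map_mul, hev, hev, ← hrq, map_mul, hf']
      exact gg_eq.1 h1

/-- **The model** of a field of canonical degree zero. -/
theorem exists_model (h0 : canDeg ℂ F = 0) :
    ∃ (j : F →ₐ[ℂ] GG) (s : F →ₐ[ℂ] F) (X : F) (x : ℕ → ℂ), (∀ z, j (s z) = shG (j z)) ∧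
      Function.Injective x ∧ j X = gg x ∧ FinGen (BS j.range) := by
  obtain ⟨X, Y, a, b, -, hXY, hind, hgen, hns⟩ := weier (k := ℂ) (F := F) h0
  exact exists_model' hXY hind hgen hns

end Pool.Agent.TH143.GE
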