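import Pool.Agent.TH143.GE.Fld

/-!
Sequences over function fields of genus at least two.
-/

set_option autoImplicit false

namespace Pool.Agent.TH143.GE

open MvPolynomial Filter Pool.Agent.TH143.DE Pool.Agent.TH143.HE Pool.Agent.TH143.TW FF
open Module Pool.Agent.W603.LV

variable {N : ℕ} {R : Type} [CommRing R] {K : Type} [Field K] [Algebra ℂ K] {j : K →ₐ[ℂ] GG}
  {s : K →ₐ[ℂ] K}

/-- the image of the field, as an algebra over a subfield -/
noncomputable def VF (j : K →ₐ[ℂ] GG) {F : IntermediateField ℂ K}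
    (h0 : CoefField (BS (SF j F))) : Subalgebra (KB (BS (SF j F)) h0) GG where
  carrier := Set.range j
  mul_mem' := by
    rintro _ _ ⟨a, rfl⟩ ⟨b, rfl⟩
    exact ⟨a * b, map_mul _ _ _⟩
  add_mem' := by
    rintro _ _ ⟨a, rfl⟩ ⟨b, rfl⟩
    exact ⟨a + b, map_add _ _ _⟩
  algebraMap_mem' := by
    intro c
    obtain ⟨b, rfl⟩ := cK_surj h0 c
    rw [alg_cK]
    obtain ⟨z, -, hz⟩ := mem_SF.1 (mem_BS.1 b.2)
    exact ⟨z, hz⟩

theorem VF_fg {F : IntermediateField ℂ K}
    (h0 : CoefField (BS (SF j F))) (hfin : FiniteDimensional F K) :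
    (Subalgebra.toSubmodule (VF j h0)).FG := by
  classical
  obtain ⟨T, hT⟩ := hfin.fg_top
  refine ⟨T.image j, le_antisymm ?_ ?_⟩
  · rw [Submodule.span_le, Finset.coe_image]
    rintro _ ⟨z, -, rfl⟩
    exact ⟨z, rfl⟩
  · rintro _ ⟨z, rfl⟩
    have hz : z ∈ Submodule.span F (T : Set K) := by
      rw [hT]
      exact Submodule.mem_top
    rw [Finset.coe_image]
    change j z ∈ _
    induction hz using Submodule.span_induction with
    | mem x hx => exact Submodule.subset_span ⟨x, hx, rfl⟩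
    | zero =>
      rw [map_zero]
      exact Submodule.zero_mem _
    | add x y _ _ hx hy =>
      rw [map_add]
      exact Submodule.add_mem _ hx hy
    | smul c x _ hx =>
      obtain ⟨b, hb⟩ := gg_surj (j (c : K))
      have hbm : b ∈ BS (SF j F) := ⟨c, c.2, hb.symm⟩
      have h1 : j (c • x) = cK h0 ⟨b, hbm⟩ • j x := by
        rw [Algebra.smul_def, Algebra.smul_def, map_mul, alg_cK, hb]
        rfl
      rw [h1]
      exact Submodule.smul_mem _ _ hx

theorem VF_st (hs : ∀ z, j (s z) = shG (j z)) {F : IntermediateField ℂ K}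
    (h0 : CoefField (BS (SF j F))) : ∀ v ∈ Subalgebra.toSubmodule (VF j h0),
      shG v ∈ Subalgebra.toSubmodule (VF j h0) := by
  rintro _ ⟨z, rfl⟩
  exact ⟨s z, hs z⟩

/-- The case of genus at least two. -/
theorem per_pos {φ : R →+* ℂ} {I I' : Ideal (MvPolynomial (Fin (N + 1)) R)}
    (h : RatCurvesIn φ I I') (hs : ∀ z, j (s z) = shG (j z)) [IsFF ℂ K]
    (hpos : 0 < canDeg ℂ K) {x : ℕ → Fin (N + 1) → ℂ} {Y : Fin (N + 1) → K}
    (hY : ∀ i, j (Y i) = gg fun m => x m i)
    (hne : ∀ᶠ m in atTop, x m ≠ 0)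
    (hX : ∀ᶠ m in atTop, IsPtP φ I (x m))
    (hZ : ∀ᶠ m in atTop, ¬ IsPtP φ I' (x m)) : Per x := by
  obtain ⟨W, hW, hWs, t, ht, htr⟩ := exists_W hpos s
  set F := IntermediateField.adjoin ℂ (W : Set K) with hFdef
  have hF : ∀ z ∈ F, s z ∈ F := by
    intro z hz
    have h1 : s z ∈ F.map s := ⟨z, hz, rfl⟩
    rw [hFdef, IntermediateField.adjoin_map] at h1
    have h2 : IntermediateField.adjoin ℂ (s '' (W : Set K)) ≤ F := by
      rw [IntermediateField.adjoin_le_iff]
      rintro _ ⟨w, hw, rfl⟩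
      exact IntermediateField.subset_adjoin _ _ (hWs w hw)
    exact h2 h1
  have hfin : FiniteDimensional F K := by
    have h1 := IsFF.finite htr
    have h2 : IntermediateField.adjoin ℂ {t} ≤ F := by
      rw [IntermediateField.adjoin_le_iff, Set.singleton_subset_iff]
      exact IntermediateField.subset_adjoin _ _ ht
    let _ : Algebra (IntermediateField.adjoin ℂ {t}) F := (IntermediateField.inclusion h2).toAlgebra
    have h3 : IsScalarTower (IntermediateField.adjoin ℂ {t}) F K :=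
      IsScalarTower.of_algebraMap_eq fun _ => rfl
    exact FiniteDimensional.right (IntermediateField.adjoin ℂ {t}) F K
  have hfld := SF_fld hs hF
  have h0 : CoefField (BS (SF j F)) := hfld.field
  have hst : Step EC (BS (SF j F)) := step_adjoin hs hW hWs
  have hVfg := VF_fg h0 hfin
  have hmem : ∀ i, (gg fun m => x m i) ∈ VF j h0 := fun i => ⟨Y i, hY i⟩
  have hLF : ∀ i, LF (KB (BS (SF j F)) h0) (gg fun m => x m i) := fun i =>
    ⟨_, hVfg, hmem i, VF_st hs h0⟩
  have hone : LF (KB (BS (SF j F)) h0) (1 : GG) :=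
    ⟨_, hVfg, (VF j h0).one_mem, VF_st hs h0⟩
  obtain ⟨q, hqu, hq, hqr⟩ := descend EC_field h0 hst (f := fun i => gg fun m => x m i)
    (r := fun i => gg fun m => x m i) (g := 1) hLF hone isUnit_one (fun i => one_mul _)
    (fun i => IsIntegral.of_mem_of_fg (VF j h0) hVfg _ (hmem i))
  obtain ⟨Q, rfl⟩ := gg_surj q
  have hQ := unit_ne hqu
  refine Per.scale (b := Q) hQ (good_base h _ ?_ ?_ ?_ ?_)
  · filter_upwards [hQ, hne] with m h1 h2 h3
    apply h2
    funext i
    exact (mul_eq_zero.1 (congrFun h3 i)).resolve_left h1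
  · intro i
    apply linRec_of_LF EC_field
    exact hqr i
  · filter_upwards [hX] with m h1
    rintro G hG ⟨d, hd⟩
    rw [eval₂_smul_homog φ _ (x m) hd, h1 G hG ⟨d, hd⟩, mul_zero]
  · filter_upwards [hQ, hZ] with m h1 h2 h3
    apply h2
    rintro G hG ⟨d, hd⟩
    have h4 := h3 G hG ⟨d, hd⟩
    rw [eval₂_smul_homog φ _ (x m) hd] at h4
    exact (mul_eq_zero.1 h4).resolve_left (pow_ne_zero _ h1)

end Pool.Agent.TH143.GE
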