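import Pool.Agent.TH143.GE.Low

/-!
Finite difference algebras over fields of transcendence degree one: on suitable arithmetic
progressions they become fields.
-/

set_option autoImplicit false

namespace Pool.Agent.TH143.GE

open MvPolynomial Filter Pool.Agent.TH143.DE Pool.Agent.TH143.HE Pool.Agent.TH143.TW FF
open Module

/-! ### arithmetic progressions -/

/-- the restriction to an arithmetic progression -/
noncomputable def resS (a M : ℕ) : (ℕ → ℂ) →ₐ[ℂ] (ℕ → ℂ) :=
  AlgHom.pi fun m => Pi.evalAlgHom ℂ (fun _ : ℕ => ℂ) (a + M * m)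

theorem ev_res {p : ℕ → Prop} (h : ∀ᶠ m in atTop, p m) {a M : ℕ} (hM : 0 < M) :
    ∀ᶠ m in atTop, p (a + M * m) := by
  obtain ⟨m0, hm0⟩ := eventually_atTop.1 h
  refine eventually_atTop.2 ⟨m0, fun m hm => hm0 _ ?_⟩
  have h1 : 1 * m ≤ M * m := Nat.mul_le_mul_right m hM
  omega

/-- the restriction of germs to an arithmetic progression -/
noncomputable def resG (a M : ℕ) (hM : 0 < M) : GG →ₐ[ℂ] GG :=
  Ideal.Quotient.liftₐ EZ (gg.comp (resS a M)) fun f hf => by
    change gg (resS a M f) = 0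
    rw [gg_zero]
    exact ev_res (mem_EZ.1 hf) hM

theorem resG_gg (a M : ℕ) (hM : 0 < M) (f : ℕ → ℂ) :
    resG a M hM (gg f) = gg fun m => f (a + M * m) := rfl

theorem shG_resG (a M : ℕ) (hM : 0 < M) (x : GG) :
    shG (resG a M hM x) = resG a M hM ((shG ^ M) x) := by
  obtain ⟨f, rfl⟩ := gg_surj x
  rw [resG_gg, shG_gg, shG_pow, resG_gg]
  congr 1
  funext m
  congr 1
  ring

/-! ### the idempotents -/

section

variable {k : Type} [Field k] [Algebra k GG] {S : Subalgebra k GG}

theorem pow_mem' (hst : ∀ x ∈ S, shG x ∈ S) (M : ℕ) : ∀ x ∈ S, (shG ^ M) x ∈ S := by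
  induction M with
  | zero => exact fun x hx => hx
  | succ M ih =>
    intro x hx
    rw [pow_succ, RingHom.mul_def, RingHom.comp_apply]
    exact ih _ (hst x hx)

theorem idem_finite (hfin : Module.Finite k S) : Finite {e : S // IsIdempotentElem e} := by
  have hart : IsArtinianRing S := IsArtinianRing.of_finite k S
  have h1 : Finite (PrimeSpectrum S) := inferInstance
  have h2 : Finite (TopologicalSpace.Clopens (PrimeSpectrum S)) := inferInstance
  exact Finite.of_equiv _ (PrimeSpectrum.isIdempotentElemEquivClopens (R := S)).toEquiv.symm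

theorem exists_period (hst : ∀ x ∈ S, shG x ∈ S) (hfin : Module.Finite k S) :
    ∃ M : ℕ, 0 < M ∧ ∀ e ∈ S, e * e = e → (shG ^ M) e = e := by
  classical
  have hf := idem_finite hfin
  let f : {e : S // IsIdempotentElem e} → {e : S // IsIdempotentElem e} := fun e =>
    ⟨⟨shG (e : S), hst _ (e : S).2⟩, Subtype.ext (by
      have h1 : ((e : S) : GG) * ((e : S) : GG) = ((e : S) : GG) := congrArg Subtype.val e.2
      change shG ((e : S) : GG) * shG ((e : S) : GG) = shG ((e : S) : GG)
      rw [← map_mul, h1])⟩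
  have hinj : Function.Injective f := by
    intro a b hab
    apply Subtype.ext
    apply Subtype.ext
    apply shG_inj
    exact congrArg (fun z : {e : S // IsIdempotentElem e} => ((z : S) : GG)) hab
  let π : Equiv.Perm {e : S // IsIdempotentElem e} :=
    Equiv.ofBijective f (Finite.injective_iff_bijective.1 hinj)
  have hπ : ∀ e, ((π e : S) : GG) = shG ((e : S) : GG) := fun e => rfl
  have hpow : ∀ (n : ℕ) (e), (((π ^ n) e : S) : GG) = (shG ^ n) ((e : S) : GG) := by
    intro n
    induction n with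
    | zero => exact fun e => rfl
    | succ n ih =>
      intro e
      rw [pow_succ, Equiv.Perm.mul_apply, ih, hπ, pow_succ, RingHom.mul_def, RingHom.comp_apply]
  refine ⟨orderOf π, orderOf_pos π, fun e he hee => ?_⟩
  have h1 := hpow (orderOf π) ⟨⟨e, he⟩, Subtype.ext hee⟩
  rw [pow_orderOf_eq_one] at h1
  exact h1.symm

theorem exists_vN (hfin : Module.Finite k S) {x : GG} (hx : x ∈ S) : ∃ t ∈ S, x = x * x * t := by
  have hart : IsArtinianRing S := IsArtinianRing.of_finite k S
  have hred : IsReduced S := isReduced_of_injective S.val Subtype.val_injective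
  obtain ⟨n, y, hy⟩ := IsArtinian.exists_pow_succ_smul_dvd (⟨x, hx⟩ : S) (1 : S)
  set r : S := ⟨x, hx⟩ with hr
  rw [smul_eq_mul, smul_eq_mul, mul_one] at hy
  have h1 : (r - r * r * y) ^ (n + 1) = 0 := by
    have h2 : r - r * r * y = r * (1 - r * y) := by ring
    have h3 : r ^ n * (1 - r * y) = 0 := by
      have h5 : r ^ (n + 1) * y = r ^ n := hy
      linear_combination -h5
    have h4 : (r - r * r * y) ^ (n + 1) = r ^ n * (1 - r * y) * (r * (1 - r * y) ^ n) := by
      rw [h2, mul_pow]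
      ring
    rw [h4, h3, zero_mul]
  have h5 : r - r * r * y = 0 := pow_eq_zero_iff (Nat.succ_ne_zero n) |>.1 h1
  refine ⟨y, y.2, ?_⟩
  exact congrArg Subtype.val (sub_eq_zero.1 h5)

theorem idem_res {e : GG} (he : e * e = e) {M : ℕ} (hM : 0 < M) (hp : (shG ^ M) e = e) (a : ℕ) :
    resG a M hM e = 0 ∨ resG a M hM e = 1 := by
  obtain ⟨f, rfl⟩ := gg_surj e
  have h1 : ∀ᶠ m in atTop, f (a + M * m) * f (a + M * m) = f (a + M * m) := by
    rw [← map_mul, gg_eq] at he
    exact ev_res he hM
  have h2 : ∀ᶠ m in atTop, f (a + M * m + M) = f (a + M * m) := by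
    rw [shG_pow, gg_eq] at hp
    exact ev_res hp hM
  obtain ⟨m0, hm0⟩ := eventually_atTop.1 (h1.and h2)
  have h3 : ∀ n, f (a + M * (m0 + n)) = f (a + M * m0) := by
    intro n
    induction n with
    | zero => rfl
    | succ n ih =>
      rw [← ih, ← (hm0 (m0 + n) (by omega)).2]
      congr 1
      ring
  have h4 : ∀ m, m0 ≤ m → f (a + M * m) = f (a + M * m0) := by
    intro m hm
    have := h3 (m - m0)
    rwa [Nat.add_sub_cancel' hm] at this
  have h5 : f (a + M * m0) * (f (a + M * m0) - 1) = 0 := by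
    have := (hm0 m0 le_rfl).1
    linear_combination this
  rw [resG_gg]
  rcases mul_eq_zero.1 h5 with h6 | h6
  · left
    rw [gg_zero]
    exact eventually_atTop.2 ⟨m0, fun m hm => by rw [h4 m hm, h6]⟩
  · right
    rw [← map_one gg, gg_eq]
    exact eventually_atTop.2 ⟨m0, fun m hm => by
      rw [h4 m hm, sub_eq_zero.1 h6]
      rfl⟩

end

/-! ### the fields -/

section

variable {k : Type} [Field k] [Algebra ℂ k] [Algebra k GG] [IsScalarTower ℂ k GG]
  {S : Subalgebra k GG}

/-- the restriction of a difference algebra to an arithmetic progression -/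
noncomputable def Sa (S : Subalgebra k GG) (a M : ℕ) (hM : 0 < M) : Subalgebra ℂ GG :=
  (S.restrictScalars ℂ).map (resG a M hM)

theorem Sa_fld (hst : ∀ x ∈ S, shG x ∈ S) (hfin : Module.Finite k S) {M : ℕ} (hM : 0 < M)
    (hp : ∀ e ∈ S, e * e = e → (shG ^ M) e = e) (a : ℕ) : IsFld (Sa S a M hM) := by
  constructor
  · rintro _ ⟨x, hx, rfl⟩
    exact ⟨(shG ^ M) x, pow_mem' hst M x hx, (shG_resG a M hM x).symm⟩
  · rintro _ ⟨x, hx, rfl⟩ h0
    change resG a M hM x ≠ 0 at h0
    obtain ⟨t, ht, hxt⟩ := exists_vN hfin (S := S) hx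
    have he : (x * t) * (x * t) = x * t := by
      calc (x * t) * (x * t) = (x * x * t) * t := by ring
        _ = x * t := by rw [← hxt]
    refine ⟨resG a M hM t, ⟨t, ht, rfl⟩, ?_⟩
    change resG a M hM x * resG a M hM t = 1
    rw [← map_mul]
    rcases idem_res he hM (hp _ (S.mul_mem hx ht) he) a with h1 | h1
    · exfalso
      apply h0
      have h2 : x = (x * t) * x := by
        calc x = x * x * t := hxt
          _ = (x * t) * x := by ring
      rw [h2, map_mul, h1, zero_mul]
    · exact h1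

theorem IsFld.isField {S : Subalgebra ℂ GG} (h : IsFld S) : IsField S where
  exists_pair_ne := ⟨0, 1, fun h0 => zero_ne_one (congrArg Subtype.val h0)⟩
  mul_comm := mul_comm
  mul_inv_cancel := by
    intro x hx
    obtain ⟨y, hy, hxy⟩ := h.2 x x.2 (fun h0 => hx (Subtype.ext h0))
    exact ⟨⟨y, hy⟩, Subtype.ext hxy⟩

omit [Algebra k GG] [IsScalarTower ℂ k GG] in
theorem finite_fg {L : Type} [Field L] [Algebra ℂ L] (i : k →ₐ[ℂ] L)
    (hi : (i : k →+* L).Finite) (hess : Algebra.EssFiniteType ℂ k)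
    (htd : Algebra.trdeg ℂ k ≤ 1) : Algebra.EssFiniteType ℂ L ∧ Algebra.trdeg ℂ L ≤ 1 := by
  let _ : Algebra k L := (i : k →+* L).toAlgebra
  have h1 : Module.Finite k L := hi
  have h2 : IsScalarTower ℂ k L := IsScalarTower.of_algebraMap_eq fun c => (i.commutes c).symm
  refine ⟨Algebra.EssFiniteType.comp ℂ k L, ?_⟩
  have h3 : Algebra.trdeg k L = 0 :=
    _root_.trdeg_eq_zero_iff.2 (Algebra.IsAlgebraic.of_finite k L)
  have h4 := _root_.trdeg_add_eq ℂ k (A := L)
  rw [h3, add_zero] at h4
  rw [← h4]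
  exact htd

/-- the field of the restriction is finitely generated of transcendence degree at most one -/
theorem Sa_fg (hfin : Module.Finite k S) {M : ℕ} (hM : 0 < M) (a : ℕ)
    (hfld : IsFld (Sa S a M hM)) (hess : Algebra.EssFiniteType ℂ k)
    (htd : Algebra.trdeg ℂ k ≤ 1) :
    Algebra.EssFiniteType ℂ (Sa S a M hM) ∧ Algebra.trdeg ℂ (Sa S a M hM) ≤ 1 := by
  let _ : Field (Sa S a M hM) := hfld.isField.toField
  let i : k →ₐ[ℂ] (Sa S a M hM) :=
    AlgHom.codRestrict ((resG a M hM).comp (IsScalarTower.toAlgHom ℂ k GG)) _ fun c =>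
      ⟨algebraMap k GG c, S.algebraMap_mem c, rfl⟩
  refine finite_fg (L := Sa S a M hM) i ?_ hess htd
  let _ : Algebra k (Sa S a M hM) := (i : k →+* (Sa S a M hM)).toAlgebra
  change Module.Finite k (Sa S a M hM)
  let f : S →ₗ[k] (Sa S a M hM) :=
    { toFun := fun x => ⟨resG a M hM x, ⟨x, x.2, rfl⟩⟩
      map_add' := fun x y => Subtype.ext (map_add (resG a M hM) (x : GG) (y : GG))
      map_smul' := fun c x => Subtype.ext (by
        change resG a M hM (c • (x : GG)) = resG a M hM (algebraMap k GG c) * resG a M hM (x : GG)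
        rw [Algebra.smul_def, map_mul]) }
  refine Module.Finite.of_surjective f ?_
  rintro ⟨_, x, hx, rfl⟩
  exact ⟨⟨x, hx⟩, rfl⟩

variable {N : ℕ} {R : Type} [CommRing R]

/-- sequences over a field of germs -/
theorem per_sub {φ : R →+* ℂ} {I I' : Ideal (MvPolynomial (Fin (N + 1)) R)}
    (h : RatCurvesIn φ I I') (hE : GenusOneIn φ I I') {T : Subalgebra ℂ GG} (hT : IsFld T)
    (hess : Algebra.EssFiniteType ℂ T) (htd : Algebra.trdeg ℂ T ≤ 1)
    {x : ℕ → Fin (N + 1) → ℂ} (hY : ∀ i, (gg fun m => x m i) ∈ T)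
    (hne : ∀ᶠ m in atTop, x m ≠ 0)
    (hX : ∀ᶠ m in atTop, IsPtP φ I (x m))
    (hZ : ∀ᶠ m in atTop, ¬ IsPtP φ I' (x m)) : Per x := by
  let _ : Field T := hT.isField.toField
  let s : T →ₐ[ℂ] T :=
    { toFun := fun x => ⟨shG x, hT.1 x x.2⟩
      map_one' := Subtype.ext (map_one shG)
      map_mul' := fun x y => Subtype.ext (map_mul shG (x : GG) (y : GG))
      map_zero' := Subtype.ext (map_zero shG)
      map_add' := fun x y => Subtype.ext (map_add shG (x : GG) (y : GG))
      commutes' := fun c => Subtype.ext (by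
        change shG (algebraMap ℂ GG c) = algebraMap ℂ GG c
        rw [← gg.commutes c, shG_gg]
        rfl) }
  exact per_fld (K := T) (j := T.val) (s := s) h hE (fun z => rfl) hess htd
    (Y := fun i => ⟨_, hY i⟩) (fun i => rfl) hne hX hZ

end

end Pool.Agent.TH143.GE
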